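import Pool.Agent.Helper91.CM.Flag4

/-!
Adapted frames.
-/

set_option autoImplicit false
set_option linter.unusedSectionVars false

namespace Pool.Agent.Helper91.CX

open Metric Set Topology Module
open scoped Manifold ContDiff
open Pool.Agent.Helper12.BL Pool.Agent.Helper91.HM Pool.Agent.Helper91.EF Pool.Agent.Helper91.CM
open Pool.Agent.Helper91.HM.Tw (lt lt_lt lt_one lt_li)

section lin

theorem mv_mv {r m : ℕ} (A C : Matrix (Fin r) (Fin r) ℂ) (g : Fin r → Fin m → ℂ) :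
    mv A (mv C g) = mv (A * C) g := lt_lt A C g

theorem mv_inj {r m : ℕ} {A C : Matrix (Fin r) (Fin r) ℂ} {g : Fin r → Fin m → ℂ}
    (hg : LinearIndependent ℂ g) (h : mv A g = mv C g) : A = C := by
  ext i j
  have h1 : ∑ j, (A i j - C i j) • g j = 0 := by
    simp only [sub_smul, Finset.sum_sub_distrib]
    have h2 : ∑ j, A i j • g j = ∑ j, C i j • g j := congrFun h i
    rw [h2, sub_self]
  have h2 := Fintype.linearIndependent_iff.1 hg _ h1 j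
  exact sub_eq_zero.1 h2

theorem mv_map {r m m' : ℕ} (L : (Fin m → ℂ) →L[ℂ] (Fin m' → ℂ)) (A : Matrix (Fin r) (Fin r) ℂ)
    (g : Fin r → Fin m → ℂ) : (fun i => L (mv A g i)) = mv A fun i => L (g i) := by
  funext i
  simp only [mv, map_sum, map_smul]

/-- block matrices -/
def Blk {r : ℕ} {τ : Type} (k : τ → ℕ) (C : Matrix (Fin r) (Fin r) ℂ) : Prop :=
  ∀ t, ∀ i j : Fin r, C i j ≠ 0 → (i : ℕ) < k t → (j : ℕ) < k t

theorem blk_of {r m k : ℕ} (hk : k ≤ r) {C : Matrix (Fin r) (Fin r) ℂ} {g : Fin r → Fin m → ℂ}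
    (hg : LinearIndependent ℂ g)
    (h : ∀ i : Fin k, mv C g (Fin.castLE hk i) ∈ Submodule.span ℂ (range (fst hk g)))
    (i j : Fin r) (hij : C i j ≠ 0) (hi : (i : ℕ) < k) : (j : ℕ) < k := by
  classical
  by_contra hj
  rw [not_lt] at hj
  apply hij
  obtain ⟨c, hc⟩ := mem_span_fam.1 (h ⟨i, hi⟩)
  obtain ⟨c', hc'⟩ : ∃ c' : Fin r → ℂ, c' = fun l : Fin r => if hl : (l : ℕ) < k then c ⟨l, hl⟩ else 0 :=
    ⟨_, rfl⟩
  have h1 : ∑ l, c' l • g l = mv C g i := by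
    rw [sum_fst hk (fun l => c' l • g l) fun l hl => by
      rw [hc']
      beta_reduce
      rw [dif_neg (not_lt.2 hl), zero_smul]]
    refine Eq.trans ?_ hc
    refine Finset.sum_congr rfl fun l _ => ?_
    have h0 : c' (Fin.castLE hk l) = c l := by
      rw [hc']
      exact dif_pos l.2
    rw [h0]
    rfl
  have h2 : ∑ l, (C i l - c' l) • g l = 0 := by
    simp only [sub_smul, Finset.sum_sub_distrib]
    rw [h1]
    exact sub_self _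
  have h3 := Fintype.linearIndependent_iff.1 hg _ h2 j
  rw [hc'] at h3
  beta_reduce at h3
  rw [dif_neg (not_lt.2 hj), sub_zero] at h3
  exact h3

end lin

variable {n : ℕ} {X : Type} [TopologicalSpace X] [ChartedSpace (Fin n → ℂ) X]
  [IsManifold 𝓘(ℂ, Fin n → ℂ) ω X]

/-- inclusions of distributions are closed -/
theorem incl (hCr : S_Cramer) {M₁ M₂ G : Set X}
    {F₁ F₂ : Ch n X → X → Submodule ℂ (Fin n → ℂ)} {r₁ r₂ : ℕ} (h₁ : IsDist M₁ F₁ r₁)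
    (h₂ : IsDist M₂ F₂ r₂) (hG : M₁ ∩ M₂ ⊆ closure G) {φ : Ch n X} (hφ : φ ∈ Charts n X)
    (hle : ∀ x ∈ φ.source, x ∈ G → F₁ φ x ≤ F₂ φ x) {x : X} (hx : x ∈ φ.source)
    (hx₁ : x ∈ M₁) (hx₂ : x ∈ M₂) : F₁ φ x ≤ F₂ φ x := by
  obtain ⟨W₁, e₁, hW₁, hxW₁, he₁, hf₁⟩ := h₁.frame φ hφ x hx hx₁
  obtain ⟨W₂, e₂, hW₂, hxW₂, he₂, hf₂⟩ := h₂.frame φ hφ x hx hx₂
  have h3 := hf₁ _ hxW₁
  have h4 := hf₂ _ hxW₂
  rw [φ.left_inv hx] at h3 h4
  rw [← h3.2, Submodule.span_le]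
  rintro _ ⟨i, rfl⟩
  obtain ⟨W', c, hW', hxW', -, -, -, hc⟩ := hCr n n r₂ (W₁ ∩ W₂)
    ((W₁ ∩ W₂) ∩ φ.symm ⁻¹' G) (φ x) e₂ (fun y => e₁ y i) (hW₁.1.inter hW₂.1) ⟨hxW₁, hxW₂⟩
    (fun i j => (he₂ i j).mono inter_subset_right)
    (differentiableOn_pi.2 fun j => (he₁ i j).mono inter_subset_left) h4.1 (by
      intro y hy
      rw [_root_.mem_closure_iff]
      intro U hU hyU
      have hO : IsOpen (φ.source ∩ φ ⁻¹' (U ∩ (W₁ ∩ W₂))) :=
        φ.isOpen_inter_preimage (hU.inter (hW₁.1.inter hW₂.1))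
      obtain ⟨z, hz, hzG⟩ := _root_.mem_closure_iff.1 (hG ⟨hW₁.2.2 y hy.1, hW₂.2.2 y hy.2⟩) _ hO
        ⟨φ.map_target (hW₁.2.1 hy.1), by
          rw [mem_preimage, φ.right_inv (hW₁.2.1 hy.1)]
          exact ⟨hyU, hy⟩⟩
      refine ⟨φ z, hz.2.1, hz.2.2, ?_⟩
      rw [mem_preimage, φ.left_inv hz.1]
      exact hzG) inter_subset_left (by
      rintro y ⟨hy, hyG⟩
      have h5 := hle _ (φ.map_target (hW₁.2.1 hy.1)) hyG
      rw [(hf₂ y hy.2).2]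
      apply h5
      rw [← (hf₁ y hy.1).2]
      exact Submodule.subset_span ⟨i, rfl⟩)
  rw [SetLike.mem_coe, hc _ hxW', ← h4.2]
  exact Submodule.sum_mem _ fun j _ => Submodule.smul_mem _ _ (Submodule.subset_span ⟨j, rfl⟩)

/-- local adapted frames -/
theorem adp_exists {σ : Type} [Finite σ] {r : ℕ} {k : σ → ℕ} (hk : ∀ o, k o ≤ r)
    (htop : ∃ o, k o = r) {Mk : σ → Set X} {Fk : σ → Ch n X → X → Submodule ℂ (Fin n → ℂ)}
    (hd : ∀ o, IsDist (Mk o) (Fk o) (k o)) {φ : Ch n X} (hφ : φ ∈ Charts n X)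
    (hincl : ∀ o o', k o ≤ k o' → ∀ x ∈ φ.source, x ∈ Mk o → x ∈ Mk o' → Fk o φ x ≤ Fk o' φ x)
    {x : X} (hx : x ∈ φ.source) (hxM : ∀ o, x ∈ Mk o) :
    ∃ (W : Set (Fin n → ℂ)) (D : (Fin n → ℂ) → Fin r → Fin n → ℂ), IsOpen W ∧ W ⊆ φ.target ∧
      (∀ y ∈ W, ∀ o, φ.symm y ∈ Mk o) ∧ φ x ∈ W ∧ Hol W D ∧
        ∀ y ∈ W, ∀ o, Fr (Fk o) φ (φ.symm y) (fst (hk o) (D y)) := by
  classical
  obtain ⟨o1, ho1⟩ := htop
  choose W E hW hxW hE hf using fun o => (hd o).frame φ hφ x hx (hxM o)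
  -- the smallest members
  have hmin : ∀ j : Fin r, ∃ o, (j : ℕ) < k o ∧ ∀ o', (j : ℕ) < k o' → k o ≤ k o' := by
    intro j
    have hex : ∃ v, ∃ o, k o = v ∧ (j : ℕ) < k o := ⟨_, o1, rfl, ho1 ▸ j.2⟩
    obtain ⟨o, h1, h2⟩ := Nat.find_spec hex
    refine ⟨o, h2, fun o' ho' => ?_⟩
    rw [h1]
    exact Nat.find_min' hex ⟨o', rfl, ho'⟩
  choose κ hκ hκ' using hmin
  have hfx : ∀ o, Fr (Fk o) φ x (E o (φ x)) := fun o => by
    have := hf o _ (hxW o)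
    rwa [φ.left_inv hx] at this
  have hrank : ∀ {o : σ} {y : X} {e : Fin (k o) → Fin n → ℂ}, Fr (Fk o) φ y e →
      finrank ℂ (Fk o φ y) = k o := fun {o y e} h => by
    rw [← h.2, finrank_span_eq_card h.1, Fintype.card_fin]
  obtain ⟨v, hv, hvm⟩ := greedy (K := ℂ) (fun j : Fin r => Fk (κ j) φ x) fun j => by
    rw [hrank (hfx _)]
    exact hκ j
  have hc : ∀ j, ∃ c : Fin (k (κ j)) → ℂ, ∑ l, c l • E (κ j) (φ x) l = v j := fun j =>
    mem_span_fam.1 (by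
      rw [(hfx (κ j)).2]
      exact hvm j)
  choose c hc using hc
  obtain ⟨D, hD⟩ : ∃ D : (Fin n → ℂ) → Fin r → Fin n → ℂ,
    D = fun y j => ∑ l, c j l • E (κ j) y l := ⟨_, rfl⟩
  have hW0 : IsOpen (⋂ o, W o) := isOpen_iInter_of_finite fun o => (hW o).1
  have hDh : Hol (⋂ o, W o) D := by
    intro i j
    have h1 : (fun y => D y i j) = fun y => ∑ l, c i l * E (κ i) y l j := by
      funext y
      rw [hD]
      beta_reduce
      rw [Finset.sum_apply]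
      rfl
    rw [h1]
    exact DifferentiableOn.fun_sum fun l _ => ((hE (κ i) l j).mono (iInter_subset _ _)).const_mul _
  have hDc : ContinuousOn D (⋂ o, W o) :=
    continuousOn_pi.2 fun i => continuousOn_pi.2 fun j => (hDh i j).continuousOn
  have hDx : D (φ x) = v := by
    rw [hD]
    funext j
    exact hc j
  refine ⟨(⋂ o, W o) ∩ D ⁻¹' {g | LinearIndependent ℂ g}, D,
    hDc.isOpen_inter_preimage hW0 isOpen_setOfPred_linearIndependent,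
    fun y hy => (hW o1).2.1 (mem_iInter.1 hy.1 o1), fun y hy o => (hW o).2.2 y (mem_iInter.1 hy.1 o),
    ⟨mem_iInter.2 hxW, ?_⟩, fun i j => (hDh i j).mono inter_subset_left, fun y hy o => ?_⟩
  · rw [mem_preimage, hDx]
    exact hv
  · have hyo : ∀ o, y ∈ W o := fun o => mem_iInter.1 hy.1 o
    have hys : φ.symm y ∈ φ.source := φ.map_target ((hW o).2.1 (hyo o))
    have hli : LinearIndependent ℂ (fst (hk o) (D y)) := fst_li _ hy.2
    refine ⟨hli, Submodule.eq_of_le_of_finrank_eq ?_ ?_⟩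
    · rw [Submodule.span_le]
      rintro _ ⟨i, rfl⟩
      refine hincl (κ (Fin.castLE (hk o) i)) o (hκ' _ o i.2) _ hys ((hW _).2.2 y (hyo _))
        ((hW _).2.2 y (hyo _)) ?_
      rw [← (hf _ y (hyo _)).2]
      have h1 : fst (hk o) (D y) i = ∑ l, c (Fin.castLE (hk o) i) l •
          E (κ (Fin.castLE (hk o) i)) y l := by
        rw [hD]
        rfl
      rw [h1]
      exact Submodule.sum_mem _ fun l _ => Submodule.smul_mem _ _ (Submodule.subset_span ⟨l, rfl⟩)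
    · rw [finrank_span_eq_card hli, Fintype.card_fin, hrank (hf o y (hyo o))]

variable {M : Set X} {𝓕 : Ch n X → X → Submodule ℂ (Fin n → ℂ)} {r D : ℕ}

/-- adapted frames -/
def Adp (𝓕 : Ch n X → X → Submodule ℂ (Fin n → ℂ)) {τ : Type} {r : ℕ} {k : τ → ℕ}
    (hk : ∀ t, k t ≤ r) (Fk : τ → Ch n X → X → Submodule ℂ (Fin n → ℂ)) (φ : Ch n X) (x : X)
    (D : Fin r → Fin n → ℂ) : Prop :=
  Fr 𝓕 φ x D ∧ ∀ t, Fr (Fk t) φ x (fst (hk t) D)

section adp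

variable {τ : Type} {k : τ → ℕ} {hk : ∀ t, k t ≤ r}
    {Fk : τ → Ch n X → X → Submodule ℂ (Fin n → ℂ)} {Mk : τ → Set X}

theorem adp_rel {φ : Ch n X} {x : X} {E E' : Fin r → Fin n → ℂ} (h : Adp 𝓕 hk Fk φ x E)
    (h' : Adp 𝓕 hk Fk φ x E') : ∃ C : Matrix (Fin r) (Fin r) ℂ, C.det ≠ 0 ∧ E' = mv C E ∧
      Blk k C := by
  obtain ⟨C, hC, hE⟩ := fr_exists h.1 h'.1
  refine ⟨C, hC, hE, fun t => blk_of (hk t) h.1.1 fun i => ?_⟩
  rw [(h.2 t).2, ← (h'.2 t).2, ← hE]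
  exact Submodule.subset_span ⟨i, rfl⟩

theorem cor_det {φ : Ch n X} {x : X} {E : Fin r → Fin n → ℂ} (h : Adp 𝓕 hk Fk φ x E)
    {C : Matrix (Fin r) (Fin r) ℂ} (hC : C.det ≠ 0) (hB : Blk k C) (t : τ) :
    (cor (hk t) C).det ≠ 0 := by
  have h1 : LinearIndependent ℂ (fst (hk t) (mv C E)) := fst_li _ (fr_mv h.1 hC).1
  rw [fst_mv (hk t) (hB t)] at h1
  exact (lt_li.1 h1).2

theorem adp_mv {φ : Ch n X} {x : X} {E : Fin r → Fin n → ℂ} (h : Adp 𝓕 hk Fk φ x E)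
    {C : Matrix (Fin r) (Fin r) ℂ} (hC : C.det ≠ 0) (hB : Blk k C) :
    Adp 𝓕 hk Fk φ x (mv C E) := by
  refine ⟨fr_mv h.1 hC, fun t => ?_⟩
  rw [fst_mv (hk t) (hB t)]
  exact fr_mv (h.2 t) (cor_det h hC hB t)

theorem adp_der (hCh : S_Chart n X) (hd : IsDist M 𝓕 r) (hdk : ∀ t, IsDist (Mk t) (Fk t) (k t))
    {φ ψ : Ch n X} (hφ : φ ∈ Charts n X) (hψ : ψ ∈ Charts n X) {x : X} (hx : x ∈ φ.source)
    (hx' : x ∈ ψ.source) (hxM : x ∈ M) (hxk : ∀ t, x ∈ Mk t) {E : Fin r → Fin n → ℂ}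
    (h : Adp 𝓕 hk Fk φ x E) : Adp 𝓕 hk Fk ψ x (fun i => der id φ ψ x (E i)) :=
  ⟨fr_der hCh hd idA hφ hψ hx hxM hx' h.1,
    fun t => fr_der hCh (hdk t) idA hφ hψ hx (hxk t) hx' (h.2 t)⟩

end adp

end Pool.Agent.Helper91.CX
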