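import Pool.Agent.Helper91.CM.Adp1

/-!
Sections from functions of adapted frames, and the support condition.
-/

set_option autoImplicit false
set_option linter.unusedSectionVars false

namespace Pool.Agent.Helper91.CX

open Metric Set Topology Module
open scoped Manifold ContDiff
open Pool.Agent.Helper12.BL Pool.Agent.Helper91.HM Pool.Agent.Helper91.EF Pool.Agent.Helper91.CM
open Pool.Agent.Helper91.HM.Tw (lt lt_lt lt_one lt_li)

theorem adm_cut {r : ℕ} {a : Fin r → ℝ} (ha : Antitone a) {i j : Fin r} (h : a j < a i) :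
    ∃ κ : ℕ, 0 < κ ∧ κ < r ∧ Adm a κ ∧ (i : ℕ) < κ ∧ κ ≤ (j : ℕ) := by
  classical
  have hex : ∃ l : ℕ, ∃ hl : l < r, a ⟨l, hl⟩ < a i := ⟨j, j.2, h⟩
  obtain ⟨h1, h2⟩ := Nat.find_spec hex
  obtain ⟨κ, hκ⟩ : ∃ κ, κ = Nat.find hex := ⟨_, rfl⟩
  have hmin : ∀ l : Fin r, (l : ℕ) < κ → a i ≤ a l := fun l hl => by
    rw [hκ] at hl
    by_contra hcon
    exact Nat.find_min hex hl ⟨l.2, not_le.1 hcon⟩
  have hge : ∀ l : Fin r, κ ≤ (l : ℕ) → a l < a i := fun l hl => by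
    refine lt_of_le_of_lt (ha ?_) h2
    rw [hκ] at hl
    exact hl
  have hi : (i : ℕ) < κ := by
    by_contra hcon
    exact absurd (hge i (not_lt.1 hcon)) (lt_irrefl _)
  have hj : κ ≤ (j : ℕ) := by
    by_contra hcon
    exact absurd (hmin j (not_le.1 hcon)) (not_le.2 h)
  exact ⟨κ, by omega, by have := j.2; omega, fun l l' hl hl' =>
    lt_of_lt_of_le (hge l' hl') (hmin l hl), hi, hj⟩

variable {n : ℕ} {X : Type} [TopologicalSpace X] [ChartedSpace (Fin n → ℂ) X]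
  [IsManifold 𝓘(ℂ, Fin n → ℂ) ω X]
  {M : Set X} {𝓕 : Ch n X → X → Submodule ℂ (Fin n → ℂ)} {r D : ℕ}
  {τ : Type} {k : τ → ℕ} {hk : ∀ t, k t ≤ r}
    {Fk : τ → Ch n X → X → Submodule ℂ (Fin n → ℂ)} {Mk : τ → Set X} {a : Fin r → ℝ}

/-- optimal frames are adapted -/
theorem adp_opt (hr : 0 < r) (ha : Antitone a) (hF : Flg M 𝓕 r D a τ k hk Mk Fk) {φ : Ch n X}
    (hφ : φ ∈ Charts n X) {x : X} (hx : x ∈ φ.source) (hxG : x ∈ Good M 𝓕 r D a)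
    {g : Fin r → Fin n → ℂ} (hg : OptFr M 𝓕 r D a φ x g) : Adp 𝓕 hk Fk φ x g := by
  refine ⟨hg.1, fun t => ⟨fst_li _ hg.1.1, ?_⟩⟩
  rw [hF.eqn t φ hφ x hx hxG, mem_eqn hr hφ hx (good_sub hxG) ha (hk t) (hF.adm t) hg]

theorem blk_a (ha : Antitone a) (hF : Flg M 𝓕 r D a τ k hk Mk Fk) {C : Matrix (Fin r) (Fin r) ℂ}
    (hC : Blk k C) (i j : Fin r) (hij : C i j ≠ 0) : a i ≤ a j := by
  by_contra hcon
  obtain ⟨κ, h1, h2, h3, h4, h5⟩ := adm_cut ha (not_le.1 hcon)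
  obtain ⟨t, rfl⟩ := hF.all κ h1 h2 h3
  have := hC t i j hij h4
  omega

/-- the members are nested -/
theorem flg_incl (hCh : S_Chart n X) (hPull : S_Pull n X) (hCr : S_Cramer) (hr : 0 < r)
    (hd : IsDist M 𝓕 r) (ha : Antitone a)
    (hF : Flg M 𝓕 r D a τ k hk Mk Fk) {φ : Ch n X} (hφ : φ ∈ Charts n X) (t t' : τ)
    (htt : k t ≤ k t') {x : X} (hx : x ∈ φ.source) (hxt : x ∈ Mk t) (hxt' : x ∈ Mk t') :
    Fk t φ x ≤ Fk t' φ x := by
  refine incl hCr (hF.dist t) (hF.dist t') (fun y hy => hF.dense (hF.sub t hy.1)) hφ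
    (fun y hy hyG => ?_) hx hxt hxt'
  obtain ⟨W, g, hW, hyW, hg, hopt⟩ := good_frame' hCh hPull hd hyG hφ hy
  have h1 := hopt _ hyW
  rw [φ.left_inv hy] at h1
  rw [hF.eqn t φ hφ y hy hyG, hF.eqn t' φ hφ y hy hyG,
    mem_eqn hr hφ hy (good_sub hyG) ha (hk t) (hF.adm t) h1,
    mem_eqn hr hφ hy (good_sub hyG) ha (hk t') (hF.adm t') h1]
  refine Submodule.span_mono ?_
  rintro _ ⟨i, rfl⟩
  exact ⟨Fin.castLE htt i, rfl⟩

theorem flg_incl' (hCh : S_Chart n X) (hPull : S_Pull n X) (hCr : S_Cramer) (hr : 0 < r)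
    (hd : IsDist M 𝓕 r) (ha : Antitone a)
    (hF : Flg M 𝓕 r D a τ k hk Mk Fk) {φ : Ch n X} (hφ : φ ∈ Charts n X) (t : τ)
    {x : X} (hx : x ∈ φ.source) (hxt : x ∈ Mk t) : Fk t φ x ≤ 𝓕 φ x := by
  refine incl hCr (hF.dist t) hd (fun y hy => hF.dense hy.2) hφ
    (fun y hy hyG => ?_) hx hxt (hF.sub t hxt)
  obtain ⟨W, g, hW, hyW, hg, hopt⟩ := good_frame' hCh hPull hd hyG hφ hy
  have h1 := hopt _ hyW
  rw [φ.left_inv hy] at h1
  rw [hF.eqn t φ hφ y hy hyG, mem_eqn hr hφ hy (good_sub hyG) ha (hk t) (hF.adm t) h1, ← h1.1.2]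
  refine Submodule.span_mono ?_
  rintro _ ⟨i, rfl⟩
  exact ⟨Fin.castLE (hk t) i, rfl⟩

/-- local adapted frames -/
theorem adp_local [Finite τ] (hCh : S_Chart n X) (hPull : S_Pull n X) (hCr : S_Cramer)
    (hr : 0 < r) (hd : IsDist M 𝓕 r) (ha : Antitone a)
    (hF : Flg M 𝓕 r D a τ k hk Mk Fk) {φ : Ch n X} (hφ : φ ∈ Charts n X) {x : X}
    (hx : x ∈ φ.source) (hxM : x ∈ M ∩ ⋂ t, Mk t) :
    ∃ (W : Set (Fin n → ℂ)) (E : (Fin n → ℂ) → Fin r → Fin n → ℂ), Dom φ (M ∩ ⋂ t, Mk t) W ∧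
      φ x ∈ W ∧ Hol W E ∧ ∀ y ∈ W, Adp 𝓕 hk Fk φ (φ.symm y) (E y) := by
  obtain ⟨W, E, h1, h2, h3, h4, h5, h6⟩ := adp_exists (σ := Option τ) (r := r)
    (k := fun o => o.elim r k) (fun o => by
      cases o with
      | none => exact le_rfl
      | some t => exact hk t) ⟨none, rfl⟩ (Mk := fun o => o.elim M Mk)
    (Fk := fun o => o.elim 𝓕 Fk) (fun o => by
      cases o with
      | none => exact hd
      | some t => exact hF.dist t) hφ (fun o o' hoo y hy hyo hyo' => by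
      cases o with
      | none =>
        cases o' with
        | none => exact le_rfl
        | some t' => exact absurd hoo (not_le.2 (hF.ltr t'))
      | some t =>
        cases o' with
        | none => exact flg_incl' hCh hPull hCr hr hd ha hF hφ t hy hyo
        | some t' => exact flg_incl hCh hPull hCr hr hd ha hF hφ t t' hoo hy hyo hyo') hx
      (fun o => by
      cases o with
      | none => exact hxM.1
      | some t => exact mem_iInter.1 hxM.2 t)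
  refine ⟨W, E, ⟨h1, h2, fun y hy => ⟨h3 y hy none, mem_iInter.2 fun t => h3 y hy (some t)⟩⟩, h4, h5,
    fun y hy => ⟨h6 y hy none, fun t => h6 y hy (some t)⟩⟩

/-- an adapted frame at a point is a value of a holomorphic adapted frame -/
theorem adp_through [Finite τ] (hCh : S_Chart n X) (hPull : S_Pull n X) (hCr : S_Cramer)
    (hr : 0 < r) (hd : IsDist M 𝓕 r) (ha : Antitone a)
    (hF : Flg M 𝓕 r D a τ k hk Mk Fk) {φ : Ch n X} (hφ : φ ∈ Charts n X) {x : X}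
    (hx : x ∈ φ.source) (hxM : x ∈ M ∩ ⋂ t, Mk t) {E0 : Fin r → Fin n → ℂ}
    (hE0 : Adp 𝓕 hk Fk φ x E0) :
    ∃ (W : Set (Fin n → ℂ)) (E : (Fin n → ℂ) → Fin r → Fin n → ℂ), Dom φ (M ∩ ⋂ t, Mk t) W ∧
      φ x ∈ W ∧ Hol W E ∧ (∀ y ∈ W, Adp 𝓕 hk Fk φ (φ.symm y) (E y)) ∧ E (φ x) = E0 := by
  obtain ⟨W, E, h1, h2, h3, h4⟩ := adp_local hCh hPull hCr hr hd ha hF hφ hx hxM
  have h5 := h4 _ h2
  rw [φ.left_inv hx] at h5
  obtain ⟨C, hC, hE, hB⟩ := adp_rel h5 hE0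
  exact ⟨W, fun y => mv C (E y), h1, h2, hol_mv (h := fun _ => C) h3
    (fun i j => differentiableOn_const _), fun y hy => adp_mv (h4 y hy) hC hB, hE.symm⟩

theorem dense_dom (φ : Ch n X) {G M' : Set X} (hG : M' ⊆ closure G) {W : Set (Fin n → ℂ)}
    (hW : Dom φ M' W) : W ⊆ closure (W ∩ φ.symm ⁻¹' G) := by
  intro y hy
  rw [_root_.mem_closure_iff]
  intro U hU hyU
  have hO : IsOpen (φ.source ∩ φ ⁻¹' (U ∩ W)) := φ.isOpen_inter_preimage (hU.inter hW.1)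
  obtain ⟨z, hz, hzG⟩ := _root_.mem_closure_iff.1 (hG (hW.2.2 y hy)) _ hO
    ⟨φ.map_target (hW.2.1 hy), by
      rw [mem_preimage, φ.right_inv (hW.2.1 hy)]
      exact ⟨hyU, hy⟩⟩
  refine ⟨φ z, hz.2.1, hz.2.2, ?_⟩
  rw [mem_preimage, φ.left_inv hz.1]
  exact hzG

theorem zero_of_dense {W Z : Set (Fin n → ℂ)} (hW : IsOpen W) {f : (Fin n → ℂ) → ℂ}
    (hf : ContinuousOn f W) {y : Fin n → ℂ} (hy : y ∈ W) (hZ : y ∈ closure Z)
    (h0 : ∀ z ∈ Z, f z = 0) : f y = 0 := by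
  by_contra hne
  have h1 : ∀ᶠ z in 𝓝 y, f z ≠ 0 := (hf.continuousAt (hW.mem_nhds hy)).eventually_ne hne
  obtain ⟨z, hz, hz'⟩ := ((mem_closure_iff_frequently.1 hZ).and_eventually h1).exists
  exact hz' (h0 z hz)

/-- the support condition -/
theorem adp_supp [Finite τ] (hCh : S_Chart n X) (hPull : S_Pull n X) (hCr : S_Cramer)
    (hr : 0 < r) (hd : IsDist M 𝓕 r) (ha : Antitone a)
    (hF : Flg M 𝓕 r D a τ k hk Mk Fk) {φ : Ch n X} (hφ : φ ∈ Charts n X) {x : X}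
    (hx : x ∈ φ.source) (hxM : x ∈ M ∩ ⋂ t, Mk t) {E0 : Fin r → Fin n → ℂ}
    (hE0 : Adp 𝓕 hk Fk φ x E0) (i : Ti M 𝓕 r D) (J : Fin (deg i) → Fin r)
    (hJ : ¬ ∑ l, a (J l) ≤ -1) : TT φ x E0 i J = 0 := by
  obtain ⟨W, E, h1, h2, h3, h4, h5⟩ := adp_through hCh hPull hCr hr hd ha hF hφ hx hxM hE0
  have hWM : Dom φ M W := ⟨h1.1, h1.2.1, fun y hy => (h1.2.2 y hy).1⟩
  have h6 := TT_hol hφ hWM h3 (fun y hy => (h4 y hy).1) i J
  have h7 := zero_of_dense (Z := W ∩ φ.symm ⁻¹' Good M 𝓕 r D a) h1.1 h6.continuousOn h2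
    (dense_dom φ hF.dense hWM h2) (by
      rintro y ⟨hy, hyG⟩
      have hys : φ.symm y ∈ φ.source := φ.map_target (h1.2.1 hy)
      obtain ⟨W', g, hW', hyW', hg, hopt⟩ := good_frame' hCh hPull hd hyG hφ hys
      have h8 := hopt _ hyW'
      rw [φ.left_inv hys] at h8
      obtain ⟨C, hC, hE, hB⟩ := adp_rel (adp_opt hr ha hF hφ hys hyG h8) (h4 y hy)
      have h9 := opt_block h8.2 hC (blk_a ha hF hB)
      have h10 : (TT φ (φ.symm y) (E y) : ∀ i : Ti M 𝓕 r D, (Fin (deg i) → Fin r) → ℂ) =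
          fun i => act C (TT φ (φ.symm y) (g (φ (φ.symm y))) i) := by
        rw [hE]
        exact funext fun i => TT_mv hφ hys (hWM.2.2 y hy) h8.1 hC i
      rw [← h10] at h9
      by_contra hne
      have h11 := (dest_famE.1 h9.1).2.2 i J (by
        simp only [RingHom.id_apply]
        change act (1 : Matrix (Fin r) (Fin r) ℂ) (TT φ (φ.symm y) (E y) i) J ≠ 0
        rw [act_one]
        exact hne)
      exact hJ h11)
  rw [h5, φ.left_inv hx] at h7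
  exact h7

/-- **Sections from adapted frames.** -/
theorem adp_sec [Finite τ] (hCh : S_Chart n X) (hPull : S_Pull n X) (hCr : S_Cramer)
    (hr : 0 < r) (hd : IsDist M 𝓕 r) (ha : Antitone a)
    (hF : Flg M 𝓕 r D a τ k hk Mk Fk) (W0 : ℕ) (Gf : Ch n X → X → (Fin r → Fin n → ℂ) → ℂ)
    (hlaw : ∀ φ ∈ Charts n X, ∀ x ∈ φ.source, x ∈ M ∩ ⋂ t, Mk t → ∀ E, Adp 𝓕 hk Fk φ x E →
      ∀ C : Matrix (Fin r) (Fin r) ℂ, C.det ≠ 0 → Blk k C →
        Gf φ x (mv C E) = C.det ^ W0 * Gf φ x E)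
    (hnat : ∀ φ ∈ Charts n X, ∀ ψ ∈ Charts n X, ∀ x ∈ φ.source, x ∈ ψ.source →
      x ∈ M ∩ ⋂ t, Mk t → ∀ E, Adp 𝓕 hk Fk φ x E →
        Gf ψ x (fun i => der id φ ψ x (E i)) = Gf φ x E)
    (hhol : ∀ φ ∈ Charts n X, ∀ (W : Set (Fin n → ℂ)) (E : (Fin n → ℂ) → Fin r → Fin n → ℂ),
      Dom φ (M ∩ ⋂ t, Mk t) W → Hol W E → (∀ y ∈ W, Adp 𝓕 hk Fk φ (φ.symm y) (E y)) →
        DifferentiableOn ℂ (fun y => Gf φ (φ.symm y) (E y)) W) :
    ∃ s : Ch n X → X → (Fin r → Fin n → ℂ) → Unit → ℂ,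
      IsSec (formL r W0) (M ∩ ⋂ t, Mk t) 𝓕 s ∧ ∀ φ ∈ Charts n X, ∀ x ∈ φ.source,
        x ∈ M ∩ ⋂ t, Mk t → ∀ E, Adp 𝓕 hk Fk φ x E → s φ x E () = Gf φ x E := by
  classical
  let s : Ch n X → X → (Fin r → Fin n → ℂ) → Unit → ℂ := fun φ x e _ =>
    if h : ∃ z : ℂ, ∃ E, ∃ C : Matrix (Fin r) (Fin r) ℂ, Adp 𝓕 hk Fk φ x E ∧ C.det ≠ 0 ∧
      e = mv C E ∧ z = C.det ^ W0 * Gf φ x E then h.choose else 0
  have key : ∀ φ ∈ Charts n X, ∀ x ∈ φ.source, x ∈ M ∩ ⋂ t, Mk t → ∀ E, Adp 𝓕 hk Fk φ x E →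
      ∀ C : Matrix (Fin r) (Fin r) ℂ, C.det ≠ 0 → s φ x (mv C E) () = C.det ^ W0 * Gf φ x E := by
    intro φ hφ x hx hxM E hE C hC
    have h : ∃ z : ℂ, ∃ E', ∃ C' : Matrix (Fin r) (Fin r) ℂ, Adp 𝓕 hk Fk φ x E' ∧ C'.det ≠ 0 ∧
        mv C E = mv C' E' ∧ z = C'.det ^ W0 * Gf φ x E' := ⟨_, E, C, hE, hC, rfl, rfl⟩
    have h1 : s φ x (mv C E) () = h.choose := dif_pos h
    obtain ⟨E', C', hE', hC', h2, h3⟩ := h.choose_spec
    rw [h1, h3]
    obtain ⟨B, hB, hEE, hBB⟩ := adp_rel hE hE'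
    rw [hEE, mv_mv] at h2
    rw [mv_inj hE.1.1 h2, hEE, hlaw φ hφ x hx hxM E hE B hB hBB, Matrix.det_mul, mul_pow, mul_assoc]
  have key1 : ∀ φ ∈ Charts n X, ∀ x ∈ φ.source, x ∈ M ∩ ⋂ t, Mk t → ∀ e, Fr 𝓕 φ x e →
      ∃ E, Adp 𝓕 hk Fk φ x E ∧ ∃ C : Matrix (Fin r) (Fin r) ℂ, C.det ≠ 0 ∧ e = mv C E := by
    intro φ hφ x hx hxM e he
    obtain ⟨W, E, h1, h2, h3, h4⟩ := adp_local hCh hPull hCr hr hd ha hF hφ hx hxM
    have h5 := h4 _ h2
    rw [φ.left_inv hx] at h5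
    obtain ⟨C, hC, heC⟩ := fr_exists h5.1 he
    exact ⟨_, h5, C, hC, heC⟩
  refine ⟨s, ⟨fun φ hφ x hx hxM e he C hC J => ?_, fun φ hφ ψ hψ x hx hx' hxM e he => ?_,
    fun φ hφ W e hW he hf I => ?_⟩, fun φ hφ x hx hxM E hE => ?_⟩
  · obtain ⟨E, hE, B, hB, rfl⟩ := key1 φ hφ x hx hxM e he
    have h2 : ∑ I : Unit, C.det ^ W0 * s φ x (mv B E) I = C.det ^ W0 * s φ x (mv B E) () :=
      Fintype.sum_unique _
    change s φ x (mv C (mv B E)) () = ∑ I : Unit, C.det ^ W0 * s φ x (mv B E) I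
    rw [h2, mv_mv, key φ hφ x hx hxM E hE _ (by
      rw [Matrix.det_mul]
      exact mul_ne_zero hC hB), key φ hφ x hx hxM E hE B hB, Matrix.det_mul, mul_pow, mul_assoc]
  · obtain ⟨E, hE, B, hB, rfl⟩ := key1 φ hφ x hx hxM e he
    funext _
    have hE' := adp_der hCh hd hF.dist hφ hψ hx hx' hxM.1 (fun t => mem_iInter.1 hxM.2 t) hE
    change s ψ x _ () = s φ x (mv B E) ()
    rw [mv_map, key ψ hψ x hx' hxM _ hE' B hB, key φ hφ x hx hxM E hE B hB,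
      hnat φ hφ ψ hψ x hx hx' hxM E hE]
  · intro y0 hy0
    have hy0s : φ.symm y0 ∈ φ.source := φ.map_target (hW.2.1 hy0)
    have hr0 : φ (φ.symm y0) = y0 := φ.right_inv (hW.2.1 hy0)
    obtain ⟨W1, E, h1, h2, h3, h4⟩ := adp_local hCh hPull hCr hr hd ha hF hφ hy0s
      (hW.2.2 y0 hy0)
    rw [hr0] at h2
    have h5 := fun i => hCr n n r (W ∩ W1) (W ∩ W1) y0 E (fun y => e y i) (hW.1.inter h1.1)
      ⟨hy0, h2⟩ (fun i j => (h3 i j).mono inter_subset_right)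
      (differentiableOn_pi.2 fun j => (he i j).mono inter_subset_left) (h4 y0 h2).1.1
      subset_closure Subset.rfl fun y hy => by
        rw [(h4 y hy.2).1.2, ← (hf y hy.1).2]
        exact Submodule.subset_span ⟨i, rfl⟩
    choose W' c h6 h7 h8 h9 _ h10 using h5
    have hWo : IsOpen (W1 ∩ W ∩ ⋂ i, W' i) :=
      (h1.1.inter hW.1).inter (isOpen_iInter_of_finite h6)
    have h11 : ∀ y ∈ W1 ∩ W ∩ ⋂ i, W' i, s φ (φ.symm y) (e y) () =
        (Matrix.of fun i j => c i y j).det ^ W0 * Gf φ (φ.symm y) (E y) := by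
      intro y hy
      have h12 : e y = mv (Matrix.of fun i j => c i y j) (E y) :=
        funext fun i => h10 i y (mem_iInter.1 hy.2 i)
      have h13 : (Matrix.of fun i j => c i y j).det ≠ 0 := by
        have h14 := (hf y hy.1.2).1
        rw [h12] at h14
        exact (lt_li.1 h14).2
      have h15 := key φ hφ (φ.symm y) (φ.map_target (hW.2.1 hy.1.2)) (h1.2.2 y hy.1.1) (E y)
        (h4 y hy.1.1) _ h13
      rw [← h12] at h15
      exact h15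
    have h12 : DifferentiableOn ℂ (fun y => (Matrix.of fun i j => c i y j).det ^ W0 *
        Gf φ (φ.symm y) (E y)) (W1 ∩ W ∩ ⋂ i, W' i) := by
      refine DifferentiableOn.mul ((ddet fun i j => (h9 i j).mono fun y hy =>
        mem_iInter.1 hy.2 i).pow _) ?_
      exact (hhol φ hφ W1 E h1 h3 h4).mono fun y hy => hy.1.1
    have h13 := (h12.congr h11).differentiableAt (hWo.mem_nhds ⟨⟨h2, hy0⟩, mem_iInter.2 h7⟩)
    exact h13.differentiableWithinAt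
  · have h1 := key φ hφ x hx hxM E hE 1 (by
      rw [Matrix.det_one]
      exact one_ne_zero)
    have h2 : mv (1 : Matrix (Fin r) (Fin r) ℂ) E = E := lt_one E
    rw [h2, Matrix.det_one, one_pow, one_mul] at h1
    exact h1

end Pool.Agent.Helper91.CX
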