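import Pool.Agent.Helper23.CX.Brk2
import Pool.Agent.Helper91.CX.Stm3

/-!
Brackets do not create tensors of bounded degree (after the file of Helper23).
-/

set_option autoImplicit false
set_option linter.unusedSectionVars false

namespace Pool.Agent.Helper91.CX

open Pool.Agent.Helper23.CX Metric Set Topology Pool.Agent.Helper91.CX
open scoped Manifold ContDiff

variable {n : ℕ} {X : Type} [TopologicalSpace X] [ChartedSpace (Fin n → ℂ) X]

/-- a tensor over `M'` on a distribution over `M` without tensors vanishes -/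
theorem baseB {B0 : ℕ} {κ : Type} [Fintype κ] [DecidableEq κ] [Nonempty κ] {M M' : Set X}
    {𝓕 𝓕' : Ch n X → X → Submodule ℂ (Fin n → ℂ)} {r : ℕ} (hSE : S_SecExt n X)
    (hF : IsDist M 𝓕 r) (hM'o : IsOpen M') (hM' : M' ⊆ M) (hMc : M ⊆ closure M')
    (hRem : Rem n M' M) (hno : ∀ N, 0 < N → N ≤ B0 → NoSec (tenL r N) M 𝓕) (hκ0 : Fintype.card κ ≤ B0)
    (T : Ch n X → X → (κ → Fin n → ℂ) → ℂ) (hT : MT ∅ M' 𝓕 𝓕' T) {φ : Ch n X}
    (hφ : φ ∈ Charts n X) {x : X} (hx : x ∈ φ.source) (hxM : x ∈ M') (w : κ → Fin n → ℂ)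
    (hw : ∀ k, w k ∈ 𝓕 φ x) : T φ x w = 0 := by
  have hSl : ∀ k : κ, Sl ∅ 𝓕 𝓕' k = 𝓕 := fun k => by simp [Sl]
  let ε : κ ≃ Fin (Fintype.card κ) := Fintype.equivFin κ
  let s : Ch n X → X → (Fin r → Fin n → ℂ) → (tenL r (Fintype.card κ)).Ix → ℂ :=
    fun φ x e J => T φ x (fun k => e (J (ε k)))
  have hmem : ∀ {φ : Ch n X} {x : X} {e : Fin r → Fin n → ℂ}, Fr 𝓕 φ x e → ∀ i, e i ∈ 𝓕 φ x := by
    intro φ x e he i
    rw [← he.2]; exact Submodule.subset_span ⟨i, rfl⟩
  have hs : IsSec (tenL r (Fintype.card κ)) M' 𝓕 s := by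
    refine ⟨?_, ?_, ?_⟩
    · intro φ hφ x hx hxM e he C _ J
      have h1 := expand hT hφ hx hxM (α := Fin r) (fun k a => e a)
        (fun k a => by rw [hSl]; exact hmem he a) (fun k a => C (J (ε k)) a)
      change T φ x (fun k => ∑ j, C (J (ε k)) j • e j) = ∑ I : Fin (Fintype.card κ) → Fin r,
        (∏ k, C (J k) (I k)) * T φ x (fun k => e (I (ε k)))
      rw [h1]
      refine Fintype.sum_equiv (Equiv.arrowCongr ε (Equiv.refl (Fin r))) _ _ fun I => ?_
      congr 1
      · refine Fintype.prod_equiv ε _ _ fun k => ?_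
        simp [Equiv.arrowCongr]
      · congr 1
        funext k
        simp [Equiv.arrowCongr]
    · intro φ hφ ψ hψ x hx hx' hxM e he
      funext J
      exact hT.nat φ hφ ψ hψ x hx hx' hxM (fun k => e (J (ε k)))
        (fun k => by rw [hSl]; exact hmem he _)
    · intro φ hφ W e hD hH hFr J
      refine hT.hol φ hφ W (fun y k => e y (J (ε k))) hD ?_ ?_
      · intro k
        exact differentiableOn_pi.mpr fun j => hH _ j
      · intro y hy k
        rw [hSl]; exact hmem (hFr y hy) _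
  obtain ⟨s', hs', hss'⟩ := hSE M M' 𝓕 r _ s hF hM'o hM' hMc hRem hs
  obtain ⟨W, e, hD, hxW, hH, hFr⟩ := hF.frame φ hφ x hx (hM' hxM)
  have he : Fr 𝓕 φ x (e (φ x)) := by
    have := hFr _ hxW
    rwa [φ.left_inv hx] at this
  have hzero : ∀ J, s φ x (e (φ x)) J = 0 := by
    intro J
    rw [← hss' φ hφ x hx hxM _ he]
    exact hno _ Fintype.card_pos hκ0 s' hs' φ hφ x hx (hM' hxM) _ he J
  have hex : ∀ k, ∃ c : Fin r → ℂ, ∑ i, c i • e (φ x) i = w k := by
    intro k
    have := hw k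
    rw [← he.2] at this
    exact (Submodule.mem_span_range_iff_exists_fun ℂ).mp this
  choose c hc using hex
  have h1 := expand hT hφ hx hxM (α := Fin r) (fun k a => e (φ x) a)
    (fun k a => by rw [hSl]; exact hmem he a) c
  simp only [hc] at h1
  change T φ x w = _ at h1
  rw [h1]
  refine Finset.sum_eq_zero fun I _ => ?_
  have h2 := hzero (fun j => I (ε.symm j))
  change T φ x (fun k => e (φ x) (I (ε.symm (ε k)))) = 0 at h2
  simp only [Equiv.symm_apply_apply] at h2
  rw [h2, mul_zero]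

theorem vanishB {B0 : ℕ} {M M' G : Set X} {𝓕 𝓕' : Ch n X → X → Submodule ℂ (Fin n → ℂ)} {r r' : ℕ}
    (hCr : S_Cramer) (hCh : S_Chart n X) (hDer : S_Der) (hSE : S_SecExt n X)
    (hF : IsDist M 𝓕 r) (hF' : IsDist M' 𝓕' r') (hM' : M' ⊆ M) (hMc : M ⊆ closure M')
    (hRem : Rem n M' M) (hB : BrkOf M' G 𝓕 𝓕') (hno : ∀ N, 0 < N → N ≤ B0 → NoSec (tenL r N) M 𝓕) :
    ∀ (d : ℕ) (κ : Type) (_ : Fintype κ) (_ : DecidableEq κ) (_ : Nonempty κ) (S : Finset κ),
      S.card = d → Fintype.card κ + d ≤ B0 → ∀ T : Ch n X → X → (κ → Fin n → ℂ) → ℂ, MT S M' 𝓕 𝓕' T →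
      ∀ φ ∈ Charts n X, ∀ x ∈ φ.source, x ∈ M' → ∀ w : κ → Fin n → ℂ,
        (∀ k, w k ∈ Sl S 𝓕 𝓕' k φ x) → T φ x w = 0 := by
  obtain ⟨hle, hbr, hGo, hGM, hMG, hspan⟩ := hB
  have hFr' : IsDist M' 𝓕 r := restrict_dist hF hF' hM'
  intro d
  induction d with
  | zero =>
    intro κ _ _ _ S hS hκB T hT φ hφ x hx hxM w hw
    rw [Finset.card_eq_zero] at hS
    subst hS
    refine baseB hSE hF hF'.isOpen hM' hMc hRem hno (by omega) T hT hφ hx hxM w fun k => ?_
    have := hw k
    rwa [Sl_not (by simp)] at this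
  | succ d ih =>
    intro κ _ _ _ S hS hκB T hT φ hφ x hx hxM w hw
    obtain ⟨k₀, hk₀⟩ : S.Nonempty := by
      rw [← Finset.card_pos]; omega
    have hSk : Sl S 𝓕 𝓕' k₀ = 𝓕' := Sl_mem hk₀
    have hce : (S.erase k₀).card = d := by rw [Finset.card_erase_of_mem hk₀]; omega
    have hkill : ∀ φ ∈ Charts n X, ∀ x ∈ φ.source, x ∈ M' → ∀ w : κ → Fin n → ℂ,
        (∀ k, w k ∈ Sl S 𝓕 𝓕' k φ x) → w k₀ ∈ 𝓕 φ x → T φ x w = 0 := by
      intro φ hφ x hx hxM w hw hw0
      refine ih κ _ _ inferInstance (S.erase k₀) hce (by omega) T (restrict hle k₀ hT) φ hφ x hx hxM w ?_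
      intro k
      by_cases hk : k = k₀
      · subst hk
        rw [Sl_not (by simp)]; exact hw0
      · have := hw k
        by_cases h : k ∈ S
        · rw [Sl_mem h] at this
          rwa [Sl_mem (Finset.mem_erase.mpr ⟨hk, h⟩)]
        · rw [Sl_not h] at this
          rwa [Sl_not (fun h' => h (Finset.mem_of_mem_erase h'))]
    have hTB := ih (Option κ) inferInstance inferInstance inferInstance
      ((S.erase k₀).map Function.Embedding.some) (by rw [Finset.card_map, hce])
      (by rw [Fintype.card_option]; omega) _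
      (mt_TB hCr hCh hDer hFr' hF' hle hbr hT hk₀ hkill)
    have hbrk : ∀ φ ∈ Charts n X, ∀ x ∈ φ.source, x ∈ M' → ∀ w : κ → Fin n → ℂ,
        (∀ k, w k ∈ Sl S 𝓕 𝓕' k φ x) → ∀ u v, TanAt M' 𝓕 φ x u → TanAt M' 𝓕 φ x v →
        brk u v (φ x) ∈ 𝓕' φ x ∧ T φ x (Function.update w k₀ (brk u v (φ x))) = 0 := by
      intro φ hφ x hx hxM w hw u v hu hv
      have hval : ∀ {u}, TanAt M' 𝓕 φ x u → u (φ x) ∈ 𝓕 φ x := by
        rintro u ⟨W, hW, hxW⟩
        have := hW.2.2 _ hxW
        rwa [φ.left_inv hx] at this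
      have hm : brk u v (φ x) ∈ 𝓕' φ x := by
        obtain ⟨W1, hW1, hx1⟩ := hu
        obtain ⟨W2, hW2, hx2⟩ := hv
        have h := hbr φ hφ (W1 ∩ W2) _ _ (Tan.mono hW1 (hW1.1.1.inter hW2.1.1) inter_subset_left)
          (Tan.mono hW2 (hW1.1.1.inter hW2.1.1) inter_subset_right) (φ x) ⟨hx1, hx2⟩
        rwa [φ.left_inv hx] at h
      refine ⟨hm, ?_⟩
      rw [← T_congr hle hT hk₀ hkill hφ hx hxM hw hm
        (bb_eq hCr hFr' hφ hx hxM hu hv (hval hu) (hval hv))]
      have h1 := hTB φ hφ x hx hxM (fun o => Option.casesOn o (v (φ x))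
        (fun k => if k = k₀ then u (φ x) else w k)) (by
          intro o
          cases o with
          | none => rw [Sl_none]; exact hval hv
          | some k =>
            rw [Sl_some]
            by_cases hk : k = k₀
            · subst hk
              simp only [if_true]
              rw [Sl_not (by simp)]; exact hval hu
            · simp only [if_neg hk]
              have := hw k
              by_cases h : k ∈ S
              · rw [Sl_mem h] at this
                rwa [Sl_mem (Finset.mem_erase.mpr ⟨hk, h⟩)]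
              · rw [Sl_not h] at this
                rwa [Sl_not (fun h' => h (Finset.mem_of_mem_erase h'))])
      unfold TB at h1
      simp only [if_true] at h1
      rw [← h1]
      congr 1
      funext k
      by_cases hk : k = k₀
      · subst hk; simp
      · rw [Function.update_of_ne hk, Function.update_of_ne hk, if_neg hk]
    -- vanishing on `G`
    have hG : ∀ φ ∈ Charts n X, ∀ x ∈ φ.source, x ∈ G → ∀ w : κ → Fin n → ℂ,
        (∀ k, w k ∈ Sl S 𝓕 𝓕' k φ x) → T φ x w = 0 := by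
      intro φ hφ x hx hxG w hw
      have hxM := hGM hxG
      have hw0 : w k₀ ∈ 𝓕' φ x := by have := hw k₀; rwa [hSk] at this
      have key : ∀ v ∈ Submodule.span ℂ ({w | w ∈ 𝓕 φ x} ∪ {w | ∃ W u v, Tan M' 𝓕 φ W u ∧
          Tan M' 𝓕 φ W v ∧ φ x ∈ W ∧ w = brk u v (φ x)}),
          v ∈ 𝓕' φ x ∧ T φ x (Function.update w k₀ v) = 0 := by
        intro v hv
        induction hv using Submodule.span_induction with
        | mem v hv =>
          rcases hv with hv | ⟨W, u, v', hu, hv', hxW, rfl⟩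
          · refine ⟨hle φ hφ x hx hxM hv, hkill φ hφ x hx hxM _ ?_ ?_⟩
            · intro k
              by_cases hk : k = k₀
              · subst hk; rw [Function.update_self, hSk]; exact hle φ hφ x hx hxM hv
              · rw [Function.update_of_ne hk]; exact hw k
            · rw [Function.update_self]; exact hv
          · exact hbrk φ hφ x hx hxM w hw u v' ⟨W, hu, hxW⟩ ⟨W, hv', hxW⟩
        | zero =>
          refine ⟨Submodule.zero_mem _, ?_⟩
          have h1 := hT.smul φ hφ x hx hxM w hw k₀ 0 (Submodule.zero_mem _) 0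
          rwa [zero_smul, zero_mul] at h1
        | add v v' _ _ h h' =>
          refine ⟨Submodule.add_mem _ h.1 h'.1, ?_⟩
          rw [hT.add φ hφ x hx hxM w hw k₀ v (by rw [hSk]; exact h.1) v' (by rw [hSk]; exact h'.1),
            h.2, h'.2, add_zero]
        | smul c v _ h =>
          refine ⟨Submodule.smul_mem _ c h.1, ?_⟩
          rw [hT.smul φ hφ x hx hxM w hw k₀ v (by rw [hSk]; exact h.1) c, h.2, mul_zero]
      have := (key (w k₀) (hspan φ hφ x hx hxG hw0)).2
      rwa [Function.update_eq_self] at this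
    -- continuity
    have hSd : ∀ k, ∃ ρ, IsDist M' (Sl S 𝓕 𝓕' k) ρ := by
      intro k
      by_cases h : k ∈ S
      · rw [Sl_mem h]; exact ⟨r', hF'⟩
      · rw [Sl_not h]; exact ⟨r, hFr'⟩
    have hex : ∀ k, ∃ u, TanAt M' (Sl S 𝓕 𝓕' k) φ x u ∧ u (φ x) = w k := by
      intro k
      obtain ⟨ρ, hρ⟩ := hSd k
      exact ext_vec hρ hφ hx hxM (hw k)
    choose u hu hux using hex
    choose W hW hxW using hu
    have hWo : IsOpen (⋂ k, W k) := isOpen_iInter_of_finite fun k => (hW k).1.1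
    have hDW : Dom φ M' (⋂ k, W k) :=
      Dom.mono_left (hW (Classical.arbitrary κ)).1 hWo (iInter_subset _ _)
    have hhol := hT.hol φ hφ (⋂ k, W k) (fun y k => u k y) hDW
      (fun k => (hW k).2.1.mono (iInter_subset _ _))
      (fun y hy k => (hW k).2.2 y (mem_iInter.mp hy k))
    have hxI : φ x ∈ ⋂ k, W k := mem_iInter.mpr hxW
    have hcont := (hhol.differentiableAt (hWo.mem_nhds hxI)).continuousAt
    have hTx : T φ x w = (fun y => T φ (φ.symm y) (fun k => u k y)) (φ x) := by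
      simp only
      rw [φ.left_inv hx]
      congr 1
      funext k
      exact (hux k).symm
    by_contra hne
    rw [hTx] at hne
    have h1 : ∀ᶠ y in 𝓝 (φ x), (fun y => T φ (φ.symm y) (fun k => u k y)) y ≠ 0 ∧ y ∈ ⋂ k, W k :=
      (hcont.eventually_ne hne).and (hWo.mem_nhds hxI)
    have h2 := (φ.continuousAt hx).eventually h1
    have h3 : ∃ᶠ x' in 𝓝 x, x' ∈ G := mem_closure_iff_frequently.mp (hMG hxM)
    obtain ⟨x', hx'G, ⟨h4, h5⟩, h6⟩ := (h3.and_eventually
      (h2.and (φ.open_source.mem_nhds hx))).exists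
    apply h4
    simp only
    rw [φ.left_inv h6]
    refine hG φ hφ x' h6 hx'G _ fun k => ?_
    have := (hW k).2.2 _ (mem_iInter.mp h5 k)
    rwa [φ.left_inv h6] at this

variable [IsManifold 𝓘(ℂ, Fin n → ℂ) ω X] in
theorem brk2B (hCr : S_Cramer) (hCh : S_Chart n X) (hDer : S_Der) (hSE : S_SecExt n X) :
    S_Brk2B n X := by
  intro M M' G 𝓕 𝓕' r r' B hF hF' hM' hMc hRem hB hno N hN hNB s hs φ hφ x hx hxM e he I
  have : Nonempty (Fin N) := ⟨⟨0, hN⟩⟩
  have hT := mt_T0 hCr hCh 𝓕 hF' hs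
  have hem : ∀ i, e i ∈ 𝓕' φ x := fun i => by rw [← he.2]; exact Submodule.subset_span ⟨i, rfl⟩
  have h1 := vanishB hCr hCh hDer hSE hF hF' hM' hMc hRem hB hno _ (Fin N) inferInstance
    inferInstance inferInstance Finset.univ rfl (by
      rw [Finset.card_univ, Fintype.card_fin]
      omega) _ hT φ hφ x hx hxM (fun k => e (I k))
    (fun k => by rw [Sl_mem (Finset.mem_univ k)]; exact hem _)
  have h0 := T0_eq hF' hs hφ hx hxM he (w := fun k => e ((I : Fin N → Fin r') k))
    (fun k => hem _)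
  have h1' := h0.symm.trans h1
  have hco : ∀ i j, co e (e i) j = if i = j then 1 else 0 := by
    intro i j
    have h2 : co e (e i) = fun j => if i = j then 1 else 0 := by
      apply co_unique he.1
      simp
    rw [h2]
  exact (delta_sum (I : Fin N → Fin r') (fun J => s φ x e J) (fun i j => co e (e i) j)
    hco).symm.trans h1'

end Pool.Agent.Helper91.CX
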