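import Pool.Agent.Helper91.CM.GenF
import Pool.Agent.Helper91.FE.Main

/-!
Optimal coordinates, and the invariant of the leading parts.
-/

set_option autoImplicit false
set_option linter.unusedSectionVars false

namespace Pool.Agent.Helper91.CM

open Module Pool.Agent.Helper12.BL Pool.Agent.Helper91.HM Pool.Agent.Helper91.EF

variable {K : Type} [Field K] {n : ℕ} {ι : Type} {N : ι → ℕ}

/-- the standard basis with the weights `a` is an optimal destabilising flag -/
def Opt (T : ∀ i, (Fin (N i) → Fin n) → K) (a : Fin n → ℝ) : Prop :=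
  Dest (famE T (RingHom.id K)) (fun j => (1 : Matrix (Fin n) (Fin n) K) j) a ∧
    ∀ (e : Fin n → Fin n → K) (b : Fin n → ℝ), Dest (famE T (RingHom.id K)) e b →
      ∑ j, a j ^ 2 ≤ ∑ j, b j ^ 2

theorem dest_act {T : ∀ i, (Fin (N i) → Fin n) → K} {g h : Matrix (Fin n) (Fin n) K}
    (hg : g.det ≠ 0) {a : Fin n → ℝ} :
    Dest (famE (fun i => act g (T i)) (RingHom.id K)) (fun j => h j) a ↔
      Dest (famE T (RingHom.id K)) (fun j => (h * g) j) a := by
  rw [dest_famE, dest_famE]
  have h1 : (Matrix.of fun j => h j) = h := rfl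
  have h2 : (Matrix.of fun j => (h * g) j) = h * g := rfl
  rw [h1, h2, Matrix.det_mul]
  simp only [RingHom.id_apply]
  constructor
  · rintro ⟨h3, h4, h5⟩
    refine ⟨mul_ne_zero h3 hg, h4, fun i J hne => h5 i J ?_⟩
    rwa [act_mul] at hne
  · rintro ⟨h3, h4, h5⟩
    refine ⟨left_ne_zero_of_mul h3, h4, fun i J hne => h5 i J ?_⟩
    rwa [act_mul]

theorem opt_of_dest {T : ∀ i, (Fin (N i) → Fin n) → K} {g : Fin n → Fin n → K} {a : Fin n → ℝ}
    (h : Dest (famE T (RingHom.id K)) g a)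
    (hmin : ∀ (e : Fin n → Fin n → K) (b : Fin n → ℝ), Dest (famE T (RingHom.id K)) e b →
      ∑ j, a j ^ 2 ≤ ∑ j, b j ^ 2) : Opt (fun i => act (Matrix.of g) (T i)) a := by
  have hg : (Matrix.of g).det ≠ 0 := (dest_famE.1 h).1
  refine ⟨(dest_act hg).2 ?_, fun e b he => hmin _ b ((dest_act (h := Matrix.of e) hg).1 he)⟩
  rw [one_mul]
  exact h

theorem opt_iff {T : ∀ i, (Fin (N i) → Fin n) → K} {g : Matrix (Fin n) (Fin n) K}
    (hg : g.det ≠ 0) {a : Fin n → ℝ} : Opt (fun i => act g (T i)) a ↔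
      Dest (famE T (RingHom.id K)) (fun j => g j) a ∧
      ∀ (e : Fin n → Fin n → K) (b : Fin n → ℝ), Dest (famE T (RingHom.id K)) e b →
        ∑ j, a j ^ 2 ≤ ∑ j, b j ^ 2 := by
  have hu : IsUnit g.det := isUnit_iff_ne_zero.2 hg
  constructor
  · rintro ⟨h1, h2⟩
    have h3 := (dest_act (h := 1) hg).1 h1
    rw [one_mul] at h3
    refine ⟨h3, fun e b he => h2 (fun j => (Matrix.of e * g⁻¹) j) b ((dest_act hg).2 ?_)⟩
    rw [Matrix.mul_assoc, Matrix.nonsing_inv_mul _ hu, mul_one]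
    exact he
  · rintro ⟨h1, h2⟩
    exact opt_of_dest h1 h2

theorem mem_flag_one {a : Fin n → ℝ} {t : ℝ} {v : Fin n → K} :
    v ∈ (flag (fun j => (1 : Matrix (Fin n) (Fin n) K) j) a t : Submodule K (Fin n → K)) ↔
      ∀ j, v j ≠ 0 → t ≤ a j := by
  classical
  have h1 : ∀ j, (1 : Matrix (Fin n) (Fin n) K) j = Pi.single j 1 := fun j => by
    funext l
    rw [Matrix.one_apply, Pi.single_apply]
    exact if_congr eq_comm rfl rfl
  constructor
  · intro hv
    obtain ⟨c, hc, rfl⟩ := flag_coord hv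
    intro j hj
    refine hc j fun h0 => hj ?_
    rw [Finset.sum_apply]
    refine Finset.sum_eq_zero fun l _ => ?_
    rw [Pi.smul_apply, smul_eq_mul, Matrix.one_apply]
    split_ifs with h
    · rw [h, h0, zero_mul]
    · rw [mul_zero]
  · intro hv
    have h2 : v = ∑ j, v j • (1 : Matrix (Fin n) (Fin n) K) j := by
      funext l
      rw [Finset.sum_apply, Finset.sum_eq_single l]
      · rw [Pi.smul_apply, Matrix.one_apply_eq, smul_eq_mul, mul_one]
      · intro j _ hj
        rw [Pi.smul_apply, Matrix.one_apply_ne hj, smul_zero]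
      · simp
    rw [h2]
    refine Submodule.sum_mem _ fun j _ => ?_
    by_cases h3 : v j = 0
    · rw [h3, zero_smul]
      exact Submodule.zero_mem _
    · exact Submodule.smul_mem _ _ (Submodule.subset_span ⟨j, hv j h3, rfl⟩)

theorem act_one_T (T : ∀ i, (Fin (N i) → Fin n) → K) :
    (fun i => act (1 : Matrix (Fin n) (Fin n) K) (T i)) = T := funext fun i => act_one _

theorem opt_block {T : ∀ i, (Fin (N i) → Fin n) → K} {a : Fin n → ℝ} (h : Opt T a)
    {C : Matrix (Fin n) (Fin n) K} (hC : C.det ≠ 0) (hCa : ∀ i j, C i j ≠ 0 → a i ≤ a j) :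
    Opt (fun i => act C (T i)) a := by
  rw [opt_iff hC]
  refine ⟨h.1.change ?_ ?_ h.1.2.2.1 fun j => mem_flag_one.2 fun l hl => hCa j l hl, h.2⟩
  · exact Matrix.linearIndependent_rows_iff_isUnit.2
      ((Matrix.isUnit_iff_isUnit_det _).2 (isUnit_iff_ne_zero.2 hC))
  · exact span_top_of_mul C (isUnit_iff_ne_zero.2 hC)

theorem sorted_eq {a b : Fin n → ℝ} (ha : Antitone a) (hb : Antitone b)
    (h : ∀ t, (Finset.univ.filter fun j => t ≤ a j).card =
      (Finset.univ.filter fun j => t ≤ b j).card) : a = b := by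
  have key : ∀ {a b : Fin n → ℝ}, Antitone a → Antitone b →
      (∀ t, (Finset.univ.filter fun j => t ≤ a j).card =
      (Finset.univ.filter fun j => t ≤ b j).card) → ∀ j, b j ≤ a j := by
    intro a b ha hb h j
    by_contra hlt
    rw [not_le] at hlt
    have h1 : (Finset.Iic j).card ≤ (Finset.univ.filter fun l => b j ≤ b l).card :=
      Finset.card_le_card fun l hl => Finset.mem_filter.2 ⟨Finset.mem_univ _,
        hb (Finset.mem_Iic.1 hl)⟩
    have h2 : (Finset.univ.filter fun l => b j ≤ a l).card ≤ (Finset.Iio j).card :=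
      Finset.card_le_card fun l hl => by
        rw [Finset.mem_Iio]
        by_contra hcon
        rw [not_lt] at hcon
        have h3 := (Finset.mem_filter.1 hl).2
        have h4 := ha hcon
        linarith
    rw [h, ] at h2
    rw [Fin.card_Iic] at h1
    rw [Fin.card_Iio] at h2
    omega
  exact funext fun j => le_antisymm (key hb ha (fun t => (h t).symm) j) (key ha hb h j)

/-- optimal coordinates are unique up to block triangular matrices -/
theorem opt_unique (hn : 0 < n) {T : ∀ i, (Fin (N i) → Fin n) → K} {a b : Fin n → ℝ}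
    (h : Opt T a) {g : Matrix (Fin n) (Fin n) K} (hg : g.det ≠ 0)
    (h' : Opt (fun i => act g (T i)) b) (ha : Antitone a) (hb : Antitone b) :
    a = b ∧ ∀ i j, g i j ≠ 0 → a i ≤ a j := by
  rw [opt_iff hg] at h'
  have h1 : ∑ j, b j ^ 2 = ∑ j, a j ^ 2 := le_antisymm (h'.2 _ _ h.1) (h.2 _ _ h'.1)
  have h2 := flag_unique hn h.1 h'.1 h.2 h1
  have h3 : a = b := sorted_eq ha hb fun t => by
    rw [← finrank_flag h.1.1, ← finrank_flag h'.1.1, h2]
  refine ⟨h3, fun i j hij => ?_⟩
  have h4 : g i ∈ (flag (fun j => g j) b (b i) : Submodule K (Fin n → K)) :=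
    Submodule.subset_span ⟨i, le_refl (b i), rfl⟩
  rw [← h2, mem_flag_one] at h4
  rw [h3] at h4 ⊢
  exact h4 j hij

section form

variable [Algebra ℝ K] {Q : Type} [Fintype Q] [DecidableEq Q] {M : Q → ℕ}

/-- the invariant `p` of the leading parts, in coordinates -/
noncomputable def LC (A : Fin n → ℤ) (w : ℤ) (q : Fin n → ℕ) (k : ℕ)
    (p : ((Σ x, Fin (Fintype.card (IR M q k x))) → Fin n) → ℝ)
    (T : ∀ x : Q, (Fin (M x) → Fin n) → K) : K :=
  ∑ I, algebraMap ℝ K (p I) * ∏ x, RR A q k (fun x => lead A w (T x)) x (fun l => I ⟨x, l⟩)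

theorem LC_act {A : Fin n → ℤ} {w : ℤ} {q : Fin n → ℕ} (hq : ∀ i j, A i = A j → q i = q j) {k : ℕ}
    {p : ((Σ x, Fin (Fintype.card (IR M q k x))) → Fin n) → ℝ} (hp : SLInv p) {m : ℕ}
    (hm : ∀ I', p I' ≠ 0 → ∀ i, (Finset.univ.filter fun k => I' k = i).card = m)
    {T : ∀ x : Q, (Fin (M x) → Fin n) → K}
    (hsupp : ∀ x (J : Fin (M x) → Fin n), T x J ≠ 0 → ∑ k, A (J k) ≤ w)
    {C : Matrix (Fin n) (Fin n) K} (hCA : ∀ i j, C i j ≠ 0 → A i ≤ A j)
    (hchi : chi A q C ≠ 0) :
    LC A w q k p (fun x => act C (T x)) =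
      C.det ^ m * ((chi A q C) ^ Fintype.card Q)⁻¹ * LC A w q k p T := by
  classical
  have hdg : ∀ i j, dg A C i j ≠ 0 → A i = A j := fun i j h => dg_ne h
  have h1 : (fun x => lead A w (act C (T x))) = fun x J => act (dg A C) (lead A w (T x)) J :=
    funext fun x => lead_act (fun I hI => hsupp x I hI) hCA
  have h2 : ∀ x (J : Fin (Fintype.card (IR M q k x)) → Fin n),
      RR A q k (fun x => lead A w (act C (T x))) x J = (chi A q C)⁻¹ *
        act (dg A C) (RR A q k (fun x => lead A w (T x)) x) J := by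
    intro x J
    rw [h1]
    change RR A q k (fun x => act (dg A C) (lead A w (T x))) x J = _
    rw [act_RR hq k (fun x => lead A w (T x)) x hdg J, chi_dg]
    field_simp
  have h3 : ∀ I : (Σ x, Fin (Fintype.card (IR M q k x))) → Fin n,
      ∏ x, RR A q k (fun x => lead A w (act C (T x))) x (fun l => I ⟨x, l⟩) =
      ((chi A q C) ^ Fintype.card Q)⁻¹ *
        act (dg A C) (wordT (RR A q k (fun x => lead A w (T x))) id) I := by
    intro I
    have h4 := act_word (RR A q k (fun x => lead A w (T x))) id (dg A C) I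
    refine Eq.trans ?_ (congrArg _ h4.symm)
    simp only [h2]
    rw [Finset.prod_mul_distrib, Finset.prod_const, Finset.card_univ, inv_pow]
    rfl
  rw [LC]
  simp only [h3]
  have h5 : ∑ I : (Σ x, Fin (Fintype.card (IR M q k x))) → Fin n, algebraMap ℝ K (p I) *
      act (dg A C) (wordT (RR A q k (fun x => lead A w (T x))) id) I =
        C.det ^ m * LC A w q k p T := by
    rw [LC, Finset.mul_sum]
    simp only [act, Finset.mul_sum]
    rw [Finset.sum_comm]
    refine Finset.sum_congr rfl fun I _ => ?_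
    have h6 := hp.semi hm (dg A C) I
    rw [det_dg hCA] at h6
    have h7 : wordT (RR A q k (fun x => lead A w (T x))) id I =
      ∏ x, RR A q k (fun x => lead A w (T x)) x (fun l => I ⟨x, l⟩) := rfl
    rw [← mul_assoc, ← h6, Finset.sum_mul, ← h7]
    exact Finset.sum_congr rfl fun J _ => (mul_assoc _ _ _).symm
  have h8 : ∀ I : (Σ x, Fin (Fintype.card (IR M q k x))) → Fin n, algebraMap ℝ K (p I) *
      (((chi A q C) ^ Fintype.card Q)⁻¹ *
        act (dg A C) (wordT (RR A q k (fun x => lead A w (T x))) id) I) =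
      ((chi A q C) ^ Fintype.card Q)⁻¹ * (algebraMap ℝ K (p I) *
        act (dg A C) (wordT (RR A q k (fun x => lead A w (T x))) id) I) := fun I => by ring
  rw [Finset.sum_congr rfl fun I _ => h8 I, ← Finset.mul_sum, h5]
  ring

end form

/-- **The core.**  Optimal coordinates of a nonzero family have an invariant of the leading parts
which does not vanish. -/
theorem core [Algebra ℝ K] (hn : 0 < n) {D : ℕ} (hD : ∀ i, N i ≤ D) (hN : ∀ i, 0 < N i)
    (T : ∀ i, (Fin (N i) → Fin n) → K) {a : Fin n → ℝ} (hopt : Opt T a) (hne : ∃ i, T i ≠ 0) :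
    ∃ (Q : Type) (_ : Fintype Q) (_ : DecidableEq Q) (_ : Nonempty Q) (ν : Q → ι)
      (A : Fin n → ℤ) (m : ℕ) (q : Fin n → ℕ) (κ0 : ℤ) (k : ℕ)
      (p : ((Σ x, Fin (Fintype.card (IR (fun x => N (ν x)) q k x))) → Fin n) → ℝ) (m' : ℕ)
      (e : Fin n → ℤ),
      0 < m ∧ (∀ j, (A j : ℝ) = m * a j) ∧ (∀ j, (q j : ℤ) = κ0 + m * A j) ∧ SLInv p ∧
      (∀ I', p I' ≠ 0 → ∀ i, (Finset.univ.filter fun k => I' k = i).card = m') ∧
      (∀ j, e j = m' - Fintype.card Q * q j) ∧ 0 < ∑ j, e j ∧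
      LC A (-m) q k p (fun x => T (ν x)) ≠ 0 := by
  classical
  have h𝒮D : ∀ d, ∀ s ∈ famE T (RingHom.id K) d, d ≤ D := by
    rintro d s ⟨i, h, -⟩
    rw [← h]
    exact hD i
  obtain ⟨hg, hmin⟩ := hopt
  obtain ⟨A, m, hm, hA⟩ := rational h𝒮D hg hmin
  have hmR : (0 : ℝ) < m := by exact_mod_cast hm
  have hA0 : ∑ j, A j = 0 := by
    have h1 : ((∑ j, A j : ℤ) : ℝ) = 0 := by
      push_cast
      rw [Finset.sum_congr rfl fun j _ => hA j, ← Finset.mul_sum, hg.2.2.1, mul_zero]
    exact_mod_cast h1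
  have hAw : ∀ i j, A i ≤ A j ↔ a i ≤ a j := by
    intro i j
    have h1 : (A i : ℝ) ≤ A j ↔ a i ≤ a j := by
      rw [hA, hA]
      exact mul_le_mul_iff_right₀ hmR
    rw [← h1]
    exact Int.cast_le.symm
  have hsumA : ∀ {d : ℕ} (J : Fin d → Fin n), ((∑ k, A (J k) : ℤ) : ℝ) = m * ∑ k, a (J k) := by
    intro d J
    push_cast
    rw [Finset.mul_sum]
    exact Finset.sum_congr rfl fun k _ => hA _
  have hdest := dest_famE.1 hg
  simp only [RingHom.id_apply] at hdest
  have hsupp0 : ∀ i (J : Fin (N i) → Fin n), T i J ≠ 0 → ∑ k, A (J k) ≤ -m := by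
    intro i J hJ
    have h1 := hdest.2.2 i J (by
      change act (1 : Matrix (Fin n) (Fin n) K) (T i) J ≠ 0
      rw [act_one]
      exact hJ)
    have h3 : ((∑ k, A (J k) : ℤ) : ℝ) ≤ ((-m : ℤ) : ℝ) := by
      rw [hsumA]
      push_cast
      nlinarith
    exact_mod_cast h3
  have hk : 0 < ∑ j, A j ^ 2 := by
    obtain ⟨i, hi⟩ := hne
    obtain ⟨J, hJ⟩ := Function.ne_iff.1 hi
    have h1 := hsupp0 i J hJ
    refine lt_of_le_of_ne (Finset.sum_nonneg fun j _ => sq_nonneg _) fun h0 => ?_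
    have h2 : ∀ j, A j = 0 := fun j => by
      have h3 := (Finset.sum_eq_zero_iff_of_nonneg fun j _ => sq_nonneg (A j)).1 h0.symm j
        (Finset.mem_univ j)
      exact pow_eq_zero_iff (two_ne_zero) |>.1 h3
    simp only [h2, Finset.sum_const_zero] at h1
    omega
  obtain ⟨k, hkk⟩ : ∃ k : ℕ, (k : ℤ) = ∑ j, A j ^ 2 := ⟨_, Int.toNat_of_nonneg hk.le⟩
  have hk0 : 0 < k := by
    rw [← hkk] at hk
    exact_mod_cast hk
  obtain ⟨κ0, hκ0⟩ : ∃ κ0 : ℤ, κ0 = m * ∑ j, |A j| := ⟨_, rfl⟩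
  obtain ⟨q, hq⟩ : ∃ q : Fin n → ℕ, ∀ j, (q j : ℤ) = κ0 + m * A j := by
    refine ⟨fun j => (κ0 + m * A j).toNat, fun j => Int.toNat_of_nonneg ?_⟩
    rw [hκ0, ← mul_add]
    refine mul_nonneg (Int.natCast_nonneg _) ?_
    have h1 : |A j| ≤ ∑ j, |A j| := Finset.single_le_sum (f := fun j => |A j|)
      (fun i _ => abs_nonneg _) (Finset.mem_univ j)
    have h2 := neg_abs_le (A j)
    linarith
  obtain ⟨κ, hκ, jj, hjj⟩ := sub_family T hD
  obtain ⟨T', hT'⟩ : ∃ T' : ∀ x, (Fin (N (jj x)) → Fin n) → K,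
    T' = fun x => lead A (-m) (T (jj x)) := ⟨_, rfl⟩
  -- the perturbation inequality
  have PI : ∀ C : Matrix (Fin n) (Fin n) K, C.det ≠ 0 → (∀ i j, C i j ≠ 0 → A i = A j) →
      ∀ v : Fin n → ℝ, ∑ j, v j = 0 → ∀ M' : ℝ,
        (∀ i J, act C (T' i) J ≠ 0 → ∑ l, v (J l) ≤ M') →
          0 ≤ m * ∑ j, A j * v j + M' * k := by
    intro C hC hCA v hv M' hM'
    have hDest : Dest (famE T (RingHom.id K)) (fun j => C j) a :=
      ((opt_iff hC).1 (opt_block ⟨hg, hmin⟩ hC fun i j h => (hAw i j).1 (hCA i j h).le)).1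
    have h6 : dg A C = C := by
      ext i j
      rw [dg_apply]
      split_ifs with h
      · rfl
      · by_contra hne'
        exact h (hCA i j (Ne.symm hne'))
    have h1 := pert h𝒮D hDest hmin v hv M' (by
      rintro d t ⟨i, hi, ht⟩ J hne hJ
      subst hi
      rw [ht] at hne
      have h2 : act C (T i) J ≠ 0 := by
        rw [act_eq_form]
        exact hne
      let φ : ((Fin (N i) → Fin n) → K) →ₗ[K] K :=
        { toFun := fun t => act C t J
          map_add' := fun t u => by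
            simp only [act, Pi.add_apply, mul_add, Finset.sum_add_distrib]
          map_smul' := fun c t => by
            simp only [act, Pi.smul_apply, smul_eq_mul, RingHom.id_apply, Finset.mul_sum]
            exact Finset.sum_congr rfl fun I _ => by ring }
      obtain ⟨x, hx, hne'⟩ := hjj i φ h2
      have h3 : act C (T (jj x)) (fun k => J (Fin.cast hx k)) ≠ 0 := by
        rw [← act_cast hx]
        exact hne'
      have h4 := hM' x (fun k => J (Fin.cast hx k)) (by
        have h5 := lead_act (A := A) (w := -m) (T := T (jj x)) (fun I hI => hsupp0 (jj x) I hI)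
          (g := C) (fun i j h => (hCA i j h).le)
        rw [h6] at h5
        rw [hT']
        change act C (lead A (-m) (T (jj x))) _ ≠ 0
        rw [← h5, lead]
        have hJ' : ∑ k, A (J (Fin.cast hx k)) = -m := by
          have h8 : ((∑ k, A (J (Fin.cast hx k)) : ℤ) : ℝ) = ((-m : ℤ) : ℝ) := by
            rw [hsumA, sum_cast hx fun k => a (J k), hJ]
            push_cast
            ring
          exact_mod_cast h8
        rw [if_pos hJ']
        exact h3)
      rwa [sum_cast hx fun k => v (J k)] at h4)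
    have h2 : m * ∑ j, (A j : ℝ) * v j + M' * k = m ^ 2 * (∑ j, a j * v j + M' * ∑ j, a j ^ 2) := by
      have h3 : (k : ℝ) = ∑ j, (A j : ℝ) ^ 2 := by exact_mod_cast hkk
      have h4 : ∑ j, (A j : ℝ) * v j = m * ∑ j, a j * v j := by
        rw [Finset.mul_sum]
        refine Finset.sum_congr rfl fun j _ => ?_
        rw [hA]
        ring
      have h5 : ∑ j, (A j : ℝ) ^ 2 = m ^ 2 * ∑ j, a j ^ 2 := by
        rw [Finset.mul_sum]
        refine Finset.sum_congr rfl fun j _ => ?_
        rw [hA]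
        ring
      rw [h3, h4, h5]
      ring
    rw [h2]
    exact mul_nonneg (sq_nonneg _) h1
  have hTw : ∀ i (J : Fin (N (jj i)) → Fin n), T' i J ≠ 0 → ∑ l, A (J l) = -m := by
    intro i J hne
    by_contra h
    rw [hT'] at hne
    exact hne (if_neg h)
  have hnot := not_noInv (N := fun x => N (jj x)) hn T' A m hA0 q κ0 hq k hkk hk0 hTw PI
  rw [NoInv] at hnot
  push Not at hnot
  obtain ⟨Q, hQf, hQd, hQn, ν, p, hp, hne'⟩ := hnot
  obtain ⟨I0, -, hI0⟩ := Finset.exists_ne_zero_of_sum_ne_zero hne'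
  have hpI0 : p I0 ≠ 0 := fun h => hI0 (by rw [h, map_zero, zero_mul])
  obtain ⟨m', hcard, hm'⟩ := hp.exists_m hn hpI0
  obtain ⟨q0⟩ : Nonempty Q := hQn
  refine ⟨Q, hQf, hQd, ⟨q0⟩, fun x => jj (ν x), A, m, q, κ0, k, p, m',
    fun j => m' - Fintype.card Q * q j, hm, hA, hq, hp, hm', fun _ => rfl, ?_, ?_⟩
  · have h3 : ∀ x, Fintype.card (IR (fun i => N (jj i)) q k (ν x)) =
        k * N (jj (ν x)) + ∑ j, q j := by
      intro x
      rw [Fintype.card_sum, Fintype.card_sigma, Fintype.card_sigma]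
      simp only [Fintype.card_fin, Finset.sum_const, Finset.card_univ, smul_eq_mul]
    rw [Fintype.card_sigma] at hcard
    simp only [Fintype.card_fin] at hcard
    rw [Finset.sum_congr rfl fun x _ => h3 x, Finset.sum_add_distrib, Finset.sum_const,
      Finset.card_univ, smul_eq_mul, ← Finset.mul_sum] at hcard
    have h4 : ((k : ℤ) * ∑ x, (N (jj (ν x)) : ℤ) + Fintype.card Q * ∑ j, (q j : ℤ)) = n * m' := by
      exact_mod_cast hcard
    rw [Finset.sum_sub_distrib, Finset.sum_const, Finset.card_univ, Fintype.card_fin,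
      nsmul_eq_mul, ← Finset.mul_sum]
    have h5 : 0 < ∑ x, (N (jj (ν x)) : ℤ) := Finset.sum_pos (fun x _ => by
      have := hN (jj (ν x))
      exact_mod_cast this) ⟨q0, Finset.mem_univ _⟩
    have h6 : (0 : ℤ) < k := by exact_mod_cast hk0
    have h7 := mul_pos h6 h5
    linarith
  · intro h0
    apply hne'
    rw [LC, ] at h0
    rw [← h0, hT']
    rfl

end Pool.Agent.Helper91.CM
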