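import Pool.Agent.Helper91.CM.Core

/-!
The exponents in the combination of forms of the members of a flag.
-/

set_option autoImplicit false
set_option linter.unusedSectionVars false

namespace Pool.Agent.Helper91.CM

open Module Pool.Agent.Helper12.BL Pool.Agent.Helper91.HM Pool.Agent.Helper91.HM.Tw
  Pool.Agent.Helper91.EF

variable {K : Type} [Field K] {n : ℕ}

theorem heA {A e : Fin n → ℤ} {m m' : ℕ} {q : Fin n → ℕ} {κ0 : ℤ} {c : ℕ} (hm : 0 < m) (hc : 0 < c)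
    (hq : ∀ j, (q j : ℤ) = κ0 + m * A j) (he : ∀ j, e j = m' - c * q j) (i j : Fin n) :
    e j ≤ e i ↔ A i ≤ A j := by
  have hQ0' : (0 : ℤ) < c := by exact_mod_cast hc
  have hm0' : (0 : ℤ) < m := by exact_mod_cast hm
  rw [he, he, hq, hq]
  constructor
  · intro h
    have h1 : (c : ℤ) * (κ0 + m * A i) ≤ c * (κ0 + m * A j) := by linarith
    have h2 := le_of_mul_le_mul_left h1 hQ0'
    have h3 : (m : ℤ) * A i ≤ m * A j := by linarith
    exact le_of_mul_le_mul_left h3 hm0'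
  · intro h
    have h3 := mul_le_mul_of_nonneg_left h hm0'.le
    have h2 : κ0 + m * A i ≤ κ0 + m * A j := by linarith
    have h1 := mul_le_mul_of_nonneg_left h2 hQ0'.le
    linarith

/-- the character of the form -/
theorem law_e {A e : Fin n → ℤ} {m m' : ℕ} {q : Fin n → ℕ} {κ0 : ℤ} {c : ℕ} (hm : 0 < m)
    (hc : 0 < c) (hq : ∀ j, (q j : ℤ) = κ0 + m * A j) (he : ∀ j, e j = m' - c * q j)
    {C : Matrix (Fin n) (Fin n) K} (hC : C.det ≠ 0) (hCe : ∀ i j, C i j ≠ 0 → e j ≤ e i) :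
    chi A q C ≠ 0 ∧ C.det ^ m' * ((chi A q C) ^ c)⁻¹ =
      ∏ u ∈ Finset.univ.image e, (C.toSquareBlock e u).det ^ u := by
  classical
  have hQ0' : (0 : ℤ) < c := by exact_mod_cast hc
  have heq : ∀ i j, A i = A j ↔ e i = e j := fun i j =>
    ⟨fun h => le_antisymm ((heA hm hc hq he j i).2 h.ge) ((heA hm hc hq he i j).2 h.le),
      fun h => le_antisymm ((heA hm hc hq he i j).1 h.ge) ((heA hm hc hq he j i).1 h.le)⟩
  have hdet := det_blocks hCe
  have hd : ∀ u ∈ Finset.univ.image e, (C.toSquareBlock e u).det ≠ 0 := by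
    rw [hdet] at hC
    exact fun u hu => Finset.prod_ne_zero_iff.1 hC u hu
  have hchi : chi A q C = ∏ t ∈ Finset.univ.image e, (C.toSquareBlock e t).det ^
      ((m' - t) / (c : ℤ)).toNat := by
    rw [chi_congr heq q C]
    refine chi_eq (Q := fun t => ((m' - t) / (c : ℤ)).toNat) (fun j => ?_) C
    rw [he, sub_sub_cancel, Int.mul_ediv_cancel_left _ hQ0'.ne', Int.toNat_natCast]
  have hchi0 : chi A q C ≠ 0 := by
    rw [hchi]
    exact Finset.prod_ne_zero_iff.2 fun u hu => pow_ne_zero _ (hd u hu)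
  refine ⟨hchi0, ?_⟩
  rw [hchi, ← Finset.prod_pow, ← Finset.prod_inv_distrib]
  have h2 : C.det ^ m' = ∏ u ∈ Finset.univ.image e,
      (C.toSquareBlock e u).det ^ m' := by
    rw [hdet, Finset.prod_pow]
  rw [h2, ← Finset.prod_mul_distrib]
  refine Finset.prod_congr rfl fun u hu => ?_
  obtain ⟨j, -, hj⟩ := Finset.mem_image.1 hu
  have h3 : ((m' - u) / (c : ℤ)).toNat = q j := by
    rw [← hj, he, sub_sub_cancel, Int.mul_ediv_cancel_left _ hQ0'.ne', Int.toNat_natCast]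
  rw [h3, ← pow_mul, ← zpow_natCast, ← zpow_natCast, ← zpow_neg, ← zpow_add₀ (hd u hu)]
  congr 1
  rw [← hj, he]
  push_cast
  ring

/-- the exponents -/
theorem kod_alg {e : Fin n → ℤ} (hn : 0 < n) (he : 0 < ∑ j, e j) (m : ℤ → ℕ)
    (hm : ∀ t, 0 < m t) :
    ∃ (I : Finset ℤ) (M W : ℕ) (rr : ℤ → ℕ), 0 < M ∧ 0 < W ∧ (∀ t ∈ I, m t * rr t = M) ∧
      (∀ t ∈ I, (∃ j, e j ≤ t) ∧ ∃ j, t < e j) ∧
      ∀ (K : Type) [Field K] (C : Matrix (Fin n) (Fin n) K), C.det ≠ 0 →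
        (∀ i j, C i j ≠ 0 → e j ≤ e i) →
        (∏ u ∈ Finset.univ.image e, (C.toSquareBlock e u).det ^ u) ^ M *
          ∏ t ∈ I, (∏ u ∈ (Finset.univ.image e).filter (· ≤ t), (C.toSquareBlock e u).det) ^ M =
            C.det ^ W := by
  classical
  have hne : (Finset.univ : Finset (Fin n)).Nonempty := ⟨⟨0, hn⟩, Finset.mem_univ _⟩
  obtain ⟨j0, -, hj0⟩ := Finset.exists_min_image Finset.univ e hne
  obtain ⟨j1, -, hj1⟩ := Finset.exists_max_image Finset.univ e hne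
  have hmax0 : 0 < e j1 := by
    by_contra hcon
    have h1 : ∑ j, e j ≤ 0 := Finset.sum_nonpos fun j _ =>
      (hj1 j (Finset.mem_univ _)).trans (not_lt.1 hcon)
    omega
  obtain ⟨I, hI⟩ : ∃ I, I = Finset.Ico (e j0) (e j1) := ⟨_, rfl⟩
  have hImem : ∀ t, t ∈ I ↔ e j0 ≤ t ∧ t < e j1 := fun t => by rw [hI, Finset.mem_Ico]
  obtain ⟨M, hM⟩ : ∃ M, M = ∏ t ∈ I, m t := ⟨_, rfl⟩
  obtain ⟨rr, hrr⟩ : ∃ rr : ℤ → ℕ, ∀ t, rr t = ∏ u ∈ I.erase t, m u := ⟨_, fun _ => rfl⟩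
  have hmr : ∀ t ∈ I, m t * rr t = M := fun t ht => by
    rw [hrr, hM, Finset.mul_prod_erase _ _ ht]
  have hM0 : 0 < M := hM ▸ Finset.prod_pos fun t _ => hm t
  obtain ⟨W, hW⟩ : ∃ W : ℕ, (W : ℤ) = M * e j1 := ⟨(M * e j1).toNat, Int.toNat_of_nonneg
    (mul_nonneg (Int.natCast_nonneg _) hmax0.le)⟩
  have hW0 : 0 < W := by
    have h1 : (0 : ℤ) < M := by exact_mod_cast hM0
    have h2 := mul_pos h1 hmax0
    rw [← hW] at h2
    exact_mod_cast h2
  refine ⟨I, M, W, rr, hM0, hW0, hmr, fun t ht => ⟨⟨j0, ((hImem t).1 ht).1⟩,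
    ⟨j1, ((hImem t).1 ht).2⟩⟩, fun K _ C hC hCe => ?_⟩
  have hdet := det_blocks hCe
  have hd : ∀ u ∈ Finset.univ.image e, (C.toSquareBlock e u).det ≠ 0 := by
    rw [hdet] at hC
    exact fun u hu => Finset.prod_ne_zero_iff.1 hC u hu
  have h2 : ∀ t ∈ I, (∏ u ∈ (Finset.univ.image e).filter (· ≤ t),
      (C.toSquareBlock e u).det) ^ M = ∏ u ∈ Finset.univ.image e,
        if u ≤ t then (C.toSquareBlock e u).det ^ (M : ℤ) else 1 := by
    intro t ht
    rw [← Finset.prod_pow, Finset.prod_filter]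
    simp only [zpow_natCast]
  rw [Finset.prod_congr rfl h2, Finset.prod_comm, ← Finset.prod_pow, ← Finset.prod_mul_distrib]
  have h3 : ∀ u ∈ Finset.univ.image e, ((C.toSquareBlock e u).det ^ u) ^ M *
      ∏ t ∈ I, (if u ≤ t then (C.toSquareBlock e u).det ^ (M : ℤ) else 1) =
        (C.toSquareBlock e u).det ^ W := by
    intro u hu
    obtain ⟨l, -, hl⟩ := Finset.mem_image.1 hu
    have hul : e j0 ≤ u := hl ▸ hj0 l (Finset.mem_univ _)
    have hul' : u ≤ e j1 := hl ▸ hj1 l (Finset.mem_univ _)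
    rw [← Finset.prod_filter, Finset.prod_const]
    have h4 : I.filter (fun t => u ≤ t) = Finset.Ico u (e j1) := by
      ext t
      rw [Finset.mem_filter, hImem, Finset.mem_Ico]
      constructor
      · rintro ⟨⟨-, h5⟩, h6⟩
        exact ⟨h6, h5⟩
      · rintro ⟨h5, h6⟩
        exact ⟨⟨hul.trans h5, h6⟩, h5⟩
    rw [h4, Int.card_Ico, ← zpow_natCast (C.toSquareBlock e u).det W, ← zpow_natCast _ M,
      ← zpow_mul, ← zpow_natCast _ (e j1 - u).toNat, ← zpow_mul, ← zpow_add₀ (hd u hu),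
      Int.toNat_of_nonneg (sub_nonneg.2 hul'), hW]
    congr 1
    ring
  rw [Finset.prod_congr rfl h3, hdet, Finset.prod_pow]

end Pool.Agent.Helper91.CM
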