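import Pool.Agent.Helper91.CM.GenB
import Pool.Agent.Helper91.CM.KodA

/-!
The core with bounds.
-/

set_option autoImplicit false
set_option linter.unusedSectionVars false

namespace Pool.Agent.Helper91.CM

open Module Pool.Agent.Helper12.BL Pool.Agent.Helper91.HM Pool.Agent.Helper91.HM.Tw
  Pool.Agent.Helper91.EF

variable {K : Type} [Field K] {n : ℕ} {ι : Type} {N : ι → ℕ}

theorem exists_B2' (r D : ℕ) : ∃ B2 : ℕ, ∀ w ∈ WW r D, kk w ≤ B2 ∧ ∑ j, qq w j ≤ B2 ∧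
    ∀ (c : CC r D) (N' : YY r D c → ℕ), N' = yd r D c → ∀ (K : Type) [Field K] [Algebra ℝ K]
      (T : ∀ x : YY r D c, (Fin (Fintype.card (IR N' (qq w) (kk w) x)) → Fin r) → K),
        NoInvB B2 T → NoInv T := by
  obtain ⟨B2, h⟩ := exists_B2 r D
  refine ⟨B2, fun w hw => ⟨(h w hw).1, (h w hw).2.1, ?_⟩⟩
  rintro c _ rfl K _ _ T hT
  exact (h w hw).2.2 c K T hT

/-- **The core.**  Optimal coordinates of a nonzero family have an invariant of the leading parts
which does not vanish. -/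
theorem coreB [Algebra ℝ K] (hn : 0 < n) {D B2 : ℕ}
    (hB2 : ∀ w ∈ WW n D, kk w ≤ B2 ∧ ∑ j, qq w j ≤ B2 ∧
      ∀ (c : CC n D) (N' : YY n D c → ℕ), N' = yd n D c →
        ∀ (T : ∀ x : YY n D c, (Fin (Fintype.card (IR N' (qq w) (kk w) x)) → Fin n) → K),
          NoInvB B2 T → NoInv T)
    (hD : ∀ i, N i ≤ D) (hN : ∀ i, 0 < N i)
    (T : ∀ i, (Fin (N i) → Fin n) → K) {a : Fin n → ℝ} (hopt : Opt T a) (hne : ∃ i, T i ≠ 0) :
    ∃ (Q : Type) (_ : Fintype Q) (_ : DecidableEq Q) (_ : Nonempty Q) (ν : Q → ι)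
      (A : Fin n → ℤ) (m : ℕ) (q : Fin n → ℕ) (κ0 : ℤ) (k : ℕ)
      (p : ((Σ x, Fin (Fintype.card (IR (fun x => N (ν x)) q k x))) → Fin n) → ℝ) (m' : ℕ)
      (e : Fin n → ℤ),
      0 < m ∧ (∀ j, (A j : ℝ) = m * a j) ∧ (∀ j, (q j : ℤ) = κ0 + m * A j) ∧ SLInv p ∧
      (∀ I', p I' ≠ 0 → ∀ i, (Finset.univ.filter fun k => I' k = i).card = m') ∧
      (∀ j, e j = m' - Fintype.card Q * q j) ∧ 0 < ∑ j, e j ∧
      (∀ j, |e j| ≤ (Ebd B2 B2 B2 D 0 : ℕ)) ∧
      LC A (-m) q k p (fun x => T (ν x)) ≠ 0 := by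
  classical
  have h𝒮D : ∀ d, ∀ s ∈ famE T (RingHom.id K) d, d ≤ D := by
    rintro d s ⟨i, h, -⟩
    rw [← h]
    exact hD i
  obtain ⟨hg, hmin⟩ := hopt
  have haW : a ∈ WW n D := mem_WW h𝒮D hg hmin
  obtain ⟨hkB, hqB, hB2w⟩ := hB2 a haW
  obtain ⟨A, hAdef⟩ : ∃ A : Fin n → ℤ, A = num a := ⟨_, rfl⟩
  obtain ⟨m, hmdef⟩ : ∃ m : ℕ, m = den a := ⟨_, rfl⟩
  obtain ⟨hm, hA⟩ := den_num (rational h𝒮D hg hmin)
  rw [← hmdef] at hm
  rw [← hAdef, ← hmdef] at hA
  have hmR : (0 : ℝ) < m := by exact_mod_cast hm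
  have hA0 : ∑ j, A j = 0 := by
    have h1 : ((∑ j, A j : ℤ) : ℝ) = 0 := by
      push_cast
      rw [Finset.sum_congr rfl fun j _ => hA j, ← Finset.mul_sum, hg.2.2.1, mul_zero]
    exact_mod_cast h1
  have hAw : ∀ i j, A i ≤ A j ↔ a i ≤ a j := by
    intro i j
    have h1 : (A i : ℝ) ≤ A j ↔ a i ≤ a j := by
      rw [hA, hA]
      exact mul_le_mul_iff_right₀ hmR
    rw [← h1]
    exact Int.cast_le.symm
  have hsumA : ∀ {d : ℕ} (J : Fin d → Fin n), ((∑ k, A (J k) : ℤ) : ℝ) = m * ∑ k, a (J k) := by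
    intro d J
    push_cast
    rw [Finset.mul_sum]
    exact Finset.sum_congr rfl fun k _ => hA _
  have hdest := dest_famE.1 hg
  simp only [RingHom.id_apply] at hdest
  have hsupp0 : ∀ i (J : Fin (N i) → Fin n), T i J ≠ 0 → ∑ k, A (J k) ≤ -m := by
    intro i J hJ
    have h1 := hdest.2.2 i J (by
      change act (1 : Matrix (Fin n) (Fin n) K) (T i) J ≠ 0
      rw [act_one]
      exact hJ)
    have h3 : ((∑ k, A (J k) : ℤ) : ℝ) ≤ ((-m : ℤ) : ℝ) := by
      rw [hsumA]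
      push_cast
      nlinarith
    exact_mod_cast h3
  have hk : 0 < ∑ j, A j ^ 2 := by
    obtain ⟨i, hi⟩ := hne
    obtain ⟨J, hJ⟩ := Function.ne_iff.1 hi
    have h1 := hsupp0 i J hJ
    refine lt_of_le_of_ne (Finset.sum_nonneg fun j _ => sq_nonneg _) fun h0 => ?_
    have h2 : ∀ j, A j = 0 := fun j => by
      have h3 := (Finset.sum_eq_zero_iff_of_nonneg fun j _ => sq_nonneg (A j)).1 h0.symm j
        (Finset.mem_univ j)
      exact pow_eq_zero_iff (two_ne_zero) |>.1 h3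
    simp only [h2, Finset.sum_const_zero] at h1
    omega
  obtain ⟨k, hkdef⟩ : ∃ k : ℕ, k = kk a := ⟨_, rfl⟩
  have hkk : (k : ℤ) = ∑ j, A j ^ 2 := by rw [hkdef, kk_eq, hAdef]
  have hk0 : 0 < k := by
    rw [← hkk] at hk
    exact_mod_cast hk
  obtain ⟨κ0, hκ0⟩ : ∃ κ0 : ℤ, κ0 = m * ∑ j, |A j| := ⟨_, rfl⟩
  obtain ⟨q, hqdef⟩ : ∃ q : Fin n → ℕ, q = qq a := ⟨_, rfl⟩
  have hq : ∀ j, (q j : ℤ) = κ0 + m * A j := fun j => by
    rw [hqdef, qq_eq, hκ0, hAdef, hmdef]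
  rw [← hkdef] at hkB
  rw [← hqdef] at hqB
  rw [← hqdef, ← hkdef] at hB2w
  obtain ⟨c, jj, hNj, hjj⟩ := sub_familyY T hD
  obtain ⟨T', hT'⟩ : ∃ T' : ∀ x, (Fin (N (jj x)) → Fin n) → K,
    T' = fun x => lead A (-m) (T (jj x)) := ⟨_, rfl⟩
  -- the perturbation inequality
  have PI : ∀ C : Matrix (Fin n) (Fin n) K, C.det ≠ 0 → (∀ i j, C i j ≠ 0 → A i = A j) →
      ∀ v : Fin n → ℝ, ∑ j, v j = 0 → ∀ M' : ℝ,
        (∀ i J, act C (T' i) J ≠ 0 → ∑ l, v (J l) ≤ M') →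
          0 ≤ m * ∑ j, A j * v j + M' * k := by
    intro C hC hCA v hv M' hM'
    have hDest : Dest (famE T (RingHom.id K)) (fun j => C j) a :=
      ((opt_iff hC).1 (opt_block ⟨hg, hmin⟩ hC fun i j h => (hAw i j).1 (hCA i j h).le)).1
    have h6 : dg A C = C := by
      ext i j
      rw [dg_apply]
      split_ifs with h
      · rfl
      · by_contra hne'
        exact h (hCA i j (Ne.symm hne'))
    have h1 := pert h𝒮D hDest hmin v hv M' (by
      rintro d t ⟨i, hi, ht⟩ J hne hJ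
      subst hi
      rw [ht] at hne
      have h2 : act C (T i) J ≠ 0 := by
        rw [act_eq_form]
        exact hne
      let φ : ((Fin (N i) → Fin n) → K) →ₗ[K] K :=
        { toFun := fun t => act C t J
          map_add' := fun t u => by
            simp only [act, Pi.add_apply, mul_add, Finset.sum_add_distrib]
          map_smul' := fun c t => by
            simp only [act, Pi.smul_apply, smul_eq_mul, RingHom.id_apply, Finset.mul_sum]
            exact Finset.sum_congr rfl fun I _ => by ring }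
      obtain ⟨x, hx, hne'⟩ := hjj i φ h2
      have h3 : act C (T (jj x)) (fun k => J (Fin.cast hx k)) ≠ 0 := by
        rw [← act_cast hx]
        exact hne'
      have h4 := hM' x (fun k => J (Fin.cast hx k)) (by
        have h5 := lead_act (A := A) (w := -m) (T := T (jj x)) (fun I hI => hsupp0 (jj x) I hI)
          (g := C) (fun i j h => (hCA i j h).le)
        rw [h6] at h5
        rw [hT']
        change act C (lead A (-m) (T (jj x))) _ ≠ 0
        rw [← h5, lead]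
        have hJ' : ∑ k, A (J (Fin.cast hx k)) = -m := by
          have h8 : ((∑ k, A (J (Fin.cast hx k)) : ℤ) : ℝ) = ((-m : ℤ) : ℝ) := by
            rw [hsumA, sum_cast hx fun k => a (J k), hJ]
            push_cast
            ring
          exact_mod_cast h8
        rw [if_pos hJ']
        exact h3)
      rwa [sum_cast hx fun k => v (J k)] at h4)
    have h2 : m * ∑ j, (A j : ℝ) * v j + M' * k = m ^ 2 * (∑ j, a j * v j + M' * ∑ j, a j ^ 2) := by
      have h3 : (k : ℝ) = ∑ j, (A j : ℝ) ^ 2 := by exact_mod_cast hkk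
      have h4 : ∑ j, (A j : ℝ) * v j = m * ∑ j, a j * v j := by
        rw [Finset.mul_sum]
        refine Finset.sum_congr rfl fun j _ => ?_
        rw [hA]
        ring
      have h5 : ∑ j, (A j : ℝ) ^ 2 = m ^ 2 * ∑ j, a j ^ 2 := by
        rw [Finset.mul_sum]
        refine Finset.sum_congr rfl fun j _ => ?_
        rw [hA]
        ring
      rw [h3, h4, h5]
      ring
    rw [h2]
    exact mul_nonneg (sq_nonneg _) h1
  have hTw : ∀ i (J : Fin (N (jj i)) → Fin n), T' i J ≠ 0 → ∑ l, A (J l) = -m := by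
    intro i J hne
    by_contra h
    rw [hT'] at hne
    exact hne (if_neg h)
  have hnot := not_noInv (N := fun x => N (jj x)) hn T' A m hA0 q κ0 hq k hkk hk0 hTw PI
  replace hnot : ¬ NoInvB B2 (RR A q k T') := fun h => hnot (hB2w c _ (funext hNj) _ h)
  rw [NoInvB] at hnot
  push Not at hnot
  obtain ⟨Q, hQf, hQd, hQn, hQB, ν, p, hp, hne'⟩ := hnot
  obtain ⟨I0, -, hI0⟩ := Finset.exists_ne_zero_of_sum_ne_zero hne'
  have hpI0 : p I0 ≠ 0 := fun h => hI0 (by rw [h, map_zero, zero_mul])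
  obtain ⟨m', hcard, hm'⟩ := hp.exists_m hn hpI0
  obtain ⟨q0⟩ : Nonempty Q := hQn
  refine ⟨Q, hQf, hQd, ⟨q0⟩, fun x => jj (ν x), A, m, q, κ0, k, p, m',
    fun j => m' - Fintype.card Q * q j, hm, hA, hq, hp, hm', fun _ => rfl, ?_, ?_, ?_⟩
  · have h3 : ∀ x, Fintype.card (IR (fun i => N (jj i)) q k (ν x)) =
        k * N (jj (ν x)) + ∑ j, q j := by
      intro x
      rw [Fintype.card_sum, Fintype.card_sigma, Fintype.card_sigma]
      simp only [Fintype.card_fin, Finset.sum_const, Finset.card_univ, smul_eq_mul]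
    rw [Fintype.card_sigma] at hcard
    simp only [Fintype.card_fin] at hcard
    rw [Finset.sum_congr rfl fun x _ => h3 x, Finset.sum_add_distrib, Finset.sum_const,
      Finset.card_univ, smul_eq_mul, ← Finset.mul_sum] at hcard
    have h4 : ((k : ℤ) * ∑ x, (N (jj (ν x)) : ℤ) + Fintype.card Q * ∑ j, (q j : ℤ)) = n * m' := by
      exact_mod_cast hcard
    rw [Finset.sum_sub_distrib, Finset.sum_const, Finset.card_univ, Fintype.card_fin,
      nsmul_eq_mul, ← Finset.mul_sum]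
    have h5 : 0 < ∑ x, (N (jj (ν x)) : ℤ) := Finset.sum_pos (fun x _ => by
      have := hN (jj (ν x))
      exact_mod_cast this) ⟨q0, Finset.mem_univ _⟩
    have h6 : (0 : ℤ) < k := by exact_mod_cast hk0
    have h7 := mul_pos h6 h5
    linarith
  · intro j
    have h3 : ∀ x, Fintype.card (IR (fun i => N (jj i)) q k (ν x)) =
        k * N (jj (ν x)) + ∑ j, q j := by
      intro x
      rw [Fintype.card_sum, Fintype.card_sigma, Fintype.card_sigma]
      simp only [Fintype.card_fin, Finset.sum_const, Finset.card_univ, smul_eq_mul]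
    rw [Fintype.card_sigma] at hcard
    simp only [Fintype.card_fin] at hcard
    rw [Finset.sum_congr rfl fun x _ => h3 x, Finset.sum_add_distrib, Finset.sum_const,
      Finset.card_univ, smul_eq_mul, ← Finset.mul_sum] at hcard
    have h4 : ((k : ℤ) * ∑ x, (N (jj (ν x)) : ℤ) + Fintype.card Q * (∑ j, q j : ℕ)) = n * m' := by
      exact_mod_cast hcard
    have h5 := e_bd hn hQB (N := fun x => N (jj (ν x))) (N0 := D) (fun x => hD _)
      (a := fun _ => 0) (A0 := 0) (fun x => by simp) h4 (Finset.single_le_sum (f := q)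
        (fun _ _ => Nat.zero_le _) (Finset.mem_univ j))
    simp only [Finset.sum_const_zero, mul_zero, add_zero] at h5
    exact h5.trans (by exact_mod_cast Ebd_mono hkB hqB)
  · intro h0
    apply hne'
    rw [LC, ] at h0
    rw [← h0, hT']
    rfl

/-- the exponents -/
theorem kod_algB {e : Fin n → ℤ} (hn : 0 < n) (he : 0 < ∑ j, e j) (m : ℤ → ℕ)
    (hm : ∀ t, 0 < m t) {E0 B0 : ℕ} (heE : ∀ j, |e j| ≤ E0) (hmB' : ∀ t, m t ≤ B0 + 1) :
    ∃ (I : Finset ℤ) (M W : ℕ) (rr : ℤ → ℕ), 0 < M ∧ 0 < W ∧ W ≤ Phi E0 B0 ∧ (∀ t ∈ I, m t * rr t = M) ∧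
      (∀ t ∈ I, (∃ j, e j ≤ t) ∧ ∃ j, t < e j) ∧
      ∀ (K : Type) [Field K] (C : Matrix (Fin n) (Fin n) K), C.det ≠ 0 →
        (∀ i j, C i j ≠ 0 → e j ≤ e i) →
        (∏ u ∈ Finset.univ.image e, (C.toSquareBlock e u).det ^ u) ^ M *
          ∏ t ∈ I, (∏ u ∈ (Finset.univ.image e).filter (· ≤ t), (C.toSquareBlock e u).det) ^ M =
            C.det ^ W := by
  classical
  have hne : (Finset.univ : Finset (Fin n)).Nonempty := ⟨⟨0, hn⟩, Finset.mem_univ _⟩
  obtain ⟨j0, -, hj0⟩ := Finset.exists_min_image Finset.univ e hne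
  obtain ⟨j1, -, hj1⟩ := Finset.exists_max_image Finset.univ e hne
  have hmax0 : 0 < e j1 := by
    by_contra hcon
    have h1 : ∑ j, e j ≤ 0 := Finset.sum_nonpos fun j _ =>
      (hj1 j (Finset.mem_univ _)).trans (not_lt.1 hcon)
    omega
  obtain ⟨I, hI⟩ : ∃ I, I = Finset.Ico (e j0) (e j1) := ⟨_, rfl⟩
  have hImem : ∀ t, t ∈ I ↔ e j0 ≤ t ∧ t < e j1 := fun t => by rw [hI, Finset.mem_Ico]
  obtain ⟨M, hM⟩ : ∃ M, M = ∏ t ∈ I, m t := ⟨_, rfl⟩
  obtain ⟨rr, hrr⟩ : ∃ rr : ℤ → ℕ, ∀ t, rr t = ∏ u ∈ I.erase t, m u := ⟨_, fun _ => rfl⟩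
  have hmr : ∀ t ∈ I, m t * rr t = M := fun t ht => by
    rw [hrr, hM, Finset.mul_prod_erase _ _ ht]
  have hM0 : 0 < M := hM ▸ Finset.prod_pos fun t _ => hm t
  obtain ⟨W, hW⟩ : ∃ W : ℕ, (W : ℤ) = M * e j1 := ⟨(M * e j1).toNat, Int.toNat_of_nonneg
    (mul_nonneg (Int.natCast_nonneg _) hmax0.le)⟩
  have hW0 : 0 < W := by
    have h1 : (0 : ℤ) < M := by exact_mod_cast hM0
    have h2 := mul_pos h1 hmax0
    rw [← hW] at h2
    exact_mod_cast h2
  have hIc : I.card ≤ 2 * E0 := by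
    rw [hI, Int.card_Ico]
    have h1 := abs_le.1 (heE j1)
    have h2 := abs_le.1 (heE j0)
    omega
  have hMB : M ≤ (B0 + 1) ^ (2 * E0) := by
    rw [hM]
    calc ∏ t ∈ I, m t ≤ ∏ t ∈ I, (B0 + 1) := Finset.prod_le_prod' fun t _ => hmB' t
      _ = (B0 + 1) ^ I.card := by rw [Finset.prod_const]
      _ ≤ (B0 + 1) ^ (2 * E0) := Nat.pow_le_pow_right (Nat.succ_pos _) hIc
  have hWB : W ≤ Phi E0 B0 := by
    have h1 : (W : ℤ) ≤ (((B0 + 1) ^ (2 * E0) * E0 : ℕ) : ℤ) := by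
      rw [hW]
      push_cast
      refine mul_le_mul (by exact_mod_cast hMB) (le_of_abs_le (heE j1)) hmax0.le (by positivity)
    have h2 : W ≤ (B0 + 1) ^ (2 * E0) * E0 := by exact_mod_cast h1
    refine h2.trans ?_
    rw [Phi, mul_add]
    exact Nat.le_add_right _ _
  refine ⟨I, M, W, rr, hM0, hW0, hWB, hmr, fun t ht => ⟨⟨j0, ((hImem t).1 ht).1⟩,
    ⟨j1, ((hImem t).1 ht).2⟩⟩, fun K _ C hC hCe => ?_⟩
  have hdet := det_blocks hCe
  have hd : ∀ u ∈ Finset.univ.image e, (C.toSquareBlock e u).det ≠ 0 := by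
    rw [hdet] at hC
    exact fun u hu => Finset.prod_ne_zero_iff.1 hC u hu
  have h2 : ∀ t ∈ I, (∏ u ∈ (Finset.univ.image e).filter (· ≤ t),
      (C.toSquareBlock e u).det) ^ M = ∏ u ∈ Finset.univ.image e,
        if u ≤ t then (C.toSquareBlock e u).det ^ (M : ℤ) else 1 := by
    intro t ht
    rw [← Finset.prod_pow, Finset.prod_filter]
    simp only [zpow_natCast]
  rw [Finset.prod_congr rfl h2, Finset.prod_comm, ← Finset.prod_pow, ← Finset.prod_mul_distrib]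
  have h3 : ∀ u ∈ Finset.univ.image e, ((C.toSquareBlock e u).det ^ u) ^ M *
      ∏ t ∈ I, (if u ≤ t then (C.toSquareBlock e u).det ^ (M : ℤ) else 1) =
        (C.toSquareBlock e u).det ^ W := by
    intro u hu
    obtain ⟨l, -, hl⟩ := Finset.mem_image.1 hu
    have hul : e j0 ≤ u := hl ▸ hj0 l (Finset.mem_univ _)
    have hul' : u ≤ e j1 := hl ▸ hj1 l (Finset.mem_univ _)
    rw [← Finset.prod_filter, Finset.prod_const]
    have h4 : I.filter (fun t => u ≤ t) = Finset.Ico u (e j1) := by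
      ext t
      rw [Finset.mem_filter, hImem, Finset.mem_Ico]
      constructor
      · rintro ⟨⟨-, h5⟩, h6⟩
        exact ⟨h6, h5⟩
      · rintro ⟨h5, h6⟩
        exact ⟨⟨hul.trans h5, h6⟩, h5⟩
    rw [h4, Int.card_Ico, ← zpow_natCast (C.toSquareBlock e u).det W, ← zpow_natCast _ M,
      ← zpow_mul, ← zpow_natCast _ (e j1 - u).toNat, ← zpow_mul, ← zpow_add₀ (hd u hu),
      Int.toNat_of_nonneg (sub_nonneg.2 hul'), hW]
    congr 1
    ring
  rw [Finset.prod_congr rfl h3, hdet, Finset.prod_pow]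


end Pool.Agent.Helper91.CM
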