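import Pool.Agent.Helper91.CM.KodA
import Pool.Agent.Helper91.CX.Stm2

/-!
The family of the tensors on a distribution, its invariants, and local optimal frames.
-/

set_option autoImplicit false
set_option linter.unusedSectionVars false

namespace Pool.Agent.Helper91.CX

open Metric Set Topology Module
open scoped Manifold ContDiff
open Pool.Agent.Helper12.BL Pool.Agent.Helper91.HM Pool.Agent.Helper91.EF Pool.Agent.Helper91.CM
open Pool.Agent.Helper91.HM.Tw (lt lt_lt lt_one lt_li)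

variable {n : ℕ} {X : Type} [TopologicalSpace X] [ChartedSpace (Fin n → ℂ) X]
  {M : Set X} {𝓕 : Ch n X → X → Submodule ℂ (Fin n → ℂ)} {r D : ℕ}

section frames

theorem mv_eq_lt {m : ℕ} (C : Matrix (Fin r) (Fin r) ℂ) (e : Fin r → Fin m → ℂ) :
    mv C e = lt C e := rfl

theorem span_lt {V : Type} [AddCommGroup V] [Module ℂ V] {C : Matrix (Fin r) (Fin r) ℂ}
    (hC : C.det ≠ 0) (e : Fin r → V) :
    Submodule.span ℂ (range (lt C e)) = Submodule.span ℂ (range e) := by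
  have key : ∀ (C : Matrix (Fin r) (Fin r) ℂ) (e : Fin r → V),
      Submodule.span ℂ (range (lt C e)) ≤ Submodule.span ℂ (range e) := by
    intro C e
    rw [Submodule.span_le]
    rintro _ ⟨i, rfl⟩
    exact Submodule.sum_mem _ fun j _ => Submodule.smul_mem _ _ (Submodule.subset_span ⟨j, rfl⟩)
  refine le_antisymm (key _ _) ?_
  have h1 := key C⁻¹ (lt C e)
  rwa [lt_lt, Matrix.nonsing_inv_mul _ (isUnit_iff_ne_zero.2 hC), lt_one] at h1

theorem fr_mv {φ : Ch n X} {x : X} {e : Fin r → Fin n → ℂ} (h : Fr 𝓕 φ x e)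
    {C : Matrix (Fin r) (Fin r) ℂ} (hC : C.det ≠ 0) : Fr 𝓕 φ x (mv C e) :=
  ⟨lt_li.2 ⟨h.1, hC⟩, (span_lt hC e).trans h.2⟩

theorem fr_exists {φ : Ch n X} {x : X} {e e' : Fin r → Fin n → ℂ} (h : Fr 𝓕 φ x e)
    (h' : Fr 𝓕 φ x e') : ∃ C : Matrix (Fin r) (Fin r) ℂ, C.det ≠ 0 ∧ e' = mv C e := by
  have h1 : ∀ i, ∃ c : Fin r → ℂ, ∑ j, c j • e j = e' i := fun i =>
    mem_span_fam.1 (by
      rw [h.2, ← h'.2]
      exact Submodule.subset_span ⟨i, rfl⟩)
  choose c hc using h1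
  have h2 : e' = mv (Matrix.of c) e := funext fun i => (hc i).symm
  refine ⟨Matrix.of c, ?_, h2⟩
  have h3 := h'.1
  rw [h2] at h3
  exact (lt_li.1 h3).2

end frames

section family

/-- the tensors of positive degree at most `D` on `𝓕` -/
def Ti (M : Set X) (𝓕 : Ch n X → X → Submodule ℂ (Fin n → ℂ)) (r D : ℕ) : Type :=
  {i : Σ N : ℕ, (Ch n X → X → (Fin r → Fin n → ℂ) → (Fin N → Fin r) → ℂ) //
    0 < i.1 ∧ i.1 ≤ D ∧ IsSec (tenL r i.1) M 𝓕 i.2}

/-- the degree -/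
def deg (i : Ti M 𝓕 r D) : ℕ := i.1.1

/-- the coordinates in a frame -/
def TT (φ : Ch n X) (x : X) (e : Fin r → Fin n → ℂ) :
    ∀ i : Ti M 𝓕 r D, (Fin (deg i) → Fin r) → ℂ := fun i => i.1.2 φ x e

theorem TT_mv {φ : Ch n X} (hφ : φ ∈ Charts n X) {x : X} (hx : x ∈ φ.source) (hxM : x ∈ M)
    {e : Fin r → Fin n → ℂ} (he : Fr 𝓕 φ x e) {C : Matrix (Fin r) (Fin r) ℂ} (hC : C.det ≠ 0)
    (i : Ti M 𝓕 r D) : TT φ x (mv C e) i = act C (TT φ x e i) :=
  funext fun J => i.2.2.2.law φ hφ x hx hxM e he C hC J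

theorem TT_nat {φ ψ : Ch n X} (hφ : φ ∈ Charts n X) (hψ : ψ ∈ Charts n X) {x : X}
    (hx : x ∈ φ.source) (hx' : x ∈ ψ.source) (hxM : x ∈ M)
    {e : Fin r → Fin n → ℂ} (he : Fr 𝓕 φ x e) (i : Ti M 𝓕 r D) :
    TT ψ x (fun j => der id φ ψ x (e j)) i = TT φ x e i :=
  i.2.2.2.nat φ hφ ψ hψ x hx hx' hxM e he

theorem TT_hol {φ : Ch n X} (hφ : φ ∈ Charts n X) {W : Set (Fin n → ℂ)}
    {e : (Fin n → ℂ) → Fin r → Fin n → ℂ} (hW : Dom φ M W) (he : Hol W e)
    (hf : ∀ y ∈ W, Fr 𝓕 φ (φ.symm y) (e y)) (i : Ti M 𝓕 r D) (I : Fin (deg i) → Fin r) :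
    DifferentiableOn ℂ (fun y => TT φ (φ.symm y) (e y) i I) W :=
  i.2.2.2.hol φ hφ W e hW he hf I

variable {Q : Type} [Fintype Q] [DecidableEq Q]

/-- the form given by an invariant -/
noncomputable def invF (ν : Q → Ti M 𝓕 r D)
    (p : ((Σ q, Fin (deg (ν q))) → Fin r) → ℝ) :
    Ch n X → X → (Fin r → Fin n → ℂ) → Unit → ℂ :=
  fun φ x e _ => ∑ I, algebraMap ℝ ℂ (p I) * wordT (TT φ x e) ν I

theorem wordT_act {ν : Q → Ti M 𝓕 r D} {p : ((Σ q, Fin (deg (ν q))) → Fin r) → ℝ} (hp : SLInv p)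
    {m : ℕ} (hm : ∀ I', p I' ≠ 0 → ∀ i, (Finset.univ.filter fun k => I' k = i).card = m)
    (T : ∀ i : Ti M 𝓕 r D, (Fin (deg i) → Fin r) → ℂ) (C : Matrix (Fin r) (Fin r) ℂ) :
    ∑ I, algebraMap ℝ ℂ (p I) * wordT (fun i => act C (T i)) ν I =
      C.det ^ m * ∑ I, algebraMap ℝ ℂ (p I) * wordT T ν I := by
  classical
  have h1 : ∀ I, wordT (fun i => act C (T i)) ν I = act C (wordT T ν) I := fun I => by
    rw [act_word]
    rfl
  simp only [h1, act, Finset.mul_sum]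
  rw [Finset.sum_comm]
  refine Finset.sum_congr rfl fun I _ => ?_
  have h6 := hp.semi (K := ℂ) hm C I
  rw [← mul_assoc, ← h6, Finset.sum_mul]
  exact Finset.sum_congr rfl fun J _ => (mul_assoc _ _ _).symm

theorem invF_sec {ν : Q → Ti M 𝓕 r D} {p : ((Σ q, Fin (deg (ν q))) → Fin r) → ℝ} (hp : SLInv p)
    {m : ℕ} (hm : ∀ I', p I' ≠ 0 → ∀ i, (Finset.univ.filter fun k => I' k = i).card = m) :
    IsSec (formL r m) M 𝓕 (invF ν p) := by
  classical
  refine ⟨fun φ hφ x hx hxM e he C hC J => ?_, fun φ hφ ψ hψ x hx hx' hxM e he => ?_,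
    fun φ hφ W e hW he hf I => ?_⟩
  · have h1 : (TT φ x (mv C e) : ∀ i : Ti M 𝓕 r D, (Fin (deg i) → Fin r) → ℂ) =
        fun i => act C (TT φ x e i) := funext fun i => TT_mv hφ hx hxM he hC i
    have h2 : ∑ I : Unit, C.det ^ m * invF ν p φ x e I = C.det ^ m * invF ν p φ x e () :=
      Fintype.sum_unique _
    change ∑ I, algebraMap ℝ ℂ (p I) * wordT (TT φ x (mv C e)) ν I =
      ∑ I : Unit, C.det ^ m * invF ν p φ x e I
    rw [h1, wordT_act hp hm, h2]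
    rfl
  · funext _
    change ∑ I, algebraMap ℝ ℂ (p I) * wordT (TT ψ x _) ν I =
      ∑ I, algebraMap ℝ ℂ (p I) * wordT (TT φ x e) ν I
    refine Finset.sum_congr rfl fun I _ => ?_
    simp only [wordT, TT_nat hφ hψ hx hx' hxM he]
  · change DifferentiableOn ℂ (fun y => ∑ I, algebraMap ℝ ℂ (p I) *
      wordT (TT φ (φ.symm y) (e y)) ν I) W
    refine DifferentiableOn.fun_sum fun I _ => ?_
    refine DifferentiableOn.const_mul ?_ _
    exact dprod _ _ fun q _ => TT_hol hφ hW he hf (ν q) _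

/-- all invariants vanish -/
theorem inv_zero (hr : 0 < r) (hno : ∀ m, 0 < m → NoSec (formL r m) M 𝓕) [Nonempty Q]
    (ν : Q → Ti M 𝓕 r D) {p : ((Σ q, Fin (deg (ν q))) → Fin r) → ℝ} (hp : SLInv p)
    {φ : Ch n X} (hφ : φ ∈ Charts n X) {x : X} (hx : x ∈ φ.source) (hxM : x ∈ M)
    {e : Fin r → Fin n → ℂ} (he : Fr 𝓕 φ x e) :
    ∑ I, algebraMap ℝ ℂ (p I) * wordT (TT φ x e) ν I = 0 := by
  classical
  by_contra hne
  obtain ⟨I0, -, hI0⟩ := Finset.exists_ne_zero_of_sum_ne_zero hne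
  have hpI0 : p I0 ≠ 0 := fun h => hI0 (by rw [h, map_zero, zero_mul])
  obtain ⟨m, hcard, hm⟩ := hp.exists_m hr hpI0
  have hm0 : 0 < m := by
    rw [Nat.pos_iff_ne_zero]
    rintro rfl
    rw [mul_zero, Fintype.card_sigma] at hcard
    obtain ⟨q0⟩ : Nonempty Q := inferInstance
    have h1 := Finset.sum_eq_zero_iff.1 hcard q0 (Finset.mem_univ _)
    rw [Fintype.card_fin] at h1
    exact absurd h1 (ν q0).2.1.ne'
  exact hne (hno m hm0 _ (invF_sec hp hm) φ hφ x hx hxM e he ())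

end family

section ring

/-- the ring of the holomorphic functions on `W` -/
def HR (W : Set (Fin n → ℂ)) : Subalgebra ℝ (W → ℂ) where
  carrier := {f | ∃ g : (Fin n → ℂ) → ℂ, DifferentiableOn ℂ g W ∧ ∀ y : W, g y = f y}
  mul_mem' := by
    rintro _ _ ⟨g, hg, h⟩ ⟨g', hg', h'⟩
    refine ⟨fun y => g y * g' y, hg.mul hg', fun y => ?_⟩
    change g y * g' y = _
    rw [h, h']
    rfl
  add_mem' := by
    rintro _ _ ⟨g, hg, h⟩ ⟨g', hg', h'⟩
    refine ⟨fun y => g y + g' y, hg.add hg', fun y => ?_⟩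
    change g y + g' y = _
    rw [h, h']
    rfl
  algebraMap_mem' := fun c => ⟨fun _ => (c : ℂ), differentiableOn_const _, fun _ => rfl⟩

/-- evaluation -/
noncomputable def evH (W : Set (Fin n → ℂ)) (y : W) : HR W →+* ℂ :=
  (Pi.evalRingHom (fun _ : W => ℂ) y).comp (HR W).subtype

theorem hr_domain (hid : S_Id) {W : Set (Fin n → ℂ)} (hW : IsOpen W) (hW1 : W.Nonempty)
    (hW2 : IsPreconnected W) : IsDomain (HR W) := by
  have hnt : Nontrivial (HR W) := by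
    obtain ⟨y, hy⟩ := hW1
    refine ⟨0, 1, fun h => ?_⟩
    have h1 := congrArg (evH W ⟨y, hy⟩) h
    rw [map_zero, map_one] at h1
    exact zero_ne_one h1
  have hnz : NoZeroDivisors (HR W) := by
    refine ⟨fun {a b} hab => ?_⟩
    by_contra hcon
    rw [not_or] at hcon
    obtain ⟨ha, hb⟩ := hcon
    obtain ⟨f, f', hf, hff⟩ := a
    obtain ⟨g, g', hg, hgg⟩ := b
    obtain ⟨y, hy⟩ : ∃ y : W, f y ≠ 0 := by
      by_contra hcon
      push Not at hcon
      exact ha (Subtype.ext (funext hcon))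
    apply hb
    apply Subtype.ext
    funext z
    change g z = 0
    rw [← hgg]
    refine hid n g' W hW hW2 hg ⟨y, y.2, ?_⟩ z z.2
    have h1 : ContinuousAt f' y := (hf.continuousOn).continuousAt (hW.mem_nhds y.2)
    have h2 : ∀ᶠ z in 𝓝 (y : Fin n → ℂ), f' z ≠ 0 := h1.eventually_ne (by rw [hff]; exact hy)
    filter_upwards [h2, hW.mem_nhds y.2] with z hz hzW
    have h3 := congrArg (evH W ⟨z, hzW⟩) hab
    rw [map_mul, map_zero] at h3
    rcases mul_eq_zero.1 h3 with h4 | h4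
    · exact absurd ((hff ⟨z, hzW⟩).trans h4) hz
    · exact (hgg ⟨z, hzW⟩).trans h4
  exact @IsDomain.mk _ _ hnz.toIsCancelMulZero hnt

end ring

end Pool.Agent.Helper91.CX
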