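import Pool.Agent.Helper91.CM.Flag1

/-!
Local optimal frames.
-/

set_option autoImplicit false
set_option linter.unusedSectionVars false

namespace Pool.Agent.Helper91.CX

open Metric Set Topology Module
open scoped Manifold ContDiff
open Pool.Agent.Helper12.BL Pool.Agent.Helper91.HM Pool.Agent.Helper91.EF Pool.Agent.Helper91.CM
open Pool.Agent.Helper91.HM.Tw (lt lt_lt lt_one lt_li)

theorem dest_perm {F V : Type} [Field F] [AddCommGroup V] [Module F V] {m : ℕ}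
    {𝒮 : ∀ d : ℕ, Set (MultilinearMap F (fun _ : Fin d => V) F)} {g : Fin m → V} {a : Fin m → ℝ}
    (h : Dest 𝒮 g a) (σ : Equiv.Perm (Fin m)) : Dest 𝒮 (g ∘ σ) (a ∘ σ) := by
  refine ⟨h.1.comp _ σ.injective, ?_, ?_, fun d s hs J hne => h.2.2.2 d s hs (fun k => σ (J k)) hne⟩
  · rw [Set.range_comp, σ.surjective.range_eq, Set.image_univ]
    exact h.2.1
  · rw [← h.2.2.1]
    exact Equiv.sum_comp σ a

theorem exists_sort {m : ℕ} (a : Fin m → ℝ) : ∃ σ : Equiv.Perm (Fin m), Antitone (a ∘ σ) := by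
  refine ⟨Tuple.sort (fun j => -a j), fun i j hij => ?_⟩
  have := Tuple.monotone_sort (fun j => -a j) hij
  simp only [Function.comp_apply] at this ⊢
  linarith

variable {n : ℕ} {X : Type} [TopologicalSpace X] [ChartedSpace (Fin n → ℂ) X]
  {M : Set X} {𝓕 : Ch n X → X → Submodule ℂ (Fin n → ℂ)} {r D : ℕ}

/-- optimal frames -/
def OptFr (M : Set X) (𝓕 : Ch n X → X → Submodule ℂ (Fin n → ℂ)) (r D : ℕ) (a : Fin r → ℝ)
    (φ : Ch n X) (x : X) (g : Fin r → Fin n → ℂ) : Prop :=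
  Fr 𝓕 φ x g ∧ Opt (TT (M := M) (𝓕 := 𝓕) (r := r) (D := D) φ x g) a

theorem local_opt (hid : S_Id) (hr : 0 < r) (hno : ∀ m, 0 < m → NoSec (formL r m) M 𝓕)
    {φ : Ch n X} (hφ : φ ∈ Charts n X) {W : Set (Fin n → ℂ)} (hW : Dom φ M W)
    (hW1 : W.Nonempty) (hW2 : IsPreconnected W) {e : (Fin n → ℂ) → Fin r → Fin n → ℂ}
    (he : Hol W e) (hf : ∀ y ∈ W, Fr 𝓕 φ (φ.symm y) (e y)) :
    ∃ (f : (Fin n → ℂ) → ℂ) (h : (Fin n → ℂ) → Matrix (Fin r) (Fin r) ℂ) (a : Fin r → ℝ),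
      Antitone a ∧ DifferentiableOn ℂ f W ∧ (∀ i j, DifferentiableOn ℂ (fun y => h y i j) W) ∧
      (∃ y ∈ W, f y ≠ 0) ∧ ∀ y ∈ W, f y ≠ 0 → (h y).det ≠ 0 ∧
        OptFr M 𝓕 r D a φ (φ.symm y) (mv (h y) (e y)) := by
  classical
  have hdom : IsDomain (HR W) := hr_domain hid hW.1 hW1 hW2
  let T : ∀ i : Ti M 𝓕 r D, (Fin (deg i) → Fin r) → HR W := fun i I =>
    ⟨fun y => TT φ (φ.symm y) (e y) i I, fun y => TT φ (φ.symm y) (e y) i I,
      TT_hol hφ hW he hf i I, fun _ => rfl⟩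
  have hNI : NoInv (K := FractionRing (HR W))
      (fun i I => algebraMap (HR W) (FractionRing (HR W)) (T i I)) := by
    intro Q _ _ _ ν p hp
    have h1 : ∑ I, algebraMap ℝ (HR W) (p I) * wordT T ν I = 0 := by
      apply Subtype.ext
      funext y
      have h2 : evH W y (∑ I, algebraMap ℝ (HR W) (p I) * wordT T ν I) =
          ∑ I, algebraMap ℝ ℂ (p I) * wordT (TT φ (φ.symm y) (e y)) ν I := by
        rw [map_sum]
        refine Finset.sum_congr rfl fun I _ => ?_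
        rw [map_mul, wordT, map_prod]
        rfl
      rw [inv_zero hr hno ν hp hφ (φ.map_target (hW.2.1 y.2)) (hW.2.2 y y.2) (hf y y.2)] at h2
      exact h2
    have h2 := congrArg (algebraMap (HR W) (FractionRing (HR W))) h1
    rw [map_sum, map_zero] at h2
    rw [← h2]
    refine Finset.sum_congr rfl fun I _ => ?_
    rw [map_mul, wordT, wordT, map_prod, ← IsScalarTower.algebraMap_apply ℝ (HR W)]
  obtain ⟨f, h, a, hf0, hmain⟩ := gen_flag hr (fun i : Ti M 𝓕 r D => i.2.2.1) T hNI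
  obtain ⟨σ, hσ⟩ := exists_sort a
  obtain ⟨f, f', hf', hff⟩ := f
  have hh : ∀ j l, ∃ g : (Fin n → ℂ) → ℂ, DifferentiableOn ℂ g W ∧
      ∀ y : W, g y = (h j l).1 y := fun j l => (h j l).2
  choose h' hh' hh'' using hh
  refine ⟨f', fun y => Matrix.of fun i j => h' (σ i) j y, a ∘ σ, hσ, hf', fun i j => hh' _ _,
    ?_, fun y hy hne => ?_⟩
  · by_contra hcon
    push Not at hcon
    apply hf0
    apply Subtype.ext
    funext y
    change f y = 0
    rw [← hff, hcon y y.2]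
  · have h1 : evH W ⟨y, hy⟩ ⟨f, f', hf', hff⟩ ≠ 0 := by
      change f ⟨y, hy⟩ ≠ 0
      rw [← hff]
      exact hne
    obtain ⟨h2, h3⟩ := hmain (evH W ⟨y, hy⟩) h1
    have h4 := dest_perm h2 σ
    obtain ⟨g, hg⟩ : ∃ g : Matrix (Fin r) (Fin r) ℂ, g = Matrix.of fun i j => h' (σ i) j y :=
      ⟨_, rfl⟩
    have h5 : ((fun j l => evH W ⟨y, hy⟩ (h j l)) ∘ σ : Fin r → Fin r → ℂ) = fun j => g j := by
      funext i l
      rw [hg]
      exact (hh'' (σ i) l ⟨y, hy⟩).symm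
    rw [h5] at h4
    have h6 : Dest (famE (TT (M := M) (𝓕 := 𝓕) (r := r) (D := D) φ (φ.symm y) (e y))
        (RingHom.id ℂ)) (fun j => g j) (a ∘ σ) := h4
    have h7 : g.det ≠ 0 := (dest_famE.1 h6).1
    change (Matrix.of fun i j => h' (σ i) j y).det ≠ 0 ∧ OptFr M 𝓕 r D (a ∘ σ) φ (φ.symm y)
      (mv (Matrix.of fun i j => h' (σ i) j y) (e y))
    rw [← hg]
    refine ⟨h7, fr_mv (hf y hy) h7, ?_⟩
    have h8 : (TT φ (φ.symm y) (mv g (e y)) : ∀ i : Ti M 𝓕 r D, (Fin (deg i) → Fin r) → ℂ) =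
        fun i => act g (TT φ (φ.symm y) (e y) i) := funext fun i =>
      TT_mv hφ (φ.map_target (hW.2.1 hy)) (hW.2.2 y hy) (hf y hy) h7 i
    rw [h8]
    refine opt_of_dest h6 fun e' b he' => ?_
    have h9 : ∑ j, (a ∘ σ) j ^ 2 = ∑ j, a j ^ 2 := Equiv.sum_comp σ fun j => a j ^ 2
    rw [h9]
    exact h3 e' b he'

end Pool.Agent.Helper91.CX
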