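import Pool.Agent.Helper91.CM.Flag2

/-!
Naturality of optimal frames, uniqueness of the weights.
-/

set_option autoImplicit false
set_option linter.unusedSectionVars false

namespace Pool.Agent.Helper91.CX

open Metric Set Topology Module
open scoped Manifold ContDiff
open Pool.Agent.Helper12.BL Pool.Agent.Helper91.HM Pool.Agent.Helper91.EF Pool.Agent.Helper91.CM
open Pool.Agent.Helper91.HM.Tw (lt lt_lt lt_one lt_li)

theorem form_cast {K : Type} [Field K] {m d d' : ℕ} (h : d' = d) (t : (Fin d' → Fin m) → K)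
    (y : Fin d → Fin m → K) :
    form (fun I : Fin d → Fin m => t (fun k => I (Fin.cast h k))) y =
      form t (fun k => y (Fin.cast h k)) := by
  subst h
  rfl

theorem opt_congr {K : Type} [Field K] {m : ℕ} {ι ι' : Type} {N : ι → ℕ} {N' : ι' → ℕ}
    {T : ∀ i, (Fin (N i) → Fin m) → K} {T' : ∀ i, (Fin (N' i) → Fin m) → K} {a : Fin m → ℝ}
    (h : famE T (RingHom.id K) = famE T' (RingHom.id K)) (hT : Opt T a) : Opt T' a := by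
  unfold Opt at *
  rw [← h]
  exact hT

variable {n : ℕ} {X : Type} [TopologicalSpace X] [ChartedSpace (Fin n → ℂ) X]
  [IsManifold 𝓘(ℂ, Fin n → ℂ) ω X]
  {M : Set X} {𝓕 : Ch n X → X → Submodule ℂ (Fin n → ℂ)} {r D : ℕ}

theorem fam_le {φ ψ : Ch n X} {x x' : X} {e e' : Fin r → Fin n → ℂ}
    (P : Ti M 𝓕 r D → Ti M 𝓕 r D)
    (h : ∀ i, ∃ h : deg (P i) = deg i, ∀ I, TT φ x e i I =
      TT ψ x' e' (P i) (fun k => I (Fin.cast h k))) (d : ℕ) :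
    famE (TT (M := M) (𝓕 := 𝓕) (r := r) (D := D) φ x e) (RingHom.id ℂ) d ⊆
      famE (TT (M := M) (𝓕 := 𝓕) (r := r) (D := D) ψ x' e') (RingHom.id ℂ) d := by
  rintro s ⟨i, hi, hs⟩
  obtain ⟨h1, h2⟩ := h i
  refine ⟨P i, h1.trans hi, fun y => ?_⟩
  rw [hs]
  subst hi
  simp only [RingHom.id_apply]
  have h3 : (fun I => TT φ x e i I) = fun I => TT ψ x' e' (P i) (fun k => I (Fin.cast h1 k)) :=
    funext h2
  rw [h3]
  exact form_cast h1 _ _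

/-- the identity -/
noncomputable def idA : Aut n X := Diffeomorph.refl 𝓘(ℂ, Fin n → ℂ) X ω

theorem coe_idA : ((idA : Aut n X) : X → X) = id := rfl

theorem der_inj (hCh : S_Chart n X) (F : Aut n X) {φ ψ : Ch n X} (hφ : φ ∈ Charts n X)
    (hψ : ψ ∈ Charts n X) {x : X} (hx : x ∈ φ.source) (hFx : F x ∈ ψ.source) :
    Function.Injective (der F φ ψ x) := fun v w h => by
  have h1 := (hCh.2.2.1 F φ hφ ψ hψ x hx hFx v).1
  have h2 := (hCh.2.2.1 F φ hφ ψ hψ x hx hFx w).1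
  rw [← h1, ← h2, h]

theorem fr_der (hCh : S_Chart n X) (hd : IsDist M 𝓕 r) (F : Aut n X) {φ ψ : Ch n X}
    (hφ : φ ∈ Charts n X) (hψ : ψ ∈ Charts n X) {x : X} (hx : x ∈ φ.source) (hxM : x ∈ M)
    (hFx : F x ∈ ψ.source) {g : Fin r → Fin n → ℂ} (hg : Fr 𝓕 φ x g) :
    Fr 𝓕 ψ (F x) (fun i => der F φ ψ x (g i)) := by
  refine ⟨hg.1.map' (der F φ ψ x : (Fin n → ℂ) →ₗ[ℂ] (Fin n → ℂ))
    (LinearMap.ker_eq_bot.2 (der_inj hCh F hφ hψ hx hFx)), ?_⟩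
  rw [hd.nat F φ hφ ψ hψ x hx hxM hFx, ← hg.2, Submodule.map_span, ← Set.range_comp]
  rfl

theorem opt_der (hCh : S_Chart n X) (hPull : S_Pull n X) (hd : IsDist M 𝓕 r) (F : Aut n X)
    {φ ψ : Ch n X} (hφ : φ ∈ Charts n X) (hψ : ψ ∈ Charts n X) {x : X} (hx : x ∈ φ.source)
    (hxM : x ∈ M) (hFx : F x ∈ ψ.source) {a : Fin r → ℝ} {g : Fin r → Fin n → ℂ}
    (hg : OptFr M 𝓕 r D a φ x g) :
    OptFr M 𝓕 r D a ψ (F x) (fun i => der F φ ψ x (g i)) := by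
  have hfr := fr_der hCh hd F hφ hψ hx hxM hFx hg.1
  have hFM : F x ∈ M := hd.inv F x hxM
  refine ⟨hfr, opt_congr ?_ hg.2⟩
  funext d
  refine Set.Subset.antisymm ?_ ?_
  · refine fam_le (fun i => ⟨⟨i.1.1, pull F.symm i.1.2⟩, i.2.1, i.2.2.1,
      (hPull M 𝓕 r (tenL r i.1.1) i.1.2 F.symm hd i.2.2.2).1⟩) (fun i => ⟨rfl, fun I => ?_⟩) d
    have h1 := (hPull M 𝓕 r (tenL r i.1.1) i.1.2 F.symm hd i.2.2.2).2 ψ hψ φ hφ (F x) hFx hFM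
      (by rw [F.symm_apply_apply]; exact hx) _ hfr
    have h2 : (fun j => der F.symm ψ φ (F x) (der F φ ψ x (g j))) = g :=
      funext fun j => (hCh.2.2.1 F φ hφ ψ hψ x hx hFx (g j)).1
    rw [F.symm_apply_apply, h2] at h1
    exact (congrFun h1 I).symm
  · refine fam_le (fun i => ⟨⟨i.1.1, pull F i.1.2⟩, i.2.1, i.2.2.1,
      (hPull M 𝓕 r (tenL r i.1.1) i.1.2 F hd i.2.2.2).1⟩) (fun i => ⟨rfl, fun I => ?_⟩) d
    have h1 := (hPull M 𝓕 r (tenL r i.1.1) i.1.2 F hd i.2.2.2).2 φ hφ ψ hψ x hx hxM hFx g hg.1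
    exact (congrFun h1 I).symm

/-- optimal frames at a point -/
theorem opt_rel (hr : 0 < r) {φ : Ch n X} (hφ : φ ∈ Charts n X) {x : X} (hx : x ∈ φ.source)
    (hxM : x ∈ M) {a b : Fin r → ℝ} (ha : Antitone a) (hb : Antitone b) {g g' : Fin r → Fin n → ℂ}
    (h : OptFr M 𝓕 r D a φ x g) (h' : OptFr M 𝓕 r D b φ x g') :
    a = b ∧ ∃ C : Matrix (Fin r) (Fin r) ℂ, C.det ≠ 0 ∧ g' = mv C g ∧
      ∀ i j, C i j ≠ 0 → a i ≤ a j := by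
  obtain ⟨C, hC, hg⟩ := fr_exists h.1 h'.1
  have h1 := h'.2
  rw [hg] at h1
  have h2 : (TT φ x (mv C g) : ∀ i : Ti M 𝓕 r D, (Fin (deg i) → Fin r) → ℂ) =
      fun i => act C (TT φ x g i) := funext fun i => TT_mv hφ hx hxM h.1 hC i
  rw [h2] at h1
  obtain ⟨h3, h4⟩ := opt_unique hr h.2 hC h1 ha hb
  exact ⟨h3, C, hC, hg, h4⟩

theorem dense_ne (hid : S_Id) {W : Set (Fin n → ℂ)} (hW : IsOpen W) (hW2 : IsPreconnected W)
    {f : (Fin n → ℂ) → ℂ} (hf : DifferentiableOn ℂ f W) (hne : ∃ y ∈ W, f y ≠ 0) :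
    W ⊆ closure {y | y ∈ W ∧ f y ≠ 0} := by
  intro y hy
  rw [mem_closure_iff_frequently]
  intro hcon
  obtain ⟨z, hz, hfz⟩ := hne
  apply hfz
  refine hid n f W hW hW2 hf ⟨y, hy, ?_⟩ z hz
  filter_upwards [hcon, hW.mem_nhds hy] with w hw hwW
  by_contra h
  exact hw ⟨hwW, h⟩

theorem open_ne {W : Set (Fin n → ℂ)} (hW : IsOpen W) {f : (Fin n → ℂ) → ℂ}
    (hf : DifferentiableOn ℂ f W) : IsOpen {y | y ∈ W ∧ f y ≠ 0} :=
  hf.continuousOn.isOpen_inter_preimage hW isOpen_ne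

/-- a point of a dense subset in an open set -/
theorem dense_chart {φ : Ch n X} {x : X} (hx : x ∈ φ.source) {U : Set X} (hU : IsOpen U)
    (hxU : x ∈ U) {S : Set (Fin n → ℂ)} (hS : φ x ∈ closure S) :
    ∃ y ∈ S, y ∈ φ.target ∧ φ.symm y ∈ U := by
  have h1 : IsOpen (φ.target ∩ φ.symm ⁻¹' U) := φ.isOpen_inter_preimage_symm hU
  obtain ⟨y, hy, hyS⟩ := mem_closure_iff.1 hS _ h1
    ⟨φ.map_source hx, by rw [mem_preimage, φ.left_inv hx]; exact hxU⟩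
  exact ⟨y, hyS, hy.1, hy.2⟩

/-- local data -/
structure LD (M : Set X) (𝓕 : Ch n X → X → Submodule ℂ (Fin n → ℂ)) (r D : ℕ) (a : Fin r → ℝ)
    (φ : Ch n X) (W : Set (Fin n → ℂ)) (e : (Fin n → ℂ) → Fin r → Fin n → ℂ)
    (f : (Fin n → ℂ) → ℂ) (h : (Fin n → ℂ) → Matrix (Fin r) (Fin r) ℂ) : Prop where
  dom : Dom φ M W
  conn : IsPreconnected W
  hole : Hol W e
  fr : ∀ y ∈ W, Fr 𝓕 φ (φ.symm y) (e y)
  holf : DifferentiableOn ℂ f W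
  holh : ∀ i j, DifferentiableOn ℂ (fun y => h y i j) W
  ne : ∃ y ∈ W, f y ≠ 0
  opt : ∀ y ∈ W, f y ≠ 0 → (h y).det ≠ 0 ∧ OptFr M 𝓕 r D a φ (φ.symm y) (mv (h y) (e y))

theorem exists_LD (D : ℕ) (hid : S_Id) (hr : 0 < r) (hno : ∀ m, 0 < m → NoSec (formL r m) M 𝓕)
    (hd : IsDist M 𝓕 r) {φ : Ch n X} (hφ : φ ∈ Charts n X) {x : X} (hx : x ∈ φ.source)
    (hxM : x ∈ M) : ∃ a W e f h, Antitone a ∧ φ x ∈ W ∧ LD M 𝓕 r D a φ W e f h := by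
  obtain ⟨W, e, hW, hxW, he, hf⟩ := hd.frame φ hφ x hx hxM
  obtain ⟨ε, hε, hb⟩ := Metric.isOpen_iff.1 hW.1 _ hxW
  have hW' : Dom φ M (ball (φ x) ε) :=
    ⟨isOpen_ball, hb.trans hW.2.1, fun y hy => hW.2.2 y (hb hy)⟩
  have hxb : φ x ∈ ball (φ x) ε := mem_ball_self hε
  obtain ⟨f, h, a, ha, h1, h2, h3, h4⟩ := local_opt (D := D) hid hr hno hφ hW' ⟨_, hxb⟩
    (convex_ball _ _).isPreconnected (fun i j => (he i j).mono hb) fun y hy => hf y (hb hy)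
  exact ⟨a, _, e, f, h, ha, hxb, ⟨hW', (convex_ball _ _).isPreconnected,
    fun i j => (he i j).mono hb, fun y hy => hf y (hb hy), h1, h2, h3, h4⟩⟩

theorem LD_unique (hid : S_Id) (hCh : S_Chart n X) (hPull : S_Pull n X) (hr : 0 < r)
    (hd : IsDist M 𝓕 r) {a b : Fin r → ℝ} (ha : Antitone a) (hb : Antitone b) {φ φ' : Ch n X}
    (hφ : φ ∈ Charts n X) (hφ' : φ' ∈ Charts n X) {W W' : Set (Fin n → ℂ)}
    {e e' : (Fin n → ℂ) → Fin r → Fin n → ℂ} {f f' : (Fin n → ℂ) → ℂ}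
    {h h' : (Fin n → ℂ) → Matrix (Fin r) (Fin r) ℂ} (h1 : LD M 𝓕 r D a φ W e f h)
    (h2 : LD M 𝓕 r D b φ' W' e' f' h') {x : X} (hx : x ∈ φ.source) (hx' : x ∈ φ'.source)
    (hxW : φ x ∈ W) (hxW' : φ' x ∈ W') : a = b := by
  have hU1 : IsOpen (φ.source ∩ φ ⁻¹' W) := φ.isOpen_inter_preimage h1.dom.1
  have hU2 : IsOpen (φ'.source ∩ φ' ⁻¹' W') := φ'.isOpen_inter_preimage h2.dom.1
  obtain ⟨y, hy, hyt, hyU⟩ := dense_chart hx (hU1.inter hU2) ⟨⟨hx, hxW⟩, hx', hxW'⟩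
    (dense_ne hid h1.dom.1 h1.conn h1.holf h1.ne hxW)
  have hO1 : IsOpen (φ.source ∩ φ ⁻¹' {y | y ∈ W ∧ f y ≠ 0}) :=
    φ.isOpen_inter_preimage (open_ne h1.dom.1 h1.holf)
  obtain ⟨z, hz, hzt, hzU⟩ := dense_chart (φ := φ') (x := φ.symm y) hyU.2.1
    ((hU1.inter hU2).inter hO1) ⟨hyU, φ.map_target hyt, by
      rw [mem_preimage, φ.right_inv hyt]
      exact hy⟩ (dense_ne hid h2.dom.1 h2.conn h2.holf h2.ne hyU.2.2)
  obtain ⟨x2, hx2⟩ : ∃ x2, x2 = φ'.symm z := ⟨_, rfl⟩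
  rw [← hx2] at hzU
  obtain ⟨⟨⟨h3, h4⟩, h5, h6⟩, -, h7⟩ := hzU
  have h8 := h1.opt (φ x2) h7.1 h7.2
  have h9 := h2.opt z hz.1 hz.2
  rw [φ.left_inv h3] at h8
  rw [← hx2] at h9
  have hM : x2 ∈ M := by
    have := h2.dom.2.2 z hz.1
    rwa [← hx2] at this
  have h10 := opt_der hCh hPull hd idA hφ' hφ (x := x2) h5 hM h3 h9.2
  exact (opt_rel hr hφ h3 hM ha hb h8.2 h10).1

theorem exists_a (D : ℕ) (hid : S_Id) (hCh : S_Chart n X) (hPull : S_Pull n X) (hr : 0 < r)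
    (hno : ∀ m, 0 < m → NoSec (formL r m) M 𝓕) (hd : IsDist M 𝓕 r) (hM : IsPreconnected M)
    (hM1 : M.Nonempty) : ∃ a : Fin r → ℝ, Antitone a ∧ ∀ φ ∈ Charts n X, ∀ x ∈ φ.source, x ∈ M →
      ∃ W e f h, φ x ∈ W ∧ LD M 𝓕 r D a φ W e f h := by
  classical
  let O : (Fin r → ℝ) → Set X := fun a => {x | Antitone a ∧ ∃ φ ∈ Charts n X, x ∈ φ.source ∧
    ∃ W e f h, φ x ∈ W ∧ LD M 𝓕 r D a φ W e f h}
  have hO : ∀ a, IsOpen (O a) := by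
    intro a
    rw [isOpen_iff_mem_nhds]
    rintro x ⟨ha, φ, hφ, hx, W, e, f, h, hxW, hLD⟩
    refine Filter.mem_of_superset ((φ.isOpen_inter_preimage hLD.dom.1).mem_nhds ⟨hx, hxW⟩) ?_
    rintro y ⟨hy, hyW⟩
    exact ⟨ha, φ, hφ, hy, W, e, f, h, hyW, hLD⟩
  have hdis : ∀ a b x, x ∈ O a → x ∈ O b → a = b := by
    rintro a b x ⟨ha, φ, hφ, hx, W, e, f, h, hxW, hLD⟩ ⟨hb, φ', hφ', hx', W', e', f', h', hxW', hLD'⟩
    exact LD_unique hid hCh hPull hr hd ha hb hφ hφ' hLD hLD' hx hx' hxW hxW'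
  have hcov : ∀ φ ∈ Charts n X, ∀ x ∈ φ.source, x ∈ M → ∃ a, x ∈ O a ∧
      ∃ W e f h, φ x ∈ W ∧ LD M 𝓕 r D a φ W e f h := by
    intro φ hφ x hx hxM
    obtain ⟨a, W, e, f, h, ha, hxW, hLD⟩ := exists_LD D hid hr hno hd hφ hx hxM
    exact ⟨a, ⟨ha, φ, hφ, hx, W, e, f, h, hxW, hLD⟩, W, e, f, h, hxW, hLD⟩
  have hcov' : ∀ x ∈ M, ∃ a, x ∈ O a := fun x hx => by
    obtain ⟨a, ha, -⟩ := hcov (chartAt (Fin n → ℂ) x) (IsManifold.chart_mem_maximalAtlas x) x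
      (mem_chart_source _ x) hx
    exact ⟨a, ha⟩
  obtain ⟨x0, hx0⟩ := hM1
  obtain ⟨a, hxa⟩ := hcov' x0 hx0
  have hsub : M ⊆ O a := by
    refine hM.subset_left_of_subset_union (hO a) (isOpen_iUnion fun b : {b // b ≠ a} => hO b.1)
      ?_ ?_ ⟨x0, hx0, hxa⟩
    · rw [Set.disjoint_left]
      intro x hx hx'
      obtain ⟨b, hb⟩ := mem_iUnion.1 hx'
      exact b.2 (hdis _ _ x hb hx)
    · intro x hx
      obtain ⟨b, hb⟩ := hcov' x hx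
      by_cases hba : b = a
      · exact Or.inl (hba ▸ hb)
      · exact Or.inr (mem_iUnion.2 ⟨⟨b, hba⟩, hb⟩)
  refine ⟨a, hxa.1, fun φ hφ x hx hxM => ?_⟩
  obtain ⟨b, hb, h1⟩ := hcov φ hφ x hx hxM
  rwa [hdis b a x hb (hsub hxM)] at h1

end Pool.Agent.Helper91.CX
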