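import Pool.Agent.Helper91.CM.Flag3

/-!
The members of the flag and their saturations.
-/

set_option autoImplicit false
set_option linter.unusedSectionVars false

namespace Pool.Agent.Helper91.CX

open Metric Set Topology Module
open scoped Manifold ContDiff
open Pool.Agent.Helper12.BL Pool.Agent.Helper91.HM Pool.Agent.Helper91.EF Pool.Agent.Helper91.CM
open Pool.Agent.Helper91.HM.Tw (lt lt_lt lt_one lt_li)

section lin

/-- the first vectors -/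
def fst {r m k : ℕ} (hk : k ≤ r) (g : Fin r → Fin m → ℂ) : Fin k → Fin m → ℂ :=
  fun i => g (Fin.castLE hk i)

/-- the corner -/
def cor {r k : ℕ} (hk : k ≤ r) (C : Matrix (Fin r) (Fin r) ℂ) : Matrix (Fin k) (Fin k) ℂ :=
  C.submatrix (Fin.castLE hk) (Fin.castLE hk)

theorem sum_fst {r k : ℕ} {V : Type} [AddCommMonoid V] (hk : k ≤ r) (f : Fin r → V)
    (hf : ∀ j : Fin r, k ≤ (j : ℕ) → f j = 0) : ∑ j, f j = ∑ j : Fin k, f (Fin.castLE hk j) := by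
  classical
  have h1 : ∑ j : Fin k, f (Fin.castLE hk j) =
      ∑ j ∈ Finset.univ.map (Fin.castLEEmb hk), f j := by
    rw [Finset.sum_map]
    rfl
  rw [h1]
  symm
  refine Finset.sum_subset (Finset.subset_univ _) fun j _ hj => hf j ?_
  by_contra hlt
  rw [not_le] at hlt
  exact hj (Finset.mem_map.2 ⟨⟨j, hlt⟩, Finset.mem_univ _, rfl⟩)

theorem fst_mv {r m k : ℕ} (hk : k ≤ r) {C : Matrix (Fin r) (Fin r) ℂ}
    (hC : ∀ i j : Fin r, C i j ≠ 0 → (i : ℕ) < k → (j : ℕ) < k) (g : Fin r → Fin m → ℂ) :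
    fst hk (mv C g) = mv (cor hk C) (fst hk g) := by
  funext i
  refine sum_fst hk (fun j => C (Fin.castLE hk i) j • g j) fun j hj => ?_
  have h1 : C (Fin.castLE hk i) j = 0 := by
    by_contra hne
    have := hC _ _ hne i.2
    omega
  change C (Fin.castLE hk i) j • g j = 0
  rw [h1, zero_smul]

theorem fst_span_le {r m k : ℕ} (hk : k ≤ r) {C : Matrix (Fin r) (Fin r) ℂ}
    (hC : ∀ i j : Fin r, C i j ≠ 0 → (i : ℕ) < k → (j : ℕ) < k) (g : Fin r → Fin m → ℂ) :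
    Submodule.span ℂ (range (fst hk (mv C g))) ≤ Submodule.span ℂ (range (fst hk g)) := by
  rw [fst_mv hk hC, Submodule.span_le]
  rintro _ ⟨i, rfl⟩
  exact Submodule.sum_mem _ fun j _ => Submodule.smul_mem _ _ (Submodule.subset_span ⟨j, rfl⟩)

theorem fst_li {r m k : ℕ} (hk : k ≤ r) {g : Fin r → Fin m → ℂ} (hg : LinearIndependent ℂ g) :
    LinearIndependent ℂ (fst hk g) := hg.comp _ (Fin.castLE_injective hk)

/-- the member with the number `k` -/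
def Adm {r : ℕ} (a : Fin r → ℝ) (k : ℕ) : Prop := ∀ i j : Fin r, (i : ℕ) < k → k ≤ (j : ℕ) → a j < a i

theorem adm_block {r k : ℕ} {a : Fin r → ℝ} (ha : Adm a k) {C : Matrix (Fin r) (Fin r) ℂ}
    (hC : ∀ i j, C i j ≠ 0 → a i ≤ a j) (i j : Fin r) (hij : C i j ≠ 0) (hi : (i : ℕ) < k) :
    (j : ℕ) < k := by
  by_contra hlt
  rw [not_lt] at hlt
  exact absurd (ha i j hi hlt) (not_lt.2 (hC i j hij))

end lin

variable {n : ℕ} {X : Type} [TopologicalSpace X] [ChartedSpace (Fin n → ℂ) X]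

/-- the points with holomorphic optimal frames -/
def Good (M : Set X) (𝓕 : Ch n X → X → Submodule ℂ (Fin n → ℂ)) (r D : ℕ) (a : Fin r → ℝ) :
    Set X :=
  {x | ∃ φ ∈ Charts n X, x ∈ φ.source ∧ ∃ (W : Set (Fin n → ℂ))
    (g : (Fin n → ℂ) → Fin r → Fin n → ℂ), Dom φ M W ∧ φ x ∈ W ∧ Hol W g ∧
      ∀ y ∈ W, OptFr M 𝓕 r D a φ (φ.symm y) (g y)}

/-- the members of the flag -/
def Mem (M : Set X) (𝓕 : Ch n X → X → Submodule ℂ (Fin n → ℂ)) (r D : ℕ) (a : Fin r → ℝ)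
    {k : ℕ} (hk : k ≤ r) (φ : Ch n X) (x : X) : Submodule ℂ (Fin n → ℂ) :=
  ⨆ (g : Fin r → Fin n → ℂ) (_ : OptFr M 𝓕 r D a φ x g), Submodule.span ℂ (range (fst hk g))

variable [IsManifold 𝓘(ℂ, Fin n → ℂ) ω X]
  {M : Set X} {𝓕 : Ch n X → X → Submodule ℂ (Fin n → ℂ)} {r D : ℕ}

theorem mem_eqn (hr : 0 < r) {φ : Ch n X} (hφ : φ ∈ Charts n X) {x : X} (hx : x ∈ φ.source)
    (hxM : x ∈ M) {a : Fin r → ℝ} (ha : Antitone a) {k : ℕ} (hk : k ≤ r) (hak : Adm a k)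
    {g : Fin r → Fin n → ℂ} (h : OptFr M 𝓕 r D a φ x g) :
    Mem M 𝓕 r D a hk φ x = Submodule.span ℂ (range (fst hk g)) := by
  refine le_antisymm (iSup₂_le fun g' h' => ?_) (le_iSup₂_of_le g h le_rfl)
  obtain ⟨-, C, -, hg, hC⟩ := opt_rel hr hφ hx hxM ha ha h h'
  rw [hg]
  exact fst_span_le hk (adm_block hak hC) g

theorem good_sub {a : Fin r → ℝ} : Good M 𝓕 r D a ⊆ M := by
  rintro x ⟨φ, -, hx, W, g, hW, hxW, -, -⟩
  have := hW.2.2 _ hxW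
  rwa [φ.left_inv hx] at this

theorem good_open {a : Fin r → ℝ} : IsOpen (Good M 𝓕 r D a) := by
  rw [isOpen_iff_mem_nhds]
  rintro x ⟨φ, hφ, hx, W, g, hW, hxW, hg, hopt⟩
  refine Filter.mem_of_superset ((φ.isOpen_inter_preimage hW.1).mem_nhds ⟨hx, hxW⟩) ?_
  rintro y ⟨hy, hyW⟩
  exact ⟨φ, hφ, hy, W, g, hW, hyW, hg, hopt⟩

theorem good_of {a : Fin r → ℝ} {φ : Ch n X} (hφ : φ ∈ Charts n X) {W : Set (Fin n → ℂ)}
    {g : (Fin n → ℂ) → Fin r → Fin n → ℂ} (hW : Dom φ M W) (hg : Hol W g)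
    (h : ∀ y ∈ W, OptFr M 𝓕 r D a φ (φ.symm y) (g y)) : Dom φ (Good M 𝓕 r D a) W :=
  ⟨hW.1, hW.2.1, fun y hy => ⟨φ, hφ, φ.map_target (hW.2.1 hy), W, g, hW, by
    rw [φ.right_inv (hW.2.1 hy)]
    exact hy, hg, h⟩⟩

/-- the transport of sets -/
theorem tr_mem {F : Aut n X} {φ ψ : Ch n X} {W : Set (Fin n → ℂ)} {z : Fin n → ℂ}
    (hz : z ∈ Tr F φ ψ W) : F.symm (ψ.symm z) ∈ φ.source ∧ φ (F.symm (ψ.symm z)) ∈ W ∧
      F (F.symm (ψ.symm z)) = ψ.symm z ∧ F (F.symm (ψ.symm z)) ∈ ψ.source := by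
  have h1 : F (F.symm (ψ.symm z)) = ψ.symm z := F.apply_symm_apply _
  refine ⟨hz.2.1, hz.2.2, h1, ?_⟩
  rw [h1]
  exact ψ.map_target hz.1

theorem mem_tr {F : Aut n X} {φ ψ : Ch n X} {W : Set (Fin n → ℂ)} {x : X} (hx : x ∈ φ.source)
    (hxW : φ x ∈ W) (hFx : F x ∈ ψ.source) : ψ (F x) ∈ Tr F φ ψ W := by
  refine ⟨ψ.map_source hFx, ?_, ?_⟩
  · rw [ψ.left_inv hFx, F.symm_apply_apply]
    exact hx
  · rw [cc, ψ.left_inv hFx, F.symm_apply_apply]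
    exact hxW

theorem tr_dom (hCh : S_Chart n X) {F : Aut n X} {φ ψ : Ch n X} (hφ : φ ∈ Charts n X)
    (hψ : ψ ∈ Charts n X) (hinv : ∀ x ∈ M, F x ∈ M) {W : Set (Fin n → ℂ)} (hW : Dom φ M W) :
    Dom ψ M (Tr F φ ψ W) := by
  refine ⟨(hCh.2.2.2 F φ hφ ψ hψ W hW.1 hW.2.1).1, fun z hz => hz.1, fun z hz => ?_⟩
  obtain ⟨h1, h2, h3, h4⟩ := tr_mem hz
  rw [← h3]
  refine hinv _ ?_
  have h5 := hW.2.2 _ h2
  rwa [φ.left_inv h1] at h5

theorem good_frame (hCh : S_Chart n X) (hPull : S_Pull n X) (hd : IsDist M 𝓕 r) {a : Fin r → ℝ}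
    (F : Aut n X) {x : X} (hx : x ∈ Good M 𝓕 r D a) {ψ : Ch n X} (hψ : ψ ∈ Charts n X)
    (hFx : F x ∈ ψ.source) : ∃ (W : Set (Fin n → ℂ)) (g : (Fin n → ℂ) → Fin r → Fin n → ℂ),
      Dom ψ M W ∧ ψ (F x) ∈ W ∧ Hol W g ∧ ∀ y ∈ W, OptFr M 𝓕 r D a ψ (ψ.symm y) (g y) := by
  obtain ⟨φ, hφ, hxφ, W, g, hW, hxW, hg, hopt⟩ := hx
  refine ⟨Tr F φ ψ W, _, tr_dom hCh hφ hψ (hd.inv F) hW, mem_tr hxφ hxW hFx,
    (hCh.2.2.2 F φ hφ ψ hψ W hW.1 hW.2.1).2.2 r g hg, fun z hz => ?_⟩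
  obtain ⟨h1, h2, h3, h4⟩ := tr_mem hz
  have h5 := hopt _ h2
  rw [φ.left_inv h1] at h5
  have hM := hW.2.2 _ h2
  rw [φ.left_inv h1] at hM
  have h6 := opt_der hCh hPull hd F hφ hψ h1 hM h4 h5
  rw [h3] at h6
  exact h6

theorem good_frame' (hCh : S_Chart n X) (hPull : S_Pull n X) (hd : IsDist M 𝓕 r) {a : Fin r → ℝ}
    {x : X} (hx : x ∈ Good M 𝓕 r D a) {ψ : Ch n X} (hψ : ψ ∈ Charts n X)
    (hxψ : x ∈ ψ.source) : ∃ (W : Set (Fin n → ℂ)) (g : (Fin n → ℂ) → Fin r → Fin n → ℂ),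
      Dom ψ M W ∧ ψ x ∈ W ∧ Hol W g ∧ ∀ y ∈ W, OptFr M 𝓕 r D a ψ (ψ.symm y) (g y) :=
  good_frame hCh hPull hd idA hx hψ hxψ

theorem good_inv (hCh : S_Chart n X) (hPull : S_Pull n X) (hd : IsDist M 𝓕 r) {a : Fin r → ℝ}
    (F : Aut n X) {x : X} (hx : x ∈ Good M 𝓕 r D a) : F x ∈ Good M 𝓕 r D a := by
  have hψ : chartAt (Fin n → ℂ) (F x) ∈ Charts n X := IsManifold.chart_mem_maximalAtlas _
  have hs := mem_chart_source (Fin n → ℂ) (F x)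
  obtain ⟨W, g, h⟩ := good_frame hCh hPull hd F hx hψ hs
  exact ⟨_, hψ, hs, W, g, h⟩

theorem dist_mem (hCh : S_Chart n X) (hPull : S_Pull n X) (hr : 0 < r) (hd : IsDist M 𝓕 r)
    {a : Fin r → ℝ} (ha : Antitone a) {k : ℕ} (hk : k ≤ r) (hak : Adm a k) :
    IsDist (Good M 𝓕 r D a) (Mem M 𝓕 r D a hk) k := by
  refine ⟨good_open, fun φ hφ x hx hxG => ?_, fun F x hx => good_inv hCh hPull hd F hx,
    fun F φ hφ ψ hψ x hx hxG hFx => ?_⟩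
  · obtain ⟨W, g, hW, hxW, hg, hopt⟩ := good_frame' hCh hPull hd hxG hφ hx
    refine ⟨W, fun y => fst hk (g y), good_of hφ hW hg hopt, hxW, fun i j => hg _ _,
      fun y hy => ⟨fst_li hk (hopt y hy).1.1, ?_⟩⟩
    exact (mem_eqn hr hφ (φ.map_target (hW.2.1 hy)) (hW.2.2 y hy) ha hk hak (hopt y hy)).symm
  · obtain ⟨W, g, hW, hxW, hg, hopt⟩ := good_frame' hCh hPull hd hxG hφ hx
    have h1 := hopt _ hxW
    rw [φ.left_inv hx] at h1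
    have hM := good_sub hxG
    rw [mem_eqn hr hφ hx hM ha hk hak h1, mem_eqn hr hψ hFx (hd.inv F x hM) ha hk hak
      (opt_der hCh hPull hd F hφ hψ hx hM hFx h1), Submodule.map_span, ← Set.range_comp]
    rfl

/-- the first vectors of the frames in the local data -/
theorem LD.good {a : Fin r → ℝ} {φ : Ch n X} (hφ : φ ∈ Charts n X) {W : Set (Fin n → ℂ)}
    {e : (Fin n → ℂ) → Fin r → Fin n → ℂ} {f : (Fin n → ℂ) → ℂ}
    {h : (Fin n → ℂ) → Matrix (Fin r) (Fin r) ℂ} (hL : LD M 𝓕 r D a φ W e f h) :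
    Dom φ (Good M 𝓕 r D a) {y | y ∈ W ∧ f y ≠ 0} :=
  good_of hφ ⟨open_ne hL.dom.1 hL.holf, fun y hy => hL.dom.2.1 hy.1, fun y hy => hL.dom.2.2 y hy.1⟩
    (g := fun y => mv (h y) (e y)) (fun i j => by
      have h1 : (fun y => mv (h y) (e y) i j) = fun y => ∑ l, h y i l * e y l j := by
        funext y
        rw [mv, Finset.sum_apply]
        rfl
      rw [h1]
      refine DifferentiableOn.fun_sum fun l _ => ?_
      exact ((hL.holh i l).mul (hL.hole l j)).mono fun y hy => hy.1)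
    fun y hy => (hL.opt y hy.1 hy.2).2

theorem hol_mv {W : Set (Fin n → ℂ)} {e : (Fin n → ℂ) → Fin r → Fin n → ℂ}
    {h : (Fin n → ℂ) → Matrix (Fin r) (Fin r) ℂ} (he : Hol W e)
    (hh : ∀ i j, DifferentiableOn ℂ (fun y => h y i j) W) : Hol W fun y => mv (h y) (e y) := by
  intro i j
  have h1 : (fun y => mv (h y) (e y) i j) = fun y => ∑ l, h y i l * e y l j := by
    funext y
    rw [mv, Finset.sum_apply]
    rfl
  rw [h1]
  exact DifferentiableOn.fun_sum fun l _ => (hh i l).mul (he l j)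

theorem good_dense (hid : S_Id) {a : Fin r → ℝ} (hex : ∀ φ ∈ Charts n X, ∀ x ∈ φ.source, x ∈ M →
      ∃ W e f h, φ x ∈ W ∧ LD M 𝓕 r D a φ W e f h) : M ⊆ closure (Good M 𝓕 r D a) := by
  intro x hx
  obtain ⟨W, e, f, h, hxW, hL⟩ := hex (chartAt (Fin n → ℂ) x) (IsManifold.chart_mem_maximalAtlas x)
    x (mem_chart_source _ x) hx
  rw [_root_.mem_closure_iff]
  intro U hU hxU
  obtain ⟨y, hy, hyt, hyU⟩ := dense_chart (mem_chart_source (Fin n → ℂ) x) hU hxU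
    (dense_ne hid hL.dom.1 hL.conn hL.holf hL.ne hxW)
  exact ⟨_, hyU, (hL.good (IsManifold.chart_mem_maximalAtlas x)).2.2 y hy⟩

/-- a flag of saturated distributions -/
structure Flg (M : Set X) (𝓕 : Ch n X → X → Submodule ℂ (Fin n → ℂ)) (r D : ℕ) (a : Fin r → ℝ)
    (τ : Type) (k : τ → ℕ) (hk : ∀ t, k t ≤ r) (Mk : τ → Set X)
    (Fk : τ → Ch n X → X → Submodule ℂ (Fin n → ℂ)) : Prop where
  pos : ∀ t, 0 < k t
  ltr : ∀ t, k t < r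
  adm : ∀ t, Adm a (k t)
  all : ∀ j, 0 < j → j < r → Adm a j → ∃ t, k t = j
  dist : ∀ t, IsDist (Mk t) (Fk t) (k t)
  good : ∀ t, Good M 𝓕 r D a ⊆ Mk t
  sub : ∀ t, Mk t ⊆ M
  eqn : ∀ t, ∀ φ ∈ Charts n X, ∀ x ∈ φ.source, x ∈ Good M 𝓕 r D a →
    Fk t φ x = Mem M 𝓕 r D a (hk t) φ x
  rem : Rem n (M ∩ ⋂ t, Mk t) M
  remt : ∀ t, Rem n (Mk t) M
  dense : M ⊆ closure (Good M 𝓕 r D a)

theorem exists_flg (hid : S_Id) (hCh : S_Chart n X) (hPull : S_Pull n X) (hSat : S_Sat n X)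
    (hRem : S_RemOf n X) (hr : 0 < r) (hd : IsDist M 𝓕 r) {a : Fin r → ℝ} (ha : Antitone a)
    (hex : ∀ φ ∈ Charts n X, ∀ x ∈ φ.source, x ∈ M →
      ∃ W e f h, φ x ∈ W ∧ LD M 𝓕 r D a φ W e f h) :
    ∃ (τ : Type) (_ : Finite τ) (k : τ → ℕ) (hk : ∀ t, k t ≤ r) (Mk : τ → Set X)
      (Fk : τ → Ch n X → X → Submodule ℂ (Fin n → ℂ)), Flg M 𝓕 r D a τ k hk Mk Fk := by
  classical
  obtain ⟨τ, hτ⟩ : ∃ τ : Type, τ = {j : Fin r // 0 < (j : ℕ) ∧ Adm a (j : ℕ)} := ⟨_, rfl⟩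
  subst hτ
  have hdense := good_dense hid hex
  have hk : ∀ t : {j : Fin r // 0 < (j : ℕ) ∧ Adm a (j : ℕ)}, ((t.1 : Fin r) : ℕ) ≤ r :=
    fun t => t.1.2.le
  have hsat := fun t : {j : Fin r // 0 < (j : ℕ) ∧ Adm a (j : ℕ)} =>
    hSat M (Good M 𝓕 r D a) (Mem M 𝓕 r D a (hk t)) ((t.1 : Fin r) : ℕ) hd.isOpen hd.inv
      (dist_mem hCh hPull hr hd ha (hk t) t.2.2) good_sub hdense
  choose Mk Fk h1 h2 h3 h4 h5 using hsat
  -- the criterion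
  have hcrit : ∀ φ ∈ Charts n X, ∀ x ∈ φ.source, x ∈ M → ∃ (W : Set (Fin n → ℂ))
      (V : ∀ t : {j : Fin r // 0 < (j : ℕ) ∧ Adm a (j : ℕ)}, (Fin n → ℂ) →
        Fin ((t.1 : Fin r) : ℕ) → Fin n → ℂ), Dom φ M W ∧ φ x ∈ W ∧ (∀ t, Hol W (V t)) ∧
        (∀ t, ∃ᶠ w in 𝓝 (φ x), LinearIndependent ℂ (V t w)) ∧
        ∀ w ∈ W, ∀ t, ExtAt (V t) w → φ.symm w ∈ Mk t := by
    intro φ hφ x hx hxM
    obtain ⟨W, e, f, h, hxW, hL⟩ := hex φ hφ x hx hxM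
    have hdne := dense_ne hid hL.dom.1 hL.conn hL.holf hL.ne
    refine ⟨W, fun t y => fst (hk t) (mv (h y) (e y)), hL.dom, hxW, fun t i j =>
      hol_mv hL.hole hL.holh _ _, fun t => ?_, fun w hw t hext => ?_⟩
    · refine (mem_closure_iff_frequently.1 (hdne hxW)).mono fun y hy => ?_
      exact fst_li _ (hL.opt y hy.1 hy.2).2.1.1
    · obtain ⟨W1, hW1, hwW1, G1, hG1, hG2, hG3⟩ := hext
      refine (h5 t φ hφ (φ.symm w) (φ.map_target (hL.dom.2.1 hw)) (W ∩ W1)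
        ((W ∩ W1) ∩ {y | y ∈ W ∧ f y ≠ 0}) G1
        ⟨hL.dom.1.inter hW1, fun y hy => hL.dom.2.1 hy.1, fun y hy => hL.dom.2.2 y hy.1⟩
        ?_ (fun i j => (hG1 i j).mono inter_subset_right) (fun y hy => hG2 y hy.2) ?_
        inter_subset_left ?_).1
      · rw [φ.right_inv (hL.dom.2.1 hw)]
        exact ⟨hw, hwW1⟩
      · intro y hy
        rw [_root_.mem_closure_iff]
        intro U hU hyU
        obtain ⟨z, hz, hz'⟩ := _root_.mem_closure_iff.1 (hdne hy.1) _ (hU.inter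
          (hL.dom.1.inter hW1)) ⟨hyU, hy⟩
        exact ⟨z, hz.1, hz.2, hz'⟩
      · rintro y ⟨hy, hy'⟩
        have hop := (hL.opt y hy'.1 hy'.2).2
        refine ⟨(hL.good hφ).2.2 y hy', ?_⟩
        rw [mem_eqn hr hφ (φ.map_target (hL.dom.2.1 hy.1)) (hL.dom.2.2 y hy.1) ha (hk t) t.2.2 hop]
        exact hG3 y hy.2 (fst_li _ hop.1.1)
  refine ⟨_, inferInstance, fun t => ((t.1 : Fin r) : ℕ), hk, Mk, Fk, ?_⟩
  constructor
  · exact fun t => t.2.1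
  · exact fun t => t.1.2
  · exact fun t => t.2.2
  · exact fun j hj hjr haj => ⟨⟨⟨j, hjr⟩, hj, haj⟩, rfl⟩
  · exact h1
  · exact h2
  · exact h3
  · exact h4
  · refine hRem M _ hd.isOpen (hd.isOpen.inter (isOpen_iInter_of_finite fun t => (h1 t).isOpen))
      inter_subset_left fun φ hφ x hx hxM => ?_
    obtain ⟨W, V, hW, hxW, hV, hfr, hext⟩ := hcrit φ hφ x hx hxM
    refine ⟨_, inferInstance, _, W, V, hW, hxW, hV, hfr, fun w hw hE => ⟨hW.2.2 w hw, ?_⟩⟩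
    exact mem_iInter.2 fun t => hext w hw t (hE t)
  · intro t
    refine hRem M _ hd.isOpen (h1 t).isOpen (h3 t) fun φ hφ x hx hxM => ?_
    obtain ⟨W, V, hW, hxW, hV, hfr, hext⟩ := hcrit φ hφ x hx hxM
    exact ⟨Unit, inferInstance, fun _ => _, W, fun _ => V t, hW, hxW, fun _ => hV t, fun _ => hfr t,
      fun w hw hE => hext w hw t (hE ())⟩
  · exact hdense

end Pool.Agent.Helper91.CX
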