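import Pool.Agent.Helper91.CM.Flag4
import Pool.Agent.Helper91.CM.CoreB

/-!
Local optimal frames from forms of bounded degree.
-/

set_option autoImplicit false
set_option linter.unusedSectionVars false

namespace Pool.Agent.Helper91.CX

open Metric Set Topology Module
open scoped Manifold ContDiff
open Pool.Agent.Helper12.BL Pool.Agent.Helper91.HM Pool.Agent.Helper91.EF Pool.Agent.Helper91.CM
open Pool.Agent.Helper91.HM.Tw (lt lt_lt lt_one lt_li)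

section

variable {n : ℕ} {X : Type} [TopologicalSpace X] [ChartedSpace (Fin n → ℂ) X]
  {M : Set X} {𝓕 : Ch n X → X → Submodule ℂ (Fin n → ℂ)} {r D : ℕ}

variable {Q : Type} [Fintype Q] [DecidableEq Q]

/-- all invariants vanish -/
theorem inv_zeroB (hr : 0 < r) {B : ℕ}
    (hno : ∀ m, 0 < m → m ≤ B * D → NoSec (formL r m) M 𝓕) [Nonempty Q] (hQ : Fintype.card Q ≤ B)
    (ν : Q → Ti M 𝓕 r D) {p : ((Σ q, Fin (deg (ν q))) → Fin r) → ℝ} (hp : SLInv p)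
    {φ : Ch n X} (hφ : φ ∈ Charts n X) {x : X} (hx : x ∈ φ.source) (hxM : x ∈ M)
    {e : Fin r → Fin n → ℂ} (he : Fr 𝓕 φ x e) :
    ∑ I, algebraMap ℝ ℂ (p I) * wordT (TT φ x e) ν I = 0 := by
  classical
  by_contra hne
  obtain ⟨I0, -, hI0⟩ := Finset.exists_ne_zero_of_sum_ne_zero hne
  have hpI0 : p I0 ≠ 0 := fun h => hI0 (by rw [h, map_zero, zero_mul])
  obtain ⟨m, hcard, hm⟩ := hp.exists_m hr hpI0
  have hm0 : 0 < m := by
    rw [Nat.pos_iff_ne_zero]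
    rintro rfl
    rw [mul_zero, Fintype.card_sigma] at hcard
    obtain ⟨q0⟩ : Nonempty Q := inferInstance
    have h1 := Finset.sum_eq_zero_iff.1 hcard q0 (Finset.mem_univ _)
    rw [Fintype.card_fin] at h1
    exact absurd h1 (ν q0).2.1.ne'
  have hmB : m ≤ B * D := by
    have h2 : Fintype.card (Σ q, Fin (deg (ν q))) ≤ B * D := by
      rw [Fintype.card_sigma]
      refine (Finset.sum_le_card_nsmul _ _ D fun q _ => ?_).trans ?_
      · rw [Fintype.card_fin]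
        exact (ν q).2.2.1
      · rw [smul_eq_mul]
        exact Nat.mul_le_mul_right _ (by rw [Finset.card_univ]; exact hQ)
    rw [hcard] at h2
    exact (Nat.le_mul_of_pos_left m hr).trans h2
  exact hne (hno m hm0 hmB _ (invF_sec hp hm) φ hφ x hx hxM e he ())


end

section

variable {n : ℕ} {X : Type} [TopologicalSpace X] [ChartedSpace (Fin n → ℂ) X]
  {M : Set X} {𝓕 : Ch n X → X → Submodule ℂ (Fin n → ℂ)} {r D : ℕ}

/-- local optimal frames exist -/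
def LocOpt (M : Set X) (𝓕 : Ch n X → X → Submodule ℂ (Fin n → ℂ)) (r D : ℕ) : Prop :=
  ∀ φ ∈ Charts n X, ∀ (W : Set (Fin n → ℂ)) (e : (Fin n → ℂ) → Fin r → Fin n → ℂ), Dom φ M W →
    W.Nonempty → IsPreconnected W → Hol W e → (∀ y ∈ W, Fr 𝓕 φ (φ.symm y) (e y)) →
    ∃ (f : (Fin n → ℂ) → ℂ) (h : (Fin n → ℂ) → Matrix (Fin r) (Fin r) ℂ) (a : Fin r → ℝ),
      Antitone a ∧ DifferentiableOn ℂ f W ∧ (∀ i j, DifferentiableOn ℂ (fun y => h y i j) W) ∧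
      (∃ y ∈ W, f y ≠ 0) ∧ ∀ y ∈ W, f y ≠ 0 → (h y).det ≠ 0 ∧
        OptFr M 𝓕 r D a φ (φ.symm y) (mv (h y) (e y))

theorem local_optB (hid : S_Id) (hr : 0 < r) {B : ℕ}
    (hB : ∀ (c : CC r D) (N' : YY r D c → ℕ), N' = yd r D c →
      ∀ (K : Type) [Field K] [Algebra ℝ K] (T : ∀ x : YY r D c, (Fin (N' x) → Fin r) → K),
        NoInvB B T → NoInv T) (hno : ∀ m, 0 < m → m ≤ B * D → NoSec (formL r m) M 𝓕)
    {φ : Ch n X} (hφ : φ ∈ Charts n X) {W : Set (Fin n → ℂ)} (hW : Dom φ M W)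
    (hW1 : W.Nonempty) (hW2 : IsPreconnected W) {e : (Fin n → ℂ) → Fin r → Fin n → ℂ}
    (he : Hol W e) (hf : ∀ y ∈ W, Fr 𝓕 φ (φ.symm y) (e y)) :
    ∃ (f : (Fin n → ℂ) → ℂ) (h : (Fin n → ℂ) → Matrix (Fin r) (Fin r) ℂ) (a : Fin r → ℝ),
      Antitone a ∧ DifferentiableOn ℂ f W ∧ (∀ i j, DifferentiableOn ℂ (fun y => h y i j) W) ∧
      (∃ y ∈ W, f y ≠ 0) ∧ ∀ y ∈ W, f y ≠ 0 → (h y).det ≠ 0 ∧
        OptFr M 𝓕 r D a φ (φ.symm y) (mv (h y) (e y)) := by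
  classical
  have hdom : IsDomain (HR W) := hr_domain hid hW.1 hW1 hW2
  let T : ∀ i : Ti M 𝓕 r D, (Fin (deg i) → Fin r) → HR W := fun i I =>
    ⟨fun y => TT φ (φ.symm y) (e y) i I, fun y => TT φ (φ.symm y) (e y) i I,
      TT_hol hφ hW he hf i I, fun _ => rfl⟩
  have hNI : NoInvB (K := FractionRing (HR W)) B
      (fun i I => algebraMap (HR W) (FractionRing (HR W)) (T i I)) := by
    intro Q _ _ _ hQ ν p hp
    have h1 : ∑ I, algebraMap ℝ (HR W) (p I) * wordT T ν I = 0 := by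
      apply Subtype.ext
      funext y
      have h2 : evH W y (∑ I, algebraMap ℝ (HR W) (p I) * wordT T ν I) =
          ∑ I, algebraMap ℝ ℂ (p I) * wordT (TT φ (φ.symm y) (e y)) ν I := by
        rw [map_sum]
        refine Finset.sum_congr rfl fun I _ => ?_
        rw [map_mul, wordT, map_prod]
        rfl
      rw [inv_zeroB hr hno hQ ν hp hφ (φ.map_target (hW.2.1 y.2)) (hW.2.2 y y.2) (hf y y.2)] at h2
      exact h2
    have h2 := congrArg (algebraMap (HR W) (FractionRing (HR W))) h1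
    rw [map_sum, map_zero] at h2
    rw [← h2]
    refine Finset.sum_congr rfl fun I _ => ?_
    rw [map_mul, wordT, wordT, map_prod, ← IsScalarTower.algebraMap_apply ℝ (HR W)]
  obtain ⟨f, h, a, hf0, hmain⟩ := gen_flagB hB hr (fun i : Ti M 𝓕 r D => i.2.2.1) T hNI
  obtain ⟨σ, hσ⟩ := exists_sort a
  obtain ⟨f, f', hf', hff⟩ := f
  have hh : ∀ j l, ∃ g : (Fin n → ℂ) → ℂ, DifferentiableOn ℂ g W ∧
      ∀ y : W, g y = (h j l).1 y := fun j l => (h j l).2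
  choose h' hh' hh'' using hh
  refine ⟨f', fun y => Matrix.of fun i j => h' (σ i) j y, a ∘ σ, hσ, hf', fun i j => hh' _ _,
    ?_, fun y hy hne => ?_⟩
  · by_contra hcon
    push Not at hcon
    apply hf0
    apply Subtype.ext
    funext y
    change f y = 0
    rw [← hff, hcon y y.2]
  · have h1 : evH W ⟨y, hy⟩ ⟨f, f', hf', hff⟩ ≠ 0 := by
      change f ⟨y, hy⟩ ≠ 0
      rw [← hff]
      exact hne
    obtain ⟨h2, h3⟩ := hmain (evH W ⟨y, hy⟩) h1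
    have h4 := dest_perm h2 σ
    obtain ⟨g, hg⟩ : ∃ g : Matrix (Fin r) (Fin r) ℂ, g = Matrix.of fun i j => h' (σ i) j y :=
      ⟨_, rfl⟩
    have h5 : ((fun j l => evH W ⟨y, hy⟩ (h j l)) ∘ σ : Fin r → Fin r → ℂ) = fun j => g j := by
      funext i l
      rw [hg]
      exact (hh'' (σ i) l ⟨y, hy⟩).symm
    rw [h5] at h4
    have h6 : Dest (famE (TT (M := M) (𝓕 := 𝓕) (r := r) (D := D) φ (φ.symm y) (e y))
        (RingHom.id ℂ)) (fun j => g j) (a ∘ σ) := h4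
    have h7 : g.det ≠ 0 := (dest_famE.1 h6).1
    change (Matrix.of fun i j => h' (σ i) j y).det ≠ 0 ∧ OptFr M 𝓕 r D (a ∘ σ) φ (φ.symm y)
      (mv (Matrix.of fun i j => h' (σ i) j y) (e y))
    rw [← hg]
    refine ⟨h7, fr_mv (hf y hy) h7, ?_⟩
    have h8 : (TT φ (φ.symm y) (mv g (e y)) : ∀ i : Ti M 𝓕 r D, (Fin (deg i) → Fin r) → ℂ) =
        fun i => act g (TT φ (φ.symm y) (e y) i) := funext fun i =>
      TT_mv hφ (φ.map_target (hW.2.1 hy)) (hW.2.2 y hy) (hf y hy) h7 i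
    rw [h8]
    refine opt_of_dest h6 fun e' b he' => ?_
    have h9 : ∑ j, (a ∘ σ) j ^ 2 = ∑ j, a j ^ 2 := Equiv.sum_comp σ fun j => a j ^ 2
    rw [h9]
    exact h3 e' b he'


end

variable {n : ℕ} {X : Type} [TopologicalSpace X] [ChartedSpace (Fin n → ℂ) X]
  [IsManifold 𝓘(ℂ, Fin n → ℂ) ω X]
  {M : Set X} {𝓕 : Ch n X → X → Submodule ℂ (Fin n → ℂ)} {r D : ℕ}

theorem exists_LDB (hloc : LocOpt M 𝓕 r D)
    (hd : IsDist M 𝓕 r) {φ : Ch n X} (hφ : φ ∈ Charts n X) {x : X} (hx : x ∈ φ.source)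
    (hxM : x ∈ M) : ∃ a W e f h, Antitone a ∧ φ x ∈ W ∧ LD M 𝓕 r D a φ W e f h := by
  obtain ⟨W, e, hW, hxW, he, hf⟩ := hd.frame φ hφ x hx hxM
  obtain ⟨ε, hε, hb⟩ := Metric.isOpen_iff.1 hW.1 _ hxW
  have hW' : Dom φ M (ball (φ x) ε) :=
    ⟨isOpen_ball, hb.trans hW.2.1, fun y hy => hW.2.2 y (hb hy)⟩
  have hxb : φ x ∈ ball (φ x) ε := mem_ball_self hε
  obtain ⟨f, h, a, ha, h1, h2, h3, h4⟩ := hloc φ hφ _ e hW' ⟨_, hxb⟩
    (convex_ball _ _).isPreconnected (fun i j => (he i j).mono hb) fun y hy => hf y (hb hy)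
  exact ⟨a, _, e, f, h, ha, hxb, ⟨hW', (convex_ball _ _).isPreconnected,
    fun i j => (he i j).mono hb, fun y hy => hf y (hb hy), h1, h2, h3, h4⟩⟩

theorem exists_aB (hid : S_Id) (hCh : S_Chart n X) (hPull : S_Pull n X) (hr : 0 < r)
    (hloc : LocOpt M 𝓕 r D) (hd : IsDist M 𝓕 r) (hM : IsPreconnected M)
    (hM1 : M.Nonempty) : ∃ a : Fin r → ℝ, Antitone a ∧ ∀ φ ∈ Charts n X, ∀ x ∈ φ.source, x ∈ M →
      ∃ W e f h, φ x ∈ W ∧ LD M 𝓕 r D a φ W e f h := by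
  classical
  let O : (Fin r → ℝ) → Set X := fun a => {x | Antitone a ∧ ∃ φ ∈ Charts n X, x ∈ φ.source ∧
    ∃ W e f h, φ x ∈ W ∧ LD M 𝓕 r D a φ W e f h}
  have hO : ∀ a, IsOpen (O a) := by
    intro a
    rw [isOpen_iff_mem_nhds]
    rintro x ⟨ha, φ, hφ, hx, W, e, f, h, hxW, hLD⟩
    refine Filter.mem_of_superset ((φ.isOpen_inter_preimage hLD.dom.1).mem_nhds ⟨hx, hxW⟩) ?_
    rintro y ⟨hy, hyW⟩
    exact ⟨ha, φ, hφ, hy, W, e, f, h, hyW, hLD⟩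
  have hdis : ∀ a b x, x ∈ O a → x ∈ O b → a = b := by
    rintro a b x ⟨ha, φ, hφ, hx, W, e, f, h, hxW, hLD⟩ ⟨hb, φ', hφ', hx', W', e', f', h', hxW', hLD'⟩
    exact LD_unique hid hCh hPull hr hd ha hb hφ hφ' hLD hLD' hx hx' hxW hxW'
  have hcov : ∀ φ ∈ Charts n X, ∀ x ∈ φ.source, x ∈ M → ∃ a, x ∈ O a ∧
      ∃ W e f h, φ x ∈ W ∧ LD M 𝓕 r D a φ W e f h := by
    intro φ hφ x hx hxM
    obtain ⟨a, W, e, f, h, ha, hxW, hLD⟩ := exists_LDB hloc hd hφ hx hxM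
    exact ⟨a, ⟨ha, φ, hφ, hx, W, e, f, h, hxW, hLD⟩, W, e, f, h, hxW, hLD⟩
  have hcov' : ∀ x ∈ M, ∃ a, x ∈ O a := fun x hx => by
    obtain ⟨a, ha, -⟩ := hcov (chartAt (Fin n → ℂ) x) (IsManifold.chart_mem_maximalAtlas x) x
      (mem_chart_source _ x) hx
    exact ⟨a, ha⟩
  obtain ⟨x0, hx0⟩ := hM1
  obtain ⟨a, hxa⟩ := hcov' x0 hx0
  have hsub : M ⊆ O a := by
    refine hM.subset_left_of_subset_union (hO a) (isOpen_iUnion fun b : {b // b ≠ a} => hO b.1)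
      ?_ ?_ ⟨x0, hx0, hxa⟩
    · rw [Set.disjoint_left]
      intro x hx hx'
      obtain ⟨b, hb⟩ := mem_iUnion.1 hx'
      exact b.2 (hdis _ _ x hb hx)
    · intro x hx
      obtain ⟨b, hb⟩ := hcov' x hx
      by_cases hba : b = a
      · exact Or.inl (hba ▸ hb)
      · exact Or.inr (mem_iUnion.2 ⟨⟨b, hba⟩, hb⟩)
  refine ⟨a, hxa.1, fun φ hφ x hx hxM => ?_⟩
  obtain ⟨b, hb, h1⟩ := hcov φ hφ x hx hxM
  rwa [hdis b a x hb (hsub hxM)] at h1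

end Pool.Agent.Helper91.CX
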