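import Pool.Agent.Helper91.CM.NS

/-!
Specialisation of optimal destabilising flags.
-/

set_option autoImplicit false
set_option linter.unusedSectionVars false

namespace Pool.Agent.Helper91.CM

open Module MvPolynomial Pool.Agent.Helper12.BL Pool.Agent.Helper91.HM Pool.Agent.Helper91.EF

/-- the specialised family -/
def famE {A F : Type} [CommRing A] [Field F] {n : ℕ} {ι : Type} {N : ι → ℕ}
    (T : ∀ i, (Fin (N i) → Fin n) → A) (ev : A →+* F) (d : ℕ) :
    Set (MultilinearMap F (fun _ : Fin d => (Fin n → F)) F) :=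
  {s | ∃ i, ∃ h : N i = d, ∀ x : Fin d → Fin n → F,
    s x = form (fun I => ev (T i I)) (fun k => x (Fin.cast h k))}

theorem sum_cast {M : Type*} [AddCommMonoid M] {d d' : ℕ} (h : d = d') (f : Fin d' → M) :
    ∑ k : Fin d, f (Fin.cast h k) = ∑ k : Fin d', f k := by
  subst h
  rfl

/-- the destabilising property in coordinates -/
theorem dest_famE {A F : Type} [CommRing A] [Field F] {n : ℕ} {ι : Type} {N : ι → ℕ}
    {T : ∀ i, (Fin (N i) → Fin n) → A} {ev : A →+* F} {e : Fin n → Fin n → F} {w : Fin n → ℝ} :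
    Dest (famE T ev) e w ↔ (Matrix.of e).det ≠ 0 ∧ ∑ j, w j = 0 ∧
      ∀ i (J : Fin (N i) → Fin n), act (Matrix.of e) (fun I => ev (T i I)) J ≠ 0 →
        ∑ k, w (J k) ≤ -1 := by
  constructor
  · rintro ⟨h1, h2, h3, h4⟩
    refine ⟨((Matrix.isUnit_iff_isUnit_det _).1
      (Matrix.linearIndependent_rows_iff_isUnit.1 h1)).ne_zero, h3, fun i J hne => ?_⟩
    exact h4 (N i) (form fun I => ev (T i I)) ⟨i, rfl, fun x => rfl⟩ J (by
      rw [act_eq_form] at hne
      exact hne)
  · rintro ⟨h1, h2, h3⟩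
    refine ⟨Matrix.linearIndependent_rows_iff_isUnit.2
      ((Matrix.isUnit_iff_isUnit_det _).2 (isUnit_iff_ne_zero.2 h1)),
      span_top_of_mul (Matrix.of e) (isUnit_iff_ne_zero.2 h1), h2, ?_⟩
    rintro d s ⟨i, h, hs⟩ J hne
    rw [hs] at hne
    have h4 := h3 i (fun k => J (Fin.cast h k)) (by
      rw [act_eq_form]
      exact hne)
    rwa [sum_cast h fun k => w (J k)] at h4

section ns

variable {A : Type} [CommRing A] [IsDomain A] {n : ℕ} {ι : Type} {N : ι → ℕ}

/-- the polynomials which say that the generic matrix gives a destabilising flag with the weights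
`w` -/
noncomputable def pols (T : ∀ i, (Fin (N i) → Fin n) → A) (w : Fin n → ℝ) :
    Set (MvPolynomial (Option (Fin n × Fin n)) A) :=
  {p | p = X none * (Matrix.of fun i j => (X (some (i, j)) :
      MvPolynomial (Option (Fin n × Fin n)) A)).det - 1 ∨
    ∃ (i : ι) (J : Fin (N i) → Fin n), ¬ (∑ k, w (J k) ≤ -1) ∧
      p = act (Matrix.of fun i j => (X (some (i, j)) : MvPolynomial (Option (Fin n × Fin n)) A))
        (fun I => C (T i I)) J}

theorem eval_det {F : Type} [Field F] (φ : MvPolynomial (Option (Fin n × Fin n)) A →+* F) :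
    φ (X none * (Matrix.of fun i j => (X (some (i, j)) :
      MvPolynomial (Option (Fin n × Fin n)) A)).det - 1) =
      φ (X none) * (Matrix.of fun i j => φ (X (some (i, j)))).det - 1 := by
  rw [map_sub, map_mul, map_one, RingHom.map_det]
  rfl

theorem eval_act {F : Type} [Field F] (φ : MvPolynomial (Option (Fin n × Fin n)) A →+* F) {d : ℕ}
    (t : (Fin d → Fin n) → A) (J : Fin d → Fin n) :
    φ (act (Matrix.of fun i j => (X (some (i, j)) : MvPolynomial (Option (Fin n × Fin n)) A))
        (fun I => C (t I)) J) =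
      act (Matrix.of fun i j => φ (X (some (i, j)))) (fun I => φ (C (t I))) J := by
  rw [← act_map φ]
  rfl

theorem ns_dest (T : ∀ i, (Fin (N i) → Fin n) → A) (w : Fin n → ℝ) (hw : ∑ j, w j = 0)
    (hno : ∀ e : Fin n → Fin n → AlgebraicClosure (FractionRing A),
      ¬ Dest (famE T ((algebraMap (FractionRing A) (AlgebraicClosure (FractionRing A))).comp
        (algebraMap A (FractionRing A)))) e w) :
    ∃ f : A, f ≠ 0 ∧ ∀ ev : A →+* ℂ, ev f ≠ 0 → ∀ e : Fin n → Fin n → ℂ,
      ¬ Dest (famE T ev) e w := by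
  obtain ⟨f, hf, hfI⟩ := ns_domain (pols T w) (fun z => by
    by_contra hcon
    push Not at hcon
    obtain ⟨φ, hφ⟩ : ∃ φ : MvPolynomial (Option (Fin n × Fin n)) A →+*
      AlgebraicClosure (FractionRing A), ∀ p, φ p = aeval z (map (algebraMap A (FractionRing A)) p) :=
      ⟨(aeval z : MvPolynomial _ (FractionRing A) →ₐ[FractionRing A] _).toRingHom.comp
        (map (algebraMap A (FractionRing A))), fun p => rfl⟩
    have hφC : ∀ a : A, φ (C a) = (algebraMap (FractionRing A)
        (AlgebraicClosure (FractionRing A))).comp (algebraMap A (FractionRing A)) a := by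
      intro a
      rw [hφ, map_C, aeval_C]
      rfl
    apply hno fun i j => φ (X (some (i, j)))
    rw [dest_famE]
    refine ⟨?_, hw, fun i J hne => ?_⟩
    · have h1 := hcon _ (Or.inl rfl)
      rw [← hφ, eval_det, sub_eq_zero] at h1
      exact right_ne_zero_of_mul (h1 ▸ one_ne_zero)
    · by_contra hlt
      apply hne
      have h1 := hcon _ (Or.inr ⟨i, J, hlt, rfl⟩)
      rw [← hφ, eval_act] at h1
      simp only [hφC] at h1
      exact h1)
  refine ⟨f, hf, fun ev hev e he => hev ?_⟩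
  rw [dest_famE] at he
  obtain ⟨φ, hφ⟩ : ∃ φ : MvPolynomial (Option (Fin n × Fin n)) A →+* ℂ, φ = eval₂Hom ev
    (fun o => o.elim (Matrix.of e).det⁻¹ fun ij => e ij.1 ij.2) := ⟨_, rfl⟩
  have hφC : ∀ a : A, φ (C a) = ev a := fun a => by rw [hφ, coe_eval₂Hom, eval₂_C]
  have hφX : ∀ i j, φ (X (some (i, j))) = e i j := fun i j => by
    rw [hφ, coe_eval₂Hom, eval₂_X]
    rfl
  have hφn : φ (X none) = (Matrix.of e).det⁻¹ := by
    rw [hφ, coe_eval₂Hom, eval₂_X]
    rfl
  have hm : (Matrix.of fun i j => φ (X (some (i, j)))) = Matrix.of e := by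
    ext i j
    exact hφX i j
  have h1 : Ideal.span (pols T w) ≤ RingHom.ker φ := by
    rw [Ideal.span_le]
    rintro p (rfl | ⟨i, J, hlt, rfl⟩)
    · rw [SetLike.mem_coe, RingHom.mem_ker, eval_det, hm, hφn, inv_mul_cancel₀ he.1, sub_self]
    · rw [SetLike.mem_coe, RingHom.mem_ker, eval_act, hm]
      by_contra hne
      simp only [hφC] at hne
      exact hlt (he.2.2 i J hne)
  have h2 := RingHom.mem_ker.1 (h1 hfI)
  rwa [hφC] at h2

end ns

end Pool.Agent.Helper91.CM
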