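import Pool.Agent.Helper91.CM.GenF
import Pool.Agent.Helper91.EF.Main

/-!
Generic optimal flags from invariants of bounded degree.
-/

set_option autoImplicit false
set_option linter.unusedSectionVars false

namespace Pool.Agent.Helper91.CM

open Module MvPolynomial Pool.Agent.Helper12.BL Pool.Agent.Helper91.HM Pool.Agent.Helper91.EF

theorem NoInvB.comp {K ι κ : Type} [Field K] [Algebra ℝ K] {n : ℕ} {N : ι → ℕ} {B : ℕ}
    {T : ∀ i, (Fin (N i) → Fin n) → K} (hT : NoInvB B T) (j : κ → ι) :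
    NoInvB (N := fun x => N (j x)) B (fun x => T (j x)) :=
  fun Q _ _ _ hQ ν p hp => hT Q hQ (fun q => j (ν q)) p hp

theorem exists_BN (r D : ℕ) : ∃ B : ℕ, ∀ (c : CC r D) (N' : YY r D c → ℕ), N' = yd r D c →
    ∀ (K : Type) [Field K] [Algebra ℝ K] (T : ∀ x : YY r D c, (Fin (N' x) → Fin r) → K),
      NoInvB B T → NoInv T := by
  classical
  have h1 : ∀ c : CC r D, ∃ B : ℕ, ∀ (K : Type) [Field K] [Algebra ℝ K]
      (T : ∀ x : YY r D c, (Fin (yd r D c x) → Fin r) → K), NoInvB B T → NoInv T :=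
    fun c => noeth r (YY r D c) (yd r D c)
  choose B hB using h1
  refine ⟨Finset.univ.sup B, ?_⟩
  rintro c _ rfl K _ _ T hT
  exact hB c K T (hT.mono (Finset.le_sup (f := B) (Finset.mem_univ c)))

/-- a finite subfamily of bounded size with the same span -/
theorem sub_familyY {K ι : Type} [Field K] {n : ℕ} {N : ι → ℕ}
    (T : ∀ i, (Fin (N i) → Fin n) → K) {D : ℕ} (hD : ∀ i, N i ≤ D) :
    ∃ (c : CC n D) (j : YY n D c → ι), (∀ x, N (j x) = yd n D c x) ∧ ∀ (i : ι)
      (φ : ((Fin (N i) → Fin n) → K) →ₗ[K] K), φ (T i) ≠ 0 →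
        ∃ x, ∃ h : N (j x) = N i, φ (fun I => T (j x) (fun k => I (Fin.cast h k))) ≠ 0 := by
  classical
  let S : ∀ d : ℕ, Set ((Fin d → Fin n) → K) := fun d =>
    {t | ∃ i, ∃ h : N i = d, t = fun I => T i (fun k => I (Fin.cast h k))}
  have h1 : ∀ d : Fin (D + 1), ∃ (c : Fin (n ^ (d : ℕ) + 1)) (u : Fin (c : ℕ) →
      ((Fin (d : ℕ) → Fin n) → K)), (∀ x, u x ∈ S d) ∧ ∀ t ∈ S d,
        t ∈ Submodule.span K (Set.range u) := by
    intro d
    obtain ⟨b, hbS, hspan, hli⟩ := exists_linearIndependent K (S d)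
    have hfin : Finite b := hli.finite
    have _ := Fintype.ofFinite b
    have h2 : Fintype.card b ≤ n ^ (d : ℕ) := by
      refine hli.fintype_card_le_finrank.trans (le_of_eq ?_)
      rw [Module.finrank_fintype_fun_eq_card, Fintype.card_fun, Fintype.card_fin, Fintype.card_fin]
    refine ⟨⟨Fintype.card b, by omega⟩, fun x => ((Fintype.equivFin b).symm x).1,
      fun x => hbS ((Fintype.equivFin b).symm x).2, fun t ht => ?_⟩
    have h3 : t ∈ Submodule.span K b := by
      rw [hspan]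
      exact Submodule.subset_span ht
    refine Submodule.span_mono ?_ h3
    intro x hx
    exact ⟨Fintype.equivFin b ⟨x, hx⟩, by simp⟩
  choose c u hu1 hu2 using h1
  have h2 : ∀ x : YY n D c, ∃ i, ∃ h : N i = (x.1 : ℕ),
      u x.1 x.2 = fun I => T i (fun k => I (Fin.cast h k)) := fun x => hu1 _ _
  choose j hj hjT using h2
  refine ⟨c, j, hj, fun i φ hφ => ?_⟩
  by_contra hcon
  push Not at hcon
  apply hφ
  have hlt : N i < D + 1 := by
    have := hD i
    omega
  have h3 : T i ∈ Submodule.span K (Set.range (u ⟨N i, hlt⟩)) := hu2 ⟨N i, hlt⟩ _ ⟨i, rfl, rfl⟩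
  have h4 : Submodule.span K (Set.range (u ⟨N i, hlt⟩)) ≤ LinearMap.ker φ := by
    rw [Submodule.span_le]
    rintro _ ⟨y, rfl⟩
    rw [SetLike.mem_coe, LinearMap.mem_ker]
    have h5 := hcon ⟨⟨N i, hlt⟩, y⟩ (hj _)
    rw [← h5]
    congr 1
    exact hjT ⟨⟨N i, hlt⟩, y⟩
  exact h4 h3

/-- **Generic flags**, with a given finite subfamily. -/
theorem gen_flag_sub {A ι : Type} [CommRing A] [IsDomain A] [Algebra ℝ A]
    [Algebra ℝ (FractionRing A)] [IsScalarTower ℝ A (FractionRing A)] {n D : ℕ} {N : ι → ℕ}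
    (hn : 0 < n) (hD : ∀ i, N i ≤ D) (T : ∀ i, (Fin (N i) → Fin n) → A)
    {κ : Type} [hκ : Finite κ] (j : κ → ι) (hj : ∀ (i : ι)
      (φ : ((Fin (N i) → Fin n) → FractionRing A) →ₗ[FractionRing A] FractionRing A),
      φ (fun I => algebraMap A (FractionRing A) (T i I)) ≠ 0 →
        ∃ x, ∃ h : N (j x) = N i,
          φ (fun I => algebraMap A (FractionRing A) (T (j x) (fun k => I (Fin.cast h k)))) ≠ 0)
    (hT : NoInv (K := FractionRing A) (N := fun x => N (j x))
      (fun x I => algebraMap A (FractionRing A) (T (j x) I))) :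
    ∃ (f : A) (h : Fin n → Fin n → A) (a : Fin n → ℝ), f ≠ 0 ∧ ∀ ev : A →+* ℂ, ev f ≠ 0 →
      Dest (famE T ev) (fun j l => ev (h j l)) a ∧
      ∀ (e : Fin n → Fin n → ℂ) (b : Fin n → ℝ), Dest (famE T ev) e b →
        ∑ j, a j ^ 2 ≤ ∑ j, b j ^ 2 := by
  classical
  have hinj : Function.Injective (algebraMap A (FractionRing A)) := IsFractionRing.injective _ _
  have hinj2 : Function.Injective (algebraMap (FractionRing A) (AlgebraicClosure (FractionRing A))) :=
    FaithfulSMul.algebraMap_injective _ _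
  obtain ⟨h, a, hli, hDest, hmin⟩ := rat_min hn
    (fun x I => algebraMap A (FractionRing A) (T (j x) I)) hT
  -- denominators
  obtain ⟨b, hb⟩ := IsLocalization.exist_integer_multiples (nonZeroDivisors A)
    (Finset.univ : Finset (Fin n × Fin n)) (fun x => h x.1 x.2)
  have hb0 : (b : A) ≠ 0 := nonZeroDivisors.ne_zero b.2
  have hb' : ∀ i l, ∃ y : A, algebraMap A (FractionRing A) y = (b : A) • h i l := fun i l => by
    obtain ⟨y, hy⟩ := hb (i, l) (Finset.mem_univ _)
    exact ⟨y, hy⟩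
  choose h' hh' using hb'
  have hh'' : (Matrix.of h').map (algebraMap A (FractionRing A)) =
      algebraMap A (FractionRing A) b • Matrix.of h := by
    ext i l
    rw [Matrix.map_apply, Matrix.of_apply, hh', Matrix.smul_apply, Matrix.of_apply, Algebra.smul_def,
      smul_eq_mul]
  have hdetK : (Matrix.of h).det ≠ 0 := ((Matrix.isUnit_iff_isUnit_det _).1
    (Matrix.linearIndependent_rows_iff_isUnit.1 hli)).ne_zero
  have hdet : (Matrix.of h').det ≠ 0 := by
    intro h0
    have h1 : ((Matrix.of h').map (algebraMap A (FractionRing A))).det = 0 := by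
      have h2 := (RingHom.map_det (algebraMap A (FractionRing A)) (Matrix.of h')).symm
      rw [h0, map_zero] at h2
      exact h2
    rw [hh'', Matrix.det_smul] at h1
    rcases mul_eq_zero.1 h1 with h2 | h2
    · exact hb0 (hinj ((eq_zero_of_pow_eq_zero h2).trans (map_zero _).symm))
    · exact hdetK h2
  -- the destabilising property over the ring
  have hact : ∀ i (J : Fin (N i) → Fin n), act (Matrix.of h') (T i) J ≠ 0 →
      ∑ k, a (J k) ≤ -1 := by
    intro i J hne
    have h1 : act ((Matrix.of h').map (algebraMap A (FractionRing A)))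
        (fun I => algebraMap A (FractionRing A) (T i I)) J ≠ 0 := by
      rw [act_map]
      exact fun h0 => hne (hinj (h0.trans (map_zero _).symm))
    rw [hh'', act_smul'] at h1
    have h2 := right_ne_zero_of_mul h1
    let φ : ((Fin (N i) → Fin n) → FractionRing A) →ₗ[FractionRing A] FractionRing A :=
      { toFun := fun t => act (Matrix.of h) t J
        map_add' := fun t u => by
          simp only [act, Pi.add_apply, mul_add, Finset.sum_add_distrib]
        map_smul' := fun c t => by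
          simp only [act, Pi.smul_apply, smul_eq_mul, RingHom.id_apply, Finset.mul_sum]
          exact Finset.sum_congr rfl fun I _ => by ring }
    obtain ⟨x, hx, hne'⟩ := hj i φ h2
    have h3 : act (Matrix.of h) (fun I => algebraMap A (FractionRing A) (T (j x) I))
        (fun k => J (Fin.cast hx k)) ≠ 0 := by
      rw [← act_cast hx]
      exact hne'
    have h4 := hDest.2.2.2 (N (j x)) (form fun I => algebraMap (FractionRing A)
      (AlgebraicClosure (FractionRing A)) (algebraMap A (FractionRing A) (T (j x) I)))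
      ⟨x, rfl, fun _ => rfl⟩ (fun k => J (Fin.cast hx k)) (by
        have h5 := act_eq_form ((Matrix.of h).map (algebraMap (FractionRing A)
          (AlgebraicClosure (FractionRing A)))) (fun I => algebraMap (FractionRing A)
          (AlgebraicClosure (FractionRing A)) (algebraMap A (FractionRing A) (T (j x) I)))
          (fun k => J (Fin.cast hx k))
        rw [act_map] at h5
        change form _ (fun k => ((Matrix.of h).map (algebraMap (FractionRing A)
          (AlgebraicClosure (FractionRing A)))) (J (Fin.cast hx k))) ≠ 0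
        rw [← h5]
        exact fun h0 => h3 (hinj2 (h0.trans (map_zero _).symm)))
    rwa [sum_cast hx fun k => a (J k)] at h4
  -- the smaller weights
  have hfin : {w : Fin n → ℝ | w ∈ WW n D ∧ ∑ l, w l ^ 2 < ∑ l, a l ^ 2}.Finite :=
    (WW_finite n D).subset fun w hw => hw.1
  have hw : ∀ w : Fin n → ℝ, w ∈ WW n D → ∑ l, w l ^ 2 < ∑ l, a l ^ 2 →
      ∃ f : A, f ≠ 0 ∧ ∀ ev : A →+* ℂ, ev f ≠ 0 → ∀ e : Fin n → Fin n → ℂ,
        ¬ Dest (famE (N := fun x => N (j x)) (fun x => T (j x)) ev) e w := by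
    intro w hw hlt
    obtain ⟨𝒯, hw1, -⟩ := hw
    refine ns_dest (N := fun x => N (j x)) (fun x => T (j x)) w hw1.1 fun e he => ?_
    exact absurd (hmin e w he) (not_le.2 hlt)
  have hw' : ∀ w : Fin n → ℝ, ∃ f : A, f ≠ 0 ∧ (w ∈ WW n D → ∑ l, w l ^ 2 < ∑ l, a l ^ 2 →
      ∀ ev : A →+* ℂ, ev f ≠ 0 → ∀ e : Fin n → Fin n → ℂ,
        ¬ Dest (famE (N := fun x => N (j x)) (fun x => T (j x)) ev) e w) := by
    intro w
    by_cases h1 : w ∈ WW n D ∧ ∑ l, w l ^ 2 < ∑ l, a l ^ 2
    · obtain ⟨f, hf, hf'⟩ := hw w h1.1 h1.2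
      exact ⟨f, hf, fun _ _ => hf'⟩
    · exact ⟨1, one_ne_zero, fun h2 h3 => absurd ⟨h2, h3⟩ h1⟩
  choose f hf hf' using hw'
  refine ⟨(Matrix.of h').det * ∏ w ∈ hfin.toFinset, f w, h', a,
    mul_ne_zero hdet (Finset.prod_ne_zero_iff.2 fun w _ => hf w), fun ev hev => ?_⟩
  rw [map_mul, map_prod] at hev
  have hev1 := left_ne_zero_of_mul hev
  have hev2 := Finset.prod_ne_zero_iff.1 (right_ne_zero_of_mul hev)
  constructor
  · rw [dest_famE]
    refine ⟨?_, hDest.2.2.1, fun i J hne => hact i J fun h0 => hne ?_⟩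
    · have h1 := RingHom.map_det ev (Matrix.of h')
      change ((Matrix.of h').map ev).det ≠ 0
      rw [h1] at hev1
      exact hev1
    · have h1 := act_map ev (Matrix.of h') (T i) J
      rw [h0, map_zero] at h1
      exact h1
  · intro e b' he
    by_contra hcon
    rw [not_le] at hcon
    have he' : Dest (famE (N := fun x => N (j x)) (fun x => T (j x)) ev) e b' := by
      refine ⟨he.1, he.2.1, he.2.2.1, ?_⟩
      rintro d s ⟨x, hx, hs⟩ J hne
      exact he.2.2.2 d s ⟨j x, hx, hs⟩ J hne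
    have hSD : ∀ d, ∀ s ∈ famE (N := fun x => N (j x)) (fun x => T (j x)) ev d, d ≤ D := by
      rintro d s ⟨x, hx, -⟩
      rw [← hx]
      exact hD _
    obtain ⟨e2, b2, h1, h2⟩ := exists_min hSD he'
    have h3 := mem_WW hSD h1 h2
    have h4 : ∑ l, b2 l ^ 2 < ∑ l, a l ^ 2 := lt_of_le_of_lt (h2 e b' he') hcon
    exact hf' b2 h3 h4 ev (hev2 b2 (hfin.mem_toFinset.2 ⟨h3, h4⟩)) e2 h1

/-- **Generic flags** from invariants of bounded degree. -/
theorem gen_flagB {A ι : Type} [CommRing A] [IsDomain A] [Algebra ℝ A]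
    [Algebra ℝ (FractionRing A)] [IsScalarTower ℝ A (FractionRing A)] {n D B : ℕ} {N : ι → ℕ}
    (hB : ∀ (c : CC n D) (N' : YY n D c → ℕ), N' = yd n D c →
      ∀ (K : Type) [Field K] [Algebra ℝ K] (T : ∀ x : YY n D c, (Fin (N' x) → Fin n) → K),
        NoInvB B T → NoInv T)
    (hn : 0 < n) (hD : ∀ i, N i ≤ D) (T : ∀ i, (Fin (N i) → Fin n) → A)
    (hT : NoInvB (K := FractionRing A) B (fun i I => algebraMap A (FractionRing A) (T i I))) :
    ∃ (f : A) (h : Fin n → Fin n → A) (a : Fin n → ℝ), f ≠ 0 ∧ ∀ ev : A →+* ℂ, ev f ≠ 0 →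
      Dest (famE T ev) (fun j l => ev (h j l)) a ∧
      ∀ (e : Fin n → Fin n → ℂ) (b : Fin n → ℝ), Dest (famE T ev) e b →
        ∑ j, a j ^ 2 ≤ ∑ j, b j ^ 2 := by
  obtain ⟨c, j, hNj, hj⟩ := sub_familyY (fun i I => algebraMap A (FractionRing A) (T i I)) hD
  exact gen_flag_sub hn hD T j hj (hB c _ (funext hNj) _ _ (NoInvB.comp hT j))

end Pool.Agent.Helper91.CM
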