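import Pool.Agent.Helper91.CM.KodM
import Pool.Agent.Helper4.CX.Par
import Pool.Agent.Helper13.CX.Rem
import Pool.Agent.Helper13.CX.Brk3
import Pool.Agent.Helper23.CX.Ext1
import Pool.Agent.Helper23.CX.Brk2
import Pool.Agent.Helper34.CX.Chart
import Pool.Agent.Helper34.CX.Pull
import Pool.Agent.Helper70.CX.Conn
import Pool.Agent.Helper70.CX.RemOf
import Pool.Agent.Helper86.CX.Cramer
import Pool.Agent.Helper86.CX.SecExt
import Pool.Agent.Helper86.CX.Sat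
import Pool.Agent.Helper90.CX.Ext

/-!
Induction: foliations without tensors.
-/

set_option autoImplicit false
set_option linter.unusedSectionVars false

namespace Pool.Agent.Helper91.CX

open Metric Set Topology Module
open scoped Manifold ContDiff

section packs

variable {n : ℕ} {X : Type} [TopologicalSpace X] [ChartedSpace (Fin n → ℂ) X]
  [IsManifold 𝓘(ℂ, Fin n → ℂ) ω X]

theorem p_id : S_Id := Pool.Agent.Helper13.CX.ident
theorem p_cr : S_Cramer := Pool.Agent.Helper86.CX.cramer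
theorem p_ch : S_Chart n X := Pool.Agent.Helper34.CX.chart
theorem p_pull : S_Pull n X := Pool.Agent.Helper34.CX.pullSec
theorem p_sat : S_Sat n X := Pool.Agent.Helper86.CX.sat p_ch
theorem p_se : S_SecExt n X := Pool.Agent.Helper86.CX.secExt p_ch
theorem p_conn : S_Conn n X := Pool.Agent.Helper70.CX.conn n X
theorem p_remOf : S_RemOf n X :=
  Pool.Agent.Helper70.CX.remOf (Pool.Agent.Helper90.CX.ext
    (Pool.Agent.Helper23.CX.ext1 Pool.Agent.Helper4.CX.par) p_id)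
    (Pool.Agent.Helper13.CX.rem Pool.Agent.Helper4.CX.par) n X
theorem p_brk1 : S_Brk1 n X :=
  Pool.Agent.Helper13.CX.brk1 p_ch p_cr Pool.Agent.Helper4.CX.der p_id p_sat p_remOf p_conn
theorem p_brk2 : S_Brk2 n X :=
  Pool.Agent.Helper23.CX.brk2 p_cr p_ch Pool.Agent.Helper4.CX.der p_se

end packs

variable {n : ℕ} {X : Type} [TopologicalSpace X] [ChartedSpace (Fin n → ℂ) X]
  [IsManifold 𝓘(ℂ, Fin n → ℂ) ω X]

theorem rem_refl (M : Set X) : Rem n M M := by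
  intro φ _ x _ _ W hW hxW g hg
  refine ⟨W, g, hW.1, Subset.rfl, hxW, ?_, fun _ _ _ => rfl⟩
  exact hg.mono fun y hy => ⟨hy, hW.2.2 y hy⟩

theorem rem_trans {M M' M'' : Set X} (h : IsOpen M) (h' : IsOpen M') (h'' : IsOpen M'')
    (hs : M'' ⊆ M') (hs' : M' ⊆ M) (hc : M ⊆ closure M') (hc' : M' ⊆ closure M'')
    (hr : Rem n M'' M') (hr' : Rem n M' M) : Rem n M'' M :=
  p_conn.2 M M' M'' h h' h'' hs hs' hc hc' hr hr'

theorem clos_trans {M M' M'' : Set X} (hc : M ⊆ closure M') (hc' : M' ⊆ closure M'') :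
    M ⊆ closure M'' := fun x hx => by
  have h1 := closure_mono hc' (hc hx)
  rwa [closure_closure] at h1

theorem ind_rank : ∀ r : ℕ, 0 < r → ∀ (M : Set X) (𝓕 : Ch n X → X → Submodule ℂ (Fin n → ℂ)),
    IsDist M 𝓕 r → M.Nonempty → IsPreconnected M → (∀ m, 0 < m → NoSec (formL r m) M 𝓕) →
    ∃ (k : ℕ) (M' : Set X) (𝓕' : Ch n X → X → Submodule ℂ (Fin n → ℂ)), 0 < k ∧ IsDist M' 𝓕' k ∧
      M' ⊆ M ∧ M ⊆ closure M' ∧ Rem n M' M ∧ M'.Nonempty ∧ IsPreconnected M' ∧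
        ∀ N, 0 < N → NoSec (tenL k N) M' 𝓕' := by
  intro r
  induction r using Nat.strong_induction_on with
  | _ r ih =>
    intro hr M 𝓕 hd hM1 hM hno
    by_cases h : ∀ N, 0 < N → NoSec (tenL r N) M 𝓕
    · exact ⟨r, M, 𝓕, hr, hd, Subset.rfl, subset_closure, rem_refl M, hM1, hM, h⟩
    · push Not at h
      obtain ⟨N, hN, hex⟩ := h
      obtain ⟨k, M₁, 𝓕₁, hk, hkr, hd₁, hs₁, hc₁, hr₁, hn₁, hp₁, hno₁⟩ :=
        kod_main p_id p_ch p_pull p_cr p_sat p_remOf p_se p_conn hr hd hM hM1 hno hN hex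
      obtain ⟨k₂, M₂, 𝓕₂, hk₂, hd₂, hs₂, hc₂, hr₂, hn₂, hp₂, hno₂⟩ :=
        ih k hkr hk M₁ 𝓕₁ hd₁ hn₁ hp₁ hno₁
      exact ⟨k₂, M₂, 𝓕₂, hk₂, hd₂, hs₂.trans hs₁, clos_trans hc₁ hc₂,
        rem_trans hd.isOpen hd₁.isOpen hd₂.isOpen hs₂ hs₁ hc₁ hc₂ hr₂ hr₁, hn₂, hp₂, hno₂⟩

theorem rank_le {M : Set X} {𝓕 : Ch n X → X → Submodule ℂ (Fin n → ℂ)} {r : ℕ}
    (hd : IsDist M 𝓕 r) (hM : M.Nonempty) : r ≤ n := by
  obtain ⟨x, hx⟩ := hM
  obtain ⟨W, e, hW, hxW, -, hf⟩ := hd.frame (chartAt (Fin n → ℂ) x)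
    (IsManifold.chart_mem_maximalAtlas x) x (mem_chart_source _ x) hx
  have h1 := (hf _ hxW).1.fintype_card_le_finrank
  rwa [Fintype.card_fin, Module.finrank_fin_fun] at h1

theorem ind_brk : ∀ d r : ℕ, n ≤ r + d → ∀ (M : Set X)
    (𝓕 : Ch n X → X → Submodule ℂ (Fin n → ℂ)), IsDist M 𝓕 r → M.Nonempty → IsPreconnected M →
    (∀ N, 0 < N → NoSec (tenL r N) M 𝓕) →
    ∃ (k : ℕ) (M' : Set X) (𝓕' : Ch n X → X → Submodule ℂ (Fin n → ℂ)), r ≤ k ∧ IsDist M' 𝓕' k ∧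
      M' ⊆ M ∧ M ⊆ closure M' ∧ Rem n M' M ∧ M'.Nonempty ∧ IsPreconnected M' ∧ Invol M' 𝓕' ∧
        ∀ N, 0 < N → NoSec (tenL k N) M' 𝓕' := by
  intro d
  induction d with
  | zero =>
    intro r hr M 𝓕 hd hM1 hM hno
    rcases p_brk1 M 𝓕 r hd hM1 hM with h | ⟨M', G, 𝓕', r', hr', hd', hn', -⟩
    · exact ⟨r, M, 𝓕, le_rfl, hd, Subset.rfl, subset_closure, rem_refl M, hM1, hM, h, hno⟩
    · have := rank_le hd' hn'
      omega
  | succ d ih =>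
    intro r hr M 𝓕 hd hM1 hM hno
    rcases p_brk1 M 𝓕 r hd hM1 hM with h | ⟨M', G, 𝓕', r', hr', hd', hn', hp', hs', hc', hrem, hb⟩
    · exact ⟨r, M, 𝓕, le_rfl, hd, Subset.rfl, subset_closure, rem_refl M, hM1, hM, h, hno⟩
    · have hno' := p_brk2 M M' G 𝓕 𝓕' r r' hd hd' hs' hc' hrem hb hno
      obtain ⟨k₂, M₂, 𝓕₂, hk₂, hd₂, hs₂, hc₂, hr₂, hn₂, hp₂, hi₂, hno₂⟩ :=
        ih r' (by omega) M' 𝓕' hd' hn' hp' hno'
      exact ⟨k₂, M₂, 𝓕₂, by omega, hd₂, hs₂.trans hs', clos_trans hc' hc₂,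
        rem_trans hd.isOpen hd'.isOpen hd₂.isOpen hs₂ hs' hc' hc₂ hr₂ hrem, hn₂, hp₂, hi₂, hno₂⟩

/-- the tangent bundle -/
theorem dist_top : IsDist (univ : Set X)
    (fun _ _ => ⊤ : Ch n X → X → Submodule ℂ (Fin n → ℂ)) n := by
  refine ⟨isOpen_univ, fun φ hφ x hx _ => ⟨φ.target, fun _ i => Pi.single i 1,
    ⟨φ.open_target, Subset.rfl, fun _ _ => mem_univ _⟩, φ.map_source hx,
    fun i j => differentiableOn_const _, fun y hy => ?_⟩, fun _ _ _ => mem_univ _,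
    fun F φ hφ ψ hψ x hx _ hFx => ?_⟩
  · have h1 : LinearIndependent ℂ (fun i : Fin n => (Pi.single i 1 : Fin n → ℂ)) := by
      have := (Pi.basisFun ℂ (Fin n)).linearIndependent
      have h2 : (fun i : Fin n => (Pi.single i 1 : Fin n → ℂ)) = Pi.basisFun ℂ (Fin n) := by
        funext i
        rw [Pi.basisFun_apply]
      rw [h2]
      exact this
    refine ⟨h1, ?_⟩
    have h2 : (fun i : Fin n => (Pi.single i 1 : Fin n → ℂ)) = Pi.basisFun ℂ (Fin n) := by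
      funext i
      rw [Pi.basisFun_apply]
    rw [h2]
    exact (Pi.basisFun ℂ (Fin n)).span_eq
  · rw [Submodule.map_top]
    symm
    rw [LinearMap.range_eq_top]
    intro v
    exact ⟨der F.symm ψ φ (F x) v, (p_ch.2.2.1 F φ hφ ψ hψ x hx hFx v).2⟩

theorem main_fol [ConnectedSpace X] (hn : 0 < n)
    (hno : ∀ m, 0 < m → NoSec (formL n m) (univ : Set X)
      (fun _ _ => ⊤ : Ch n X → X → Submodule ℂ (Fin n → ℂ))) :
    ∃ (r : ℕ) (M : Set X) (𝓕 : Ch n X → X → Submodule ℂ (Fin n → ℂ)), 0 < r ∧ IsDist M 𝓕 r ∧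
      Dense M ∧ Rem n M univ ∧ IsConnected M ∧ Invol M 𝓕 ∧ ∀ N, 0 < N → NoSec (tenL r N) M 𝓕 := by
  obtain ⟨k, M, 𝓕, hk, hd, -, hc, hr, hn1, hp, h⟩ := ind_rank n hn univ (fun _ _ => ⊤) dist_top
    univ_nonempty isPreconnected_univ hno
  obtain ⟨r, M', 𝓕', hr', hd', hs', hc', hrem', hn', hp', hi', hno'⟩ :=
    ind_brk n k (by omega) M 𝓕 hd hn1 hp h
  refine ⟨r, M', 𝓕', by omega, hd', ?_, rem_trans isOpen_univ hd.isOpen hd'.isOpen hs'
    (subset_univ _) hc hc' hrem' hr, ⟨hn', hp'⟩, hi', hno'⟩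
  exact dense_iff_closure_eq.2 (univ_subset_iff.1 (clos_trans hc hc'))

end Pool.Agent.Helper91.CX
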