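import Pool.Agent.Helper91.CM.KodB
import Pool.Agent.Helper91.CM.Ind
import Pool.Agent.Helper91.CX.Stm3

/-!
Induction with bounds: foliations without tensors of bounded degree, from one plurigenus.
-/

set_option autoImplicit false
set_option linter.unusedSectionVars false

namespace Pool.Agent.Helper91.CX

open Metric Set Topology Module
open scoped Manifold ContDiff
open Pool.Agent.Helper91.EF Pool.Agent.Helper91.CM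

theorem kod_mainB (r D B' : ℕ) (hr : 0 < r) : ∃ B : ℕ, ∀ (n : ℕ) (X : Type) [TopologicalSpace X]
    [ChartedSpace (Fin n → ℂ) X] [IsManifold 𝓘(ℂ, Fin n → ℂ) ω X] (M : Set X)
    (𝓕 : Ch n X → X → Submodule ℂ (Fin n → ℂ)), IsDist M 𝓕 r → M.Nonempty → IsPreconnected M →
    (∀ m, 0 < m → m ≤ B → NoSec (formL r m) M 𝓕) → ∀ N0, 0 < N0 → N0 ≤ D →
    ¬ NoSec (tenL r N0) M 𝓕 →
    ∃ (k : ℕ) (M' : Set X) (𝓕' : Ch n X → X → Submodule ℂ (Fin n → ℂ)), 0 < k ∧ k < r ∧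
      IsDist M' 𝓕' k ∧ M' ⊆ M ∧ M ⊆ closure M' ∧ Rem n M' M ∧ M'.Nonempty ∧ IsPreconnected M' ∧
        ∀ m, 0 < m → m ≤ B' → NoSec (formL k m) M' 𝓕' := by
  obtain ⟨B1, hB1⟩ := exists_BN r D
  obtain ⟨B2, hB2⟩ := exists_B2' r D
  refine ⟨max (B1 * D) (Phi (Ebd B2 B2 B2 D 0) B'), ?_⟩
  intro n X _ _ _ M 𝓕 hd hM1 hM hno N0 hN0 hN0D hex
  exact kod_auxB hB1 (fun w hw => ⟨(hB2 w hw).1, (hB2 w hw).2.1, fun c N' hN' T =>
    (hB2 w hw).2.2 c N' hN' ℂ T⟩) p_id p_ch p_pull p_cr p_sat p_remOf p_se p_conn hr hd hM hM1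
    (fun m hm hmB => hno m hm (hmB.trans (le_max_left _ _)))
    (fun m hm hmB => hno m hm (hmB.trans (le_max_right _ _))) hN0 hN0D hex

theorem ind_rankB (D r : ℕ) : ∃ B : ℕ, 0 < r → ∀ (n : ℕ) (X : Type) [TopologicalSpace X]
    [ChartedSpace (Fin n → ℂ) X] [IsManifold 𝓘(ℂ, Fin n → ℂ) ω X] (M : Set X)
    (𝓕 : Ch n X → X → Submodule ℂ (Fin n → ℂ)), IsDist M 𝓕 r → M.Nonempty → IsPreconnected M →
    (∀ m, 0 < m → m ≤ B → NoSec (formL r m) M 𝓕) →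
    ∃ (k : ℕ) (M' : Set X) (𝓕' : Ch n X → X → Submodule ℂ (Fin n → ℂ)), 0 < k ∧ IsDist M' 𝓕' k ∧
      M' ⊆ M ∧ M ⊆ closure M' ∧ Rem n M' M ∧ M'.Nonempty ∧ IsPreconnected M' ∧
        ∀ N, 0 < N → N ≤ D → NoSec (tenL k N) M' 𝓕' := by
  classical
  induction r using Nat.strong_induction_on with
  | _ r ih =>
    by_cases hr : 0 < r
    · have h1 : ∀ k : Fin r, ∃ B : ℕ, 0 < (k : ℕ) → ∀ (n : ℕ) (X : Type) [TopologicalSpace X]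
          [ChartedSpace (Fin n → ℂ) X] [IsManifold 𝓘(ℂ, Fin n → ℂ) ω X] (M : Set X)
          (𝓕 : Ch n X → X → Submodule ℂ (Fin n → ℂ)), IsDist M 𝓕 k → M.Nonempty →
          IsPreconnected M → (∀ m, 0 < m → m ≤ B → NoSec (formL k m) M 𝓕) →
          ∃ (k : ℕ) (M' : Set X) (𝓕' : Ch n X → X → Submodule ℂ (Fin n → ℂ)), 0 < k ∧
            IsDist M' 𝓕' k ∧ M' ⊆ M ∧ M ⊆ closure M' ∧ Rem n M' M ∧ M'.Nonempty ∧
            IsPreconnected M' ∧ ∀ N, 0 < N → N ≤ D → NoSec (tenL k N) M' 𝓕' :=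
        fun k => ih k k.2
      choose Bk hBk using h1
      obtain ⟨B, hB⟩ := kod_mainB r D (Finset.univ.sup Bk) hr
      refine ⟨B, fun _ n X _ _ _ M 𝓕 hd hM1 hM hno => ?_⟩
      by_cases h : ∀ N, 0 < N → N ≤ D → NoSec (tenL r N) M 𝓕
      · exact ⟨r, M, 𝓕, hr, hd, Subset.rfl, subset_closure, rem_refl M, hM1, hM, h⟩
      · push Not at h
        obtain ⟨N, hN, hND, hex⟩ := h
        obtain ⟨k, M₁, 𝓕₁, hk, hkr, hd₁, hs₁, hc₁, hr₁, hn₁, hp₁, hno₁⟩ :=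
          hB n X M 𝓕 hd hM1 hM hno N hN hND hex
        obtain ⟨k₂, M₂, 𝓕₂, hk₂, hd₂, hs₂, hc₂, hr₂, hn₂, hp₂, hno₂⟩ :=
          hBk ⟨k, hkr⟩ hk n X M₁ 𝓕₁ hd₁ hn₁ hp₁ fun m hm hmB => hno₁ m hm (hmB.trans
            (Finset.le_sup (f := Bk) (Finset.mem_univ _)))
        exact ⟨k₂, M₂, 𝓕₂, hk₂, hd₂, hs₂.trans hs₁, clos_trans hc₁ hc₂,
          rem_trans hd.isOpen hd₁.isOpen hd₂.isOpen hs₂ hs₁ hc₁ hc₂ hr₂ hr₁, hn₂, hp₂, hno₂⟩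
    · exact ⟨0, fun h => absurd h hr⟩

variable {n : ℕ} {X : Type} [TopologicalSpace X] [ChartedSpace (Fin n → ℂ) X]
  [IsManifold 𝓘(ℂ, Fin n → ℂ) ω X]

theorem ind_brkB (hBrk : S_Brk2B n X) (D : ℕ) : ∀ d r : ℕ, n ≤ r + d → ∀ (M : Set X)
    (𝓕 : Ch n X → X → Submodule ℂ (Fin n → ℂ)), IsDist M 𝓕 r → M.Nonempty → IsPreconnected M →
    (∀ N, 0 < N → N ≤ 2 ^ d * D → NoSec (tenL r N) M 𝓕) →
    ∃ (k : ℕ) (M' : Set X) (𝓕' : Ch n X → X → Submodule ℂ (Fin n → ℂ)), r ≤ k ∧ IsDist M' 𝓕' k ∧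
      M' ⊆ M ∧ M ⊆ closure M' ∧ Rem n M' M ∧ M'.Nonempty ∧ IsPreconnected M' ∧ Invol M' 𝓕' ∧
        ∀ N, 0 < N → N ≤ D → NoSec (tenL k N) M' 𝓕' := by
  intro d
  induction d with
  | zero =>
    intro r hr M 𝓕 hd hM1 hM hno
    rw [pow_zero, one_mul] at hno
    rcases p_brk1 M 𝓕 r hd hM1 hM with h | ⟨M', G, 𝓕', r', hr', hd', hn', -⟩
    · exact ⟨r, M, 𝓕, le_rfl, hd, Subset.rfl, subset_closure, rem_refl M, hM1, hM, h, hno⟩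
    · have := rank_le hd' hn'
      omega
  | succ d ih =>
    intro r hr M 𝓕 hd hM1 hM hno
    rcases p_brk1 M 𝓕 r hd hM1 hM with h | ⟨M', G, 𝓕', r', hr', hd', hn', hp', hs', hc', hrem, hb⟩
    · refine ⟨r, M, 𝓕, le_rfl, hd, Subset.rfl, subset_closure, rem_refl M, hM1, hM, h,
        fun N hN hND => hno N hN (hND.trans ?_)⟩
      exact Nat.le_mul_of_pos_left D (by positivity)
    · have hno' := hBrk M M' G 𝓕 𝓕' r r' (2 ^ d * D) hd hd' hs' hc' hrem hb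
        fun N hN hND => hno N hN (hND.trans (le_of_eq (by ring)))
      obtain ⟨k₂, M₂, 𝓕₂, hk₂, hd₂, hs₂, hc₂, hr₂, hn₂, hp₂, hi₂, hno₂⟩ :=
        ih r' (by omega) M' 𝓕' hd' hn' hp' hno'
      exact ⟨k₂, M₂, 𝓕₂, by omega, hd₂, hs₂.trans hs', clos_trans hc' hc₂,
        rem_trans hd.isOpen hd'.isOpen hd₂.isOpen hs₂ hs' hc' hc₂ hr₂ hrem, hn₂, hp₂, hi₂, hno₂⟩

theorem main_folB (n D : ℕ) (hn : 0 < n) (hBrk : ∀ (X : Type) [TopologicalSpace X]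
      [ChartedSpace (Fin n → ℂ) X] [IsManifold 𝓘(ℂ, Fin n → ℂ) ω X], S_Brk2B n X) :
    ∃ B : ℕ, ∀ (X : Type) [TopologicalSpace X] [ChartedSpace (Fin n → ℂ) X]
      [IsManifold 𝓘(ℂ, Fin n → ℂ) ω X] [ConnectedSpace X],
      (∀ m, 0 < m → m ≤ B → NoSec (formL n m) (univ : Set X)
        (fun _ _ => ⊤ : Ch n X → X → Submodule ℂ (Fin n → ℂ))) →
      ∃ (r : ℕ) (M : Set X) (𝓕 : Ch n X → X → Submodule ℂ (Fin n → ℂ)), 0 < r ∧ IsDist M 𝓕 r ∧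
        Dense M ∧ Rem n M univ ∧ IsConnected M ∧ Invol M 𝓕 ∧
        ∀ N, 0 < N → N ≤ D → NoSec (tenL r N) M 𝓕 := by
  obtain ⟨B, hB⟩ := ind_rankB (2 ^ n * D) n
  refine ⟨B, fun X _ _ _ _ hno => ?_⟩
  obtain ⟨k, M, 𝓕, hk, hd, -, hc, hr, hn1, hp, h⟩ := hB hn n X univ (fun _ _ => ⊤) dist_top
    univ_nonempty isPreconnected_univ hno
  obtain ⟨r, M', 𝓕', hr', hd', hs', hc', hrem', hn', hp', hi', hno'⟩ :=
    ind_brkB (hBrk X) D n k (by omega) M 𝓕 hd hn1 hp h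
  refine ⟨r, M', 𝓕', by omega, hd', ?_, rem_trans isOpen_univ hd.isOpen hd'.isOpen hs'
    (subset_univ _) hc hc' hrem' hr, ⟨hn', hp'⟩, hi', hno'⟩
  exact dense_iff_closure_eq.2 (univ_subset_iff.1 (clos_trans hc hc'))

end Pool.Agent.Helper91.CX
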