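import Pool.Agent.Helper91.CM.KodM
import Pool.Agent.Helper91.CM.FlagB

/-!
A distribution without forms of bounded degree which carries a tensor of bounded degree has a proper
member without forms of bounded degree.
-/

set_option autoImplicit false
set_option linter.unusedSectionVars false

namespace Pool.Agent.Helper91.CX

open Metric Set Topology Module
open scoped Manifold ContDiff
open Pool.Agent.Helper12.BL Pool.Agent.Helper91.HM Pool.Agent.Helper91.EF Pool.Agent.Helper91.CM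
open Pool.Agent.Helper91.HM.Tw (lt lt_lt lt_one lt_li det_blocks det_blocks_le)

variable {n : ℕ} {X : Type} [TopologicalSpace X] [ChartedSpace (Fin n → ℂ) X]
  [IsManifold 𝓘(ℂ, Fin n → ℂ) ω X]
  {M : Set X} {𝓕 : Ch n X → X → Submodule ℂ (Fin n → ℂ)} {r : ℕ}

theorem kod_auxB {D B' B1 B2 : ℕ}
    (hB1 : ∀ (c : CC r D) (N' : YY r D c → ℕ), N' = yd r D c →
      ∀ (K : Type) [Field K] [Algebra ℝ K] (T : ∀ x : YY r D c, (Fin (N' x) → Fin r) → K),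
        NoInvB B1 T → NoInv T)
    (hB2 : ∀ w ∈ WW r D, kk w ≤ B2 ∧ ∑ j, qq w j ≤ B2 ∧
      ∀ (c : CC r D) (N' : YY r D c → ℕ), N' = yd r D c →
        ∀ (T : ∀ x : YY r D c, (Fin (Fintype.card (IR N' (qq w) (kk w) x)) → Fin r) → ℂ),
          NoInvB B2 T → NoInv T)
    (hid : S_Id) (hCh : S_Chart n X) (hPull : S_Pull n X) (hCr : S_Cramer)
    (hSat : S_Sat n X) (hRem : S_RemOf n X) (hSE : S_SecExt n X) (hConn : S_Conn n X)
    (hr : 0 < r) (hd : IsDist M 𝓕 r)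
    (hM : IsPreconnected M) (hM1 : M.Nonempty) (hno1 : ∀ m, 0 < m → m ≤ B1 * D → NoSec (formL r m) M 𝓕)
    (hno2 : ∀ m, 0 < m → m ≤ Phi (Ebd B2 B2 B2 D 0) B' → NoSec (formL r m) M 𝓕)
    {N0 : ℕ} (hN0 : 0 < N0) (hN0D : N0 ≤ D) (hex : ¬ NoSec (tenL r N0) M 𝓕) :
    ∃ (k : ℕ) (M' : Set X) (𝓕' : Ch n X → X → Submodule ℂ (Fin n → ℂ)), 0 < k ∧ k < r ∧
      IsDist M' 𝓕' k ∧ M' ⊆ M ∧ M ⊆ closure M' ∧ Rem n M' M ∧ M'.Nonempty ∧ IsPreconnected M' ∧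
        ∀ m, 0 < m → m ≤ B' → NoSec (formL k m) M' 𝓕' := by
  classical
  obtain ⟨a, ha, hloc⟩ := exists_aB hid hCh hPull hr
    (fun φ hφ W e hW h1 h2 h3 h4 => local_optB hid hr hB1 hno1 hφ hW h1 h2 h3 h4) hd hM hM1
  obtain ⟨τ, hτ, k, hk, Mk, Fk, hF⟩ := exists_flg hid hCh hPull hSat hRem hr hd ha hloc
  by_contra hcon
  have hdk : ∀ t, M ⊆ closure (Mk t) := fun t x hx => closure_mono (hF.good t) (hF.dense hx)
  have hG1 : (Good M 𝓕 r D a).Nonempty := by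
    obtain ⟨x, hx⟩ := hM1
    exact closure_nonempty_iff.1 ⟨x, hF.dense hx⟩
  have hkc : ∀ t, IsPreconnected (Mk t) := fun t =>
    hConn.1 M (Mk t) hd.isOpen (hF.dist t).isOpen (hF.sub t) (hdk t) (hF.remt t) hM
  have hθ : ∀ t, ∃ (m : ℕ) (θ : Ch n X → X → (Fin (k t) → Fin n → ℂ) → Unit → ℂ),
      (0 < m ∧ m ≤ B') ∧
      IsSec (formL (k t) m) (Mk t) (Fk t) θ ∧ ∃ x ∈ Mk t, NZ (L := formL (k t) m) (Fk t) θ x := by
    intro t
    by_contra hcon'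
    push Not at hcon'
    apply hcon
    refine ⟨k t, Mk t, Fk t, hF.pos t, hF.ltr t, hF.dist t, hF.sub t, hdk t, hF.remt t,
      hG1.mono (hF.good t), hkc t, fun m hm hmB θ hθ φ hφ x hx hxM e he I => ?_⟩
    by_contra hne
    exact hcon' m θ ⟨hm, hmB⟩ hθ x hxM ⟨φ, hφ, hx, e, he, I, hne⟩
  choose mm θ hmm hθs xθ hxθ hθnz using hθ
  rw [NoSec] at hex
  push Not at hex
  obtain ⟨s0, hs0, φ1, hφ1, x1, hx1, hx1M, e1, he1, I1, hI1⟩ := hex
  -- the point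
  obtain ⟨x0, ⟨hx0G, hx0s⟩, hx0θ⟩ := fin_dense (G := Good M 𝓕 r D a ∩ {x | x ∈ M ∧
      NZ (L := tenL r N0) 𝓕 s0 x}) (O := fun t => {x | x ∈ Mk t ∧ NZ (L := formL (k t) (mm t))
        (Fk t) (θ t) x})
    (good_open.inter (nz_open hCh hd hs0)) (by
      obtain ⟨x, hx⟩ := hG1
      exact _root_.mem_closure_iff.1 (nz_dense hid hCh hd hM hs0 hx1M
        ⟨φ1, hφ1, hx1, e1, he1, I1, hI1⟩ (good_sub hx)) _ good_open hx)
    (fun t => nz_open hCh (hF.dist t) (hθs t))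
    (fun t x hx => nz_dense hid hCh (hF.dist t) (hkc t) (hθs t) (hxθ t) (hθnz t)
      (hF.good t hx.1))
  obtain ⟨φ0, hφ0, hx0⟩ : ∃ φ ∈ Charts n X, x0 ∈ φ.source :=
    ⟨_, IsManifold.chart_mem_maximalAtlas x0, mem_chart_source (Fin n → ℂ) x0⟩
  obtain ⟨W1, g1, hW1, hxW1, -, hopt1⟩ := good_frame' hCh hPull hd hx0G hφ0 hx0
  obtain ⟨g, hg⟩ : ∃ g, g = g1 (φ0 x0) := ⟨_, rfl⟩
  have hopt := hopt1 _ hxW1
  rw [φ0.left_inv hx0, ← hg] at hopt
  have hx0M : x0 ∈ M ∩ ⋂ t, Mk t := ⟨good_sub hx0G, mem_iInter.2 fun t => hF.good t hx0G⟩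
  have hadp := adp_opt hr ha hF hφ0 hx0 hx0G hopt
  -- the invariant
  obtain ⟨I2, hI2⟩ := nz_all hCh hd hs0 hx0M.1 hx0s.2 hφ0 hx0 hopt.1
  obtain ⟨Q, hQf, hQd, ⟨q0⟩, ν, A, m, q, κ0, kk, p, m', e, hm, hA, hq, hp, hm', he, hepos, heE, hLC⟩ :=
    coreB hr hB2 (fun i : Ti M 𝓕 r D => i.2.2.1) (fun i => i.2.1) (TT φ0 x0 g) hopt.2
      ⟨⟨⟨N0, s0⟩, hN0, hN0D, hs0⟩, fun h0 => hI2 (congrFun h0 I2)⟩
  have hcQ : 0 < Fintype.card Q := Fintype.card_pos_iff.2 ⟨q0⟩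
  have hAa : ∀ i j, A i ≤ A j ↔ a i ≤ a j := by
    intro i j
    have h1 : (A i : ℝ) ≤ A j ↔ a i ≤ a j := by
      rw [hA, hA]
      exact mul_le_mul_iff_right₀ (by exact_mod_cast hm)
    rw [← h1]
    exact Int.cast_le.symm
  have hea : ∀ i j, e j ≤ e i ↔ a i ≤ a j := fun i j =>
    (heA hm hcQ hq he i j).trans (hAa i j)
  have hqA : ∀ i j, A i = A j → q i = q j := fun i j h => by
    have h1 : (q i : ℤ) = q j := by rw [hq, hq, h]
    exact_mod_cast h1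
  -- the forms on the members
  have hall : ∀ t : ℤ, ∃ (m1 : ℕ) (ϑ : Ch n X → X → (Fin r → Fin n → ℂ) → ℂ) (κ : ℕ) (hκ : κ ≤ r),
      (0 < m1 ∧ m1 ≤ B' + 1) ∧ ((∃ j, e j ≤ t) → (∃ j, t < e j) → (∀ j : Fin r, (j : ℕ) < κ ↔ e j ≤ t) ∧
        (∀ φ ∈ Charts n X, ∀ x ∈ φ.source, x ∈ M ∩ ⋂ t, Mk t → ∀ E, Adp 𝓕 hk Fk φ x E →
          ∀ C : Matrix (Fin r) (Fin r) ℂ, C.det ≠ 0 → Blk k C →
            ϑ φ x (mv C E) = (cor hκ C).det ^ m1 * ϑ φ x E) ∧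
        (∀ φ ∈ Charts n X, ∀ ψ ∈ Charts n X, ∀ x ∈ φ.source, x ∈ ψ.source →
          x ∈ M ∩ ⋂ t, Mk t → ∀ E, Adp 𝓕 hk Fk φ x E →
            ϑ ψ x (fun i => der id φ ψ x (E i)) = ϑ φ x E) ∧
        (∀ φ ∈ Charts n X, ∀ (W : Set (Fin n → ℂ)) (E : (Fin n → ℂ) → Fin r → Fin n → ℂ),
          Dom φ (M ∩ ⋂ t, Mk t) W → Hol W E → (∀ y ∈ W, Adp 𝓕 hk Fk φ (φ.symm y) (E y)) →
            DifferentiableOn ℂ (fun y => ϑ φ (φ.symm y) (E y)) W) ∧
        ϑ φ0 x0 g ≠ 0) := by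
    intro t
    by_cases ht : (∃ j, e j ≤ t) ∧ ∃ j, t < e j
    · obtain ⟨κ, hκ0, hκr, hκa, hκe⟩ := e_cut ha hea ht.1 ht.2
      obtain ⟨o, rfl⟩ := hF.all κ hκ0 hκr hκa
      refine ⟨mm o, fun φ x E => θ o φ x (fst (hk o) E) (), k o, hk o,
        ⟨(hmm o).1, (hmm o).2.trans (Nat.le_succ _)⟩, fun _ _ =>
        ⟨hκe, fun φ hφ x hx hxM E hE C hC hB => ?_, fun φ hφ ψ hψ x hx hx' hxM E hE => ?_,
          fun φ hφ W E hW hE hf => ?_, ?_⟩⟩
      · have h1 := (hθs o).law φ hφ x hx (mem_iInter.1 hxM.2 o) _ (hE.2 o) (cor (hk o) C)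
          (cor_det hE hC hB o) ()
        have h2 : ∑ I : Unit, (cor (hk o) C).det ^ mm o * θ o φ x (fst (hk o) E) I =
            (cor (hk o) C).det ^ mm o * θ o φ x (fst (hk o) E) () := Fintype.sum_unique _
        change θ o φ x (fst (hk o) (mv C E)) () =
          (cor (hk o) C).det ^ mm o * θ o φ x (fst (hk o) E) ()
        rw [fst_mv (hk o) (hB o)]
        exact h1.trans h2
      · exact congrFun ((hθs o).nat φ hφ ψ hψ x hx hx' (mem_iInter.1 hxM.2 o) _ (hE.2 o)) ()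
      · exact (hθs o).hol φ hφ W (fun y => fst (hk o) (E y)) ⟨hW.1, hW.2.1, fun y hy =>
          mem_iInter.1 (hW.2.2 y hy).2 o⟩ (fun i j => hE _ _) (fun y hy => (hf y hy).2 o) ()
      · obtain ⟨I, hI⟩ := nz_all hCh (hF.dist o) (hθs o) (hx0θ o).1 (hx0θ o).2 hφ0 hx0 (hadp.2 o)
        exact hI
    · exact ⟨1, fun _ _ _ => 0, r, le_rfl, ⟨one_pos, by omega⟩, fun h0 h1 => absurd ⟨h0, h1⟩ ht⟩
  choose m1 ϑ κ hκ hm1 hϑ using hall
  obtain ⟨I, M0, W0, rr, hM0, hW0, hWB, hmr, hI, halg⟩ := kod_algB hr hepos m1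
    (fun t => (hm1 t).1) heE (fun t => (hm1 t).2)
  have hϑI := fun t ht => hϑ t (hI t ht).1 (hI t ht).2
  -- the function on adapted frames
  obtain ⟨Gf, hGf⟩ : ∃ Gf : Ch n X → X → (Fin r → Fin n → ℂ) → ℂ, ∀ φ x E, Gf φ x E =
      (LC A (-m) q kk p (fun x' => TT φ x E (ν x'))) ^ M0 * ∏ t ∈ I, ϑ t φ x E ^ rr t :=
    ⟨_, fun _ _ _ => rfl⟩
  have hsA : ∀ {d : ℕ} (J : Fin d → Fin r), ((∑ l, A (J l) : ℤ) : ℝ) = m * ∑ l, a (J l) := by
    intro d J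
    push_cast
    rw [Finset.mul_sum]
    exact Finset.sum_congr rfl fun k _ => hA _
  obtain ⟨s, hs, hsG⟩ := adp_sec hCh hPull hCr hr hd ha hF W0 Gf
    (fun φ hφ x hx hxM E hE C hC hB => by
      have hCe : ∀ i j, C i j ≠ 0 → e j ≤ e i := fun i j hij => (hea i j).2 (blk_a ha hF hB i j hij)
      have hCA : ∀ i j, C i j ≠ 0 → A i ≤ A j := fun i j hij => (hAa i j).2 (blk_a ha hF hB i j hij)
      obtain ⟨hchi, hlaw⟩ := law_e hm hcQ hq he hC hCe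
      have h1 : (fun x' => TT φ x (mv C E) (ν x')) = fun x' => act C (TT φ x E (ν x')) :=
        funext fun x' => TT_mv hφ hx hxM.1 hE.1 hC (ν x')
      have h2 : LC A (-m) q kk p (fun x' => act C (TT φ x E (ν x'))) =
          C.det ^ m' * ((chi A q C) ^ Fintype.card Q)⁻¹ *
            LC A (-m) q kk p (fun x' => TT φ x E (ν x')) := LC_act hqA hp hm'
        (T := fun x' => TT φ x E (ν x')) (fun x' J hJ => by
          have h3 : ∑ l, a (J l) ≤ -1 := by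
            by_contra hcon'
            exact hJ (adp_supp hCh hPull hCr hr hd ha hF hφ hx hxM hE (ν x') J hcon')
          have h4 : ((∑ k, A (J k) : ℤ) : ℝ) ≤ ((-m : ℤ) : ℝ) := by
            rw [hsA]
            push_cast
            have h5 : (0 : ℝ) < m := by exact_mod_cast hm
            nlinarith
          exact_mod_cast h4) hCA hchi
      rw [hlaw] at h2
      have h12 : LC A (-m) q kk p (fun x' => TT φ x (mv C E) (ν x')) =
          (∏ u ∈ Finset.univ.image e, (C.toSquareBlock e u).det ^ u) *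
            LC A (-m) q kk p (fun x' => TT φ x E (ν x')) :=
        (congrArg (LC A (-m) q kk p) h1).trans h2
      have h5 : ∀ t ∈ I, ϑ t φ x (mv C E) ^ rr t =
          (∏ u ∈ (Finset.univ.image e).filter (· ≤ t), (C.toSquareBlock e u).det) ^ M0 *
            ϑ t φ x E ^ rr t := by
        intro t ht
        have h6 := (hϑI t ht).1
        let σ : Fin (κ t) ≃ {l // e l ≤ t} :=
          { toFun := fun i => ⟨Fin.castLE (hκ t) i, (h6 _).1 i.2⟩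
            invFun := fun l => ⟨l.1, (h6 _).2 l.2⟩
            left_inv := fun i => rfl
            right_inv := fun l => rfl }
        have h7 : (cor (hκ t) C).det = _ := det_blocks_le hCe t σ
        rw [(hϑI t ht).2.1 φ hφ x hx hxM E hE C hC hB, h7, mul_pow, ← pow_mul, hmr t ht]
      rw [hGf, hGf, h12, Finset.prod_congr rfl h5, Finset.prod_mul_distrib, ← halg ℂ C hC hCe,
        mul_pow]
      ring)
    (fun φ hφ ψ hψ x hx hx' hxM E hE => by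
      have h1 : (fun x' => TT ψ x (fun i => der id φ ψ x (E i)) (ν x')) =
          fun x' => TT φ x E (ν x') := funext fun x' => TT_nat hφ hψ hx hx' hxM.1 hE.1 (ν x')
      have h2 : LC A (-m) q kk p (fun x' => TT ψ x (fun i => der id φ ψ x (E i)) (ν x')) =
          LC A (-m) q kk p (fun x' => TT φ x E (ν x')) := congrArg (LC A (-m) q kk p) h1
      rw [hGf, hGf, h2]
      congr 1
      refine Finset.prod_congr rfl fun t ht => ?_
      rw [(hϑI t ht).2.2.1 φ hφ ψ hψ x hx hx' hxM E hE])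
    (fun φ hφ W E hW hE hf => by
      simp only [hGf]
      refine DifferentiableOn.mul (DifferentiableOn.pow (LC_hol _ fun x' J => ?_) _)
        (dprod _ _ fun t ht => DifferentiableOn.pow ((hϑI t ht).2.2.2.1 φ hφ W E hW hE hf) _)
      exact TT_hol hφ ⟨hW.1, hW.2.1, fun y hy => (hW.2.2 y hy).1⟩ hE (fun y hy => (hf y hy).1)
        (ν x') J)
  -- the extension
  obtain ⟨s', hs', hss⟩ := hSE M (M ∩ ⋂ t, Mk t) 𝓕 r (formL r W0) s hd
    (hd.isOpen.inter (isOpen_iInter_of_finite fun t => (hF.dist t).isOpen)) inter_subset_left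
    (fun x hx => closure_mono (show Good M 𝓕 r D a ⊆ M ∩ ⋂ t, Mk t from
      fun y hy => ⟨good_sub hy, mem_iInter.2 fun t => hF.good t hy⟩) (hF.dense hx)) hF.rem hs
  have h1 := hno2 W0 hW0 hWB s' hs' φ0 hφ0 x0 hx0 hx0M.1 g hopt.1 ()
  rw [hss φ0 hφ0 x0 hx0 hx0M g hopt.1, hsG φ0 hφ0 x0 hx0 hx0M g hadp, hGf] at h1
  rcases mul_eq_zero.1 h1 with h2 | h2
  · exact hLC (pow_eq_zero_iff hM0.ne' |>.1 h2)
  · obtain ⟨t, ht, h3⟩ := Finset.prod_eq_zero_iff.1 h2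
    exact (hϑI t ht).2.2.2.2 (eq_zero_of_pow_eq_zero h3)

end Pool.Agent.Helper91.CX
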