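import Pool.Agent.Helper91.CM.Rat
import Mathlib.RingTheory.MvPolynomial.Localization
import Mathlib.RingTheory.Jacobson.Ring

/-!
The Nullstellensatz over a domain.
-/

set_option autoImplicit false
set_option linter.unusedSectionVars false

namespace Pool.Agent.Helper91.CM

open MvPolynomial

attribute [local instance] MvPolynomial.algebraMvPolynomial

/-- polynomials without a common zero generate the unit ideal -/
theorem ns_field {K σ : Type} [Field K] [Finite σ] (P : Set (MvPolynomial σ K))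
    (h : ∀ z : σ → AlgebraicClosure K, ∃ p ∈ P, aeval z p ≠ 0) : Ideal.span P = ⊤ := by
  by_contra hne
  obtain ⟨𝔪, h𝔪, hle⟩ := Ideal.exists_le_maximal _ hne
  let L := MvPolynomial σ K ⧸ 𝔪
  let _ : Field L := Ideal.Quotient.field 𝔪
  have h1 : Module.Finite K L := finite_of_finite_type_of_isJacobsonRing K L
  have h2 : Algebra.IsAlgebraic K L := Algebra.IsAlgebraic.of_finite K L
  let f : L →ₐ[K] AlgebraicClosure K := IsAlgClosed.lift
  obtain ⟨p, hp, hne'⟩ := h (fun i => f (Ideal.Quotient.mk 𝔪 (X i)))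
  apply hne'
  have h3 : aeval (fun i => f (Ideal.Quotient.mk 𝔪 (X i))) =
      f.comp (Ideal.Quotient.mkₐ K 𝔪) := by
    apply MvPolynomial.algHom_ext
    intro i
    rw [aeval_X]
    rfl
  rw [h3]
  change f (Ideal.Quotient.mk 𝔪 p) = 0
  rw [Ideal.Quotient.eq_zero_iff_mem.2 (hle (Ideal.subset_span hp)), map_zero]

theorem ns_domain {A σ : Type} [CommRing A] [IsDomain A] [Finite σ] (P : Set (MvPolynomial σ A))
    (h : ∀ z : σ → AlgebraicClosure (FractionRing A), ∃ p ∈ P,
      aeval z (map (algebraMap A (FractionRing A)) p) ≠ 0) :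
    ∃ f : A, f ≠ 0 ∧ C f ∈ Ideal.span P := by
  have h1 : Ideal.map (algebraMap (MvPolynomial σ A) (MvPolynomial σ (FractionRing A)))
      (Ideal.span P) = ⊤ := by
    rw [Ideal.map_span]
    apply ns_field
    intro z
    obtain ⟨p, hp, hne⟩ := h z
    exact ⟨_, ⟨p, hp, rfl⟩, hne⟩
  have h2 : (1 : MvPolynomial σ (FractionRing A)) ∈ Ideal.map
      (algebraMap (MvPolynomial σ A) (MvPolynomial σ (FractionRing A))) (Ideal.span P) := by
    rw [h1]
    exact Submodule.mem_top
  rw [IsLocalization.mem_map_algebraMap_iff ((nonZeroDivisors A).map (C (σ := σ)))] at h2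
  obtain ⟨⟨⟨x, hx⟩, ⟨m, hm⟩⟩, hxm⟩ := h2
  obtain ⟨f, hf, rfl⟩ := Submonoid.mem_map.1 hm
  refine ⟨f, nonZeroDivisors.ne_zero hf, ?_⟩
  have h3 : Function.Injective (algebraMap (MvPolynomial σ A)
      (MvPolynomial σ (FractionRing A))) :=
    MvPolynomial.map_injective _ (IsFractionRing.injective A (FractionRing A))
  rw [one_mul] at hxm
  have h4 := h3 hxm
  change C f = x at h4
  rw [h4]
  exact hx

end Pool.Agent.Helper91.CM
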