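import Pool.Agent.Helper91.HM.Rat
import Pool.Agent.Helper91.EF.Opt

/-!
Optimal destabilising flags are defined over the ground field.
-/

set_option autoImplicit false
set_option linter.unusedSectionVars false

namespace Pool.Agent.Helper91.CM

open Module Pool.Agent.Helper12.BL Pool.Agent.Helper91.HM

theorem rat_min {K : Type} [Field K] [Algebra ℝ K] {n : ℕ} {ι : Type} {N : ι → ℕ} (hn : 0 < n)
    [Finite ι] (T : ∀ i, (Fin (N i) → Fin n) → K) (hT : NoInv T) :
    ∃ (h : Fin n → Fin n → K) (a : Fin n → ℝ), LinearIndependent K h ∧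
      Dest (fam (M := AlgebraicClosure K) T)
        (fun j => algebraMap K (AlgebraicClosure K) ∘ h j) a ∧
      ∀ (e : Fin n → Fin n → AlgebraicClosure K) (b : Fin n → ℝ),
        Dest (fam (M := AlgebraicClosure K) T) e b → ∑ j, a j ^ 2 ≤ ∑ j, b j ^ 2 := by
  classical
  have hchar : CharZero K := charZero_of_injective_algebraMap (algebraMap ℝ K).injective
  obtain ⟨E, a0, hE, ha0, hact⟩ := alg_step hn T hT
  obtain ⟨M, hMdef⟩ : ∃ M, M = AlgebraicClosure K := ⟨_, rfl⟩
  let 𝒮 := fam (M := AlgebraicClosure K) T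
  obtain ⟨D, hD⟩ : ∃ D, ∀ i, N i ≤ D := by
    obtain ⟨D, hD⟩ := (Set.finite_range N).bddAbove
    exact ⟨D, fun i => hD ⟨i, rfl⟩⟩
  have h𝒮D : ∀ d, ∀ s ∈ 𝒮 d, d ≤ D := by
    rintro d s ⟨i, h, -⟩
    rw [← h]
    exact hD i
  -- the flag over the algebraic closure
  have hEli : LinearIndependent (AlgebraicClosure K) (fun j => E j) :=
    Matrix.linearIndependent_rows_iff_isUnit.2
      ((Matrix.isUnit_iff_isUnit_det _).2 (isUnit_iff_ne_zero.2 hE))
  have hDest0 : Dest 𝒮 (fun j => E j) (fun j => (a0 j : ℝ)) := by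
    refine ⟨hEli, span_top_of_mul E (isUnit_iff_ne_zero.2 hE), ?_, ?_⟩
    · beta_reduce
      exact_mod_cast ha0
    rintro d s ⟨i, h, hs⟩ J hne
    subst h
    rw [hs] at hne
    have h1 : act E (fun I => algebraMap K (AlgebraicClosure K) (T i I)) J ≠ 0 := by
      rw [act_eq_form]
      exact hne
    have h2 := hact i J h1
    have h3 : ∑ k, a0 (J k) ≤ -1 := by omega
    beta_reduce
    exact_mod_cast h3
  obtain ⟨g, a, hg, hmin⟩ := exists_min h𝒮D hDest0
  -- Galois invariance
  have hgal : ∀ (t : ℝ) (σ : AlgebraicClosure K ≃ₐ[K] AlgebraicClosure K),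
      (flag g a t : Submodule (AlgebraicClosure K) (Fin n → AlgebraicClosure K)) ≤
        tw σ (flag g a t) := by
    intro t σ x hx
    rw [mem_tw]
    refine flag_stable hn hg hmin (σ : AlgebraicClosure K ≃+* AlgebraicClosure K)
      (AddEquiv.piCongrRight fun _ => (σ : AlgebraicClosure K ≃+ AlgebraicClosure K))
      (fun c x => ?_) (fun d s hs => ⟨s, hs, fun x hne h0 => hne ?_⟩) t hx
    · funext i
      exact map_mul σ _ _
    · obtain ⟨i, h, hs⟩ := hs
      rw [hs] at h0 ⊢
      have h1 : form (fun I => algebraMap K (AlgebraicClosure K) (T i I)) (fun k =>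
          (AddEquiv.piCongrRight fun _ => (σ : AlgebraicClosure K ≃+ AlgebraicClosure K))
            (x (Fin.cast h k))) = σ (form (fun I => algebraMap K (AlgebraicClosure K) (T i I))
              (fun k => x (Fin.cast h k))) := by
        rw [form_apply, form_apply, map_sum]
        refine Finset.sum_congr rfl fun I _ => ?_
        rw [map_mul, map_prod, AlgEquiv.commutes]
        rfl
      rw [h1, h0, map_zero]
  have hdesc : ∀ t, finrank K (pts (K := K) (flag g a t : Submodule (AlgebraicClosure K)
      (Fin n → AlgebraicClosure K))) = (Finset.univ.filter fun j => t ≤ a j).card := by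
    intro t
    rw [← finrank_flag hg.1, ← finrank_ext (E := AlgebraicClosure K)]
    rw [le_antisymm (ext_pts_le _) (descent _ _ le_rfl (hgal t))]
  -- a rational basis
  obtain ⟨π, hπ⟩ : ∃ π : Equiv.Perm (Fin n), Antitone (a ∘ π) := by
    refine ⟨Tuple.sort (fun j => -a j), fun i j hij => ?_⟩
    have := Tuple.monotone_sort (fun j => -a j) hij
    simp only [Function.comp_apply] at this ⊢
    linarith
  obtain ⟨h, hli, hmem⟩ := greedy (K := K) (W := Fin n → K)
    (fun j => pts (K := K) (flag g a (a (π j)) : Submodule (AlgebraicClosure K)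
      (Fin n → AlgebraicClosure K))) (fun j => by
        rw [hdesc]
        have h1 : ((Finset.Iic j).map π.toEmbedding) ⊆
            Finset.univ.filter fun l => a (π j) ≤ a l := by
          intro l hl
          obtain ⟨i, hi, rfl⟩ := Finset.mem_map.1 hl
          exact Finset.mem_filter.2 ⟨Finset.mem_univ _, hπ (Finset.mem_Iic.1 hi)⟩
        have h2 := Finset.card_le_card h1
        rw [Finset.card_map, Fin.card_Iic] at h2
        exact h2)
  let h' : Fin n → Fin n → K := fun j => h (π.symm j)
  have hli' : LinearIndependent K h' := hli.comp _ π.symm.injective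
  have hmem' : ∀ j, algebraMap K (AlgebraicClosure K) ∘ h' j ∈
      (flag g a (a j) : Submodule (AlgebraicClosure K) (Fin n → AlgebraicClosure K)) := by
    intro j
    have h1 := hmem (π.symm j)
    rw [Equiv.apply_symm_apply] at h1
    exact h1
  have hliM : LinearIndependent (AlgebraicClosure K)
      (fun j => algebraMap K (AlgebraicClosure K) ∘ h' j) :=
    linearIndependent_algebraMap_comp_iff.2 hli'
  have hspM : Submodule.span (AlgebraicClosure K)
      (Set.range fun j => algebraMap K (AlgebraicClosure K) ∘ h' j) = ⊤ := by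
    apply Submodule.eq_top_of_finrank_eq
    rw [finrank_span_eq_card hliM]
    simp
  have hDest := hg.change hliM hspM hg.2.2.1 hmem'
  exact ⟨h', a, hli', hDest, hmin⟩

end Pool.Agent.Helper91.CM
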