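import Pool.Agent.Helper91.CM.Adp2

/-!
The identity theorem for sections, and some lemmas.
-/

set_option autoImplicit false
set_option linter.unusedSectionVars false

namespace Pool.Agent.Helper91.CX

open Metric Set Topology Module
open scoped Manifold ContDiff
open Pool.Agent.Helper12.BL Pool.Agent.Helper91.HM Pool.Agent.Helper91.EF Pool.Agent.Helper91.CM
open Pool.Agent.Helper91.HM.Tw (lt lt_lt lt_one lt_li)

theorem fin_dense {Y : Type} [TopologicalSpace Y] {τ : Type} [Finite τ] {G : Set Y} (hG : IsOpen G)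
    (hG1 : G.Nonempty) {O : τ → Set Y} (hO : ∀ t, IsOpen (O t)) (h : ∀ t, G ⊆ closure (O t)) :
    ∃ x ∈ G, ∀ t, x ∈ O t := by
  classical
  have := Fintype.ofFinite τ
  have key : ∀ F : Finset τ, ∃ G' : Set Y, IsOpen G' ∧ G'.Nonempty ∧ G' ⊆ G ∧ ∀ t ∈ F, G' ⊆ O t := by
    intro F
    induction F using Finset.induction_on with
    | empty => exact ⟨G, hG, hG1, Subset.rfl, fun t ht => absurd ht (Finset.notMem_empty t)⟩
    | insert t F _ ih =>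
      obtain ⟨G', h1, ⟨x, hx⟩, h3, h4⟩ := ih
      obtain ⟨y, hy, hy'⟩ := _root_.mem_closure_iff.1 (h t (h3 hx)) G' h1 hx
      refine ⟨G' ∩ O t, h1.inter (hO t), ⟨y, hy, hy'⟩, fun z hz => h3 hz.1, fun u hu => ?_⟩
      rcases Finset.mem_insert.1 hu with rfl | hu
      · exact inter_subset_right
      · exact fun z hz => h4 u hu hz.1
  obtain ⟨G', -, ⟨x, hx⟩, h3, h4⟩ := key Finset.univ
  exact ⟨x, h3 hx, fun t => h4 t (Finset.mem_univ _) hx⟩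

theorem e_cut {r : ℕ} {a : Fin r → ℝ} (ha : Antitone a) {e : Fin r → ℤ}
    (he : ∀ i j, e j ≤ e i ↔ a i ≤ a j) {t : ℤ} (h0 : ∃ j, e j ≤ t) (h1 : ∃ j, t < e j) :
    ∃ κ : ℕ, 0 < κ ∧ κ < r ∧ Adm a κ ∧ ∀ j : Fin r, (j : ℕ) < κ ↔ e j ≤ t := by
  classical
  obtain ⟨j0, hj0⟩ := h0
  obtain ⟨j1, hj1⟩ := h1
  have hex : ∃ l : ℕ, ∃ hl : l < r, t < e ⟨l, hl⟩ := ⟨j1, j1.2, hj1⟩
  obtain ⟨h1, h2⟩ := Nat.find_spec hex
  obtain ⟨κ, hκ⟩ : ∃ κ, κ = Nat.find hex := ⟨_, rfl⟩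
  have hlt : ∀ l : Fin r, (l : ℕ) < κ → e l ≤ t := fun l hl => by
    rw [hκ] at hl
    by_contra hcon
    exact Nat.find_min hex hl ⟨l.2, not_le.1 hcon⟩
  have hge : ∀ l : Fin r, κ ≤ (l : ℕ) → t < e l := fun l hl => by
    refine lt_of_lt_of_le h2 ((he _ _).2 (ha ?_))
    rw [hκ] at hl
    exact hl
  have hiff : ∀ j : Fin r, (j : ℕ) < κ ↔ e j ≤ t := fun j =>
    ⟨hlt j, fun h => by
      by_contra hcon
      exact absurd (hge j (not_lt.1 hcon)) (not_lt.2 h)⟩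
  refine ⟨κ, ?_, ?_, fun i j hi hj => ?_, hiff⟩
  · have := (hiff j0).2 hj0
    omega
  · rw [hκ]
    exact h1
  · have h3 : e i < e j := lt_of_le_of_lt (hlt i hi) (hge j hj)
    by_contra hcon
    exact absurd ((he i j).2 (not_lt.1 hcon)) (not_le.2 h3)

theorem LC_hol {n r : ℕ} {Q : Type} [Fintype Q] [DecidableEq Q] {N : Q → ℕ} {A : Fin r → ℤ} {w : ℤ}
    {q : Fin r → ℕ} {k : ℕ} {p : ((Σ x, Fin (Fintype.card (IR N q k x))) → Fin r) → ℝ}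
    {W : Set (Fin n → ℂ)} (T : (Fin n → ℂ) → ∀ x : Q, (Fin (N x) → Fin r) → ℂ)
    (hT : ∀ x J, DifferentiableOn ℂ (fun y => T y x J) W) :
    DifferentiableOn ℂ (fun y => LC A w q k p (T y)) W := by
  change DifferentiableOn ℂ (fun y => ∑ I, algebraMap ℝ ℂ (p I) *
    ∏ x, RR A q k (fun x => lead A w (T y x)) x (fun l => I ⟨x, l⟩)) W
  refine DifferentiableOn.fun_sum fun I _ => DifferentiableOn.const_mul ?_ _
  refine dprod _ _ fun x _ => ?_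
  change DifferentiableOn ℂ (fun y => wordT (fun x => lead A w (T y x)) (fun _ : Fin k => x) _ *
    D0 ℂ A q _) W
  refine DifferentiableOn.mul_const ?_ _
  refine dprod _ _ fun l _ => ?_
  simp only [lead]
  split_ifs
  · exact hT _ _
  · exact differentiableOn_const _

variable {n : ℕ} {X : Type} [TopologicalSpace X] [ChartedSpace (Fin n → ℂ) X]
  {M : Set X} {𝓕 : Ch n X → X → Submodule ℂ (Fin n → ℂ)} {r D : ℕ}

/-- the section `s` does not vanish at `x` -/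
def NZ {r : ℕ} {L : Law r} (𝓕 : Ch n X → X → Submodule ℂ (Fin n → ℂ))
    (s : Ch n X → X → (Fin r → Fin n → ℂ) → L.Ix → ℂ) (x : X) : Prop :=
  ∃ φ ∈ Charts n X, x ∈ φ.source ∧ ∃ e, Fr 𝓕 φ x e ∧ ∃ I, s φ x e I ≠ 0

variable [IsManifold 𝓘(ℂ, Fin n → ℂ) ω X]

theorem nz_all (hCh : S_Chart n X) {L : Law r} (hd : IsDist M 𝓕 r)
    {s : Ch n X → X → (Fin r → Fin n → ℂ) → L.Ix → ℂ} (hs : IsSec L M 𝓕 s) {x : X} (hxM : x ∈ M)
    (hnz : NZ 𝓕 s x) {ψ : Ch n X} (hψ : ψ ∈ Charts n X) (hx' : x ∈ ψ.source)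
    {e' : Fin r → Fin n → ℂ} (he' : Fr 𝓕 ψ x e') : ∃ I, s ψ x e' I ≠ 0 := by
  obtain ⟨φ, hφ, hx, e, he, I, hI⟩ := hnz
  by_contra hcon
  push Not at hcon
  apply hI
  obtain ⟨C, hC, h1⟩ := fr_exists he' (fr_der hCh hd idA hφ hψ hx hxM hx' he)
  rw [← hs.nat φ hφ ψ hψ x hx hx' hxM e he]
  have h2 : (fun i => der id φ ψ x (e i)) = mv C e' := h1
  rw [h2, hs.law ψ hψ x hx' hxM e' he' C hC I]
  exact Finset.sum_eq_zero fun J _ => by rw [hcon J, mul_zero]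

theorem nz_open (hCh : S_Chart n X) {L : Law r} (hd : IsDist M 𝓕 r)
    {s : Ch n X → X → (Fin r → Fin n → ℂ) → L.Ix → ℂ} (hs : IsSec L M 𝓕 s) :
    IsOpen {x | x ∈ M ∧ NZ 𝓕 s x} := by
  rw [isOpen_iff_mem_nhds]
  rintro x ⟨hxM, hnz⟩
  obtain ⟨φ, hφ, hx⟩ : ∃ φ ∈ Charts n X, x ∈ φ.source :=
    ⟨_, IsManifold.chart_mem_maximalAtlas x, mem_chart_source (Fin n → ℂ) x⟩
  obtain ⟨W, e, hW, hxW, he, hf⟩ := hd.frame φ hφ x hx hxM
  have h1 := hf _ hxW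
  rw [φ.left_inv hx] at h1
  obtain ⟨I, hI⟩ := nz_all hCh hd hs hxM hnz hφ hx h1
  have h2 := hs.hol φ hφ W e hW he hf I
  have h3 := open_ne hW.1 h2
  refine Filter.mem_of_superset ((φ.isOpen_inter_preimage h3).mem_nhds ⟨hx, hxW, ?_⟩) ?_
  · rw [φ.left_inv hx]
    exact hI
  · rintro y ⟨hy, hyW, hyI⟩
    rw [φ.left_inv hy] at hyI
    have h4 := hW.2.2 _ hyW
    have h5 := hf _ hyW
    rw [φ.left_inv hy] at h4 h5
    exact ⟨h4, φ, hφ, hy, _, h5, I, hyI⟩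

/-- **The identity theorem.** -/
theorem nz_dense (hid : S_Id) (hCh : S_Chart n X) {L : Law r} (hd : IsDist M 𝓕 r)
    (hM : IsPreconnected M) {s : Ch n X → X → (Fin r → Fin n → ℂ) → L.Ix → ℂ}
    (hs : IsSec L M 𝓕 s) {x0 : X} (hx0 : x0 ∈ M) (hnz : NZ 𝓕 s x0) :
    M ⊆ closure {x | x ∈ M ∧ NZ 𝓕 s x} := by
  classical
  obtain ⟨Z, hZ⟩ : ∃ Z : Set X, Z = {x | ∃ U, IsOpen U ∧ x ∈ U ∧ U ⊆ M ∧ ∀ y ∈ U, ¬ NZ 𝓕 s y} :=
    ⟨_, rfl⟩
  have hZo : IsOpen Z := by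
    rw [isOpen_iff_mem_nhds, hZ]
    rintro x ⟨U, hU, hxU, hUM, hUz⟩
    exact Filter.mem_of_superset (hU.mem_nhds hxU) fun y hy => ⟨U, hU, hy, hUM, hUz⟩
  have hYo : IsOpen (M \ Z) := by
    rw [isOpen_iff_mem_nhds]
    rintro x ⟨hxM, hxZ⟩
    obtain ⟨φ, hφ, hx⟩ : ∃ φ ∈ Charts n X, x ∈ φ.source :=
      ⟨_, IsManifold.chart_mem_maximalAtlas x, mem_chart_source (Fin n → ℂ) x⟩
    obtain ⟨W, e, hW, hxW, he, hf⟩ := hd.frame φ hφ x hx hxM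
    obtain ⟨ε, hε, hb⟩ := Metric.isOpen_iff.1 hW.1 _ hxW
    have hN : IsOpen (φ.source ∩ φ ⁻¹' ball (φ x) ε) := φ.isOpen_inter_preimage isOpen_ball
    refine Filter.mem_of_superset (hN.mem_nhds ⟨hx, mem_ball_self hε⟩) ?_
    rintro y ⟨hy, hyb⟩
    have hyM := hW.2.2 _ (hb hyb)
    rw [φ.left_inv hy] at hyM
    refine ⟨hyM, fun hyZ => hxZ ?_⟩
    rw [hZ] at hyZ ⊢
    obtain ⟨U, hU, hyU, hUM, hUz⟩ := hyZ
    refine ⟨_, hN, ⟨hx, mem_ball_self hε⟩, ?_, ?_⟩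
    · rintro z ⟨hz, hzb⟩
      have := hW.2.2 _ (hb hzb)
      rwa [φ.left_inv hz] at this
    · rintro z ⟨hz, hzb⟩ hznz
      have h1 := hf _ (hb hzb)
      have hzM := hW.2.2 _ (hb hzb)
      rw [φ.left_inv hz] at h1 hzM
      obtain ⟨I, hI⟩ := nz_all hCh hd hs hzM hznz hφ hz h1
      have h2 := (hs.hol φ hφ W e hW he hf I).mono hb
      have h3 := hid n _ _ isOpen_ball (convex_ball _ _).isPreconnected h2 ⟨φ y, hyb, ?_⟩ (φ z) hzb
      · rw [φ.left_inv hz] at h3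
        exact hI h3
      · have h4 : IsOpen (φ.target ∩ φ.symm ⁻¹' U) := φ.isOpen_inter_preimage_symm hU
        filter_upwards [h4.mem_nhds ⟨φ.map_source hy, by
          rw [mem_preimage, φ.left_inv hy]
          exact hyU⟩, isOpen_ball.mem_nhds hyb] with w hw hwb
        by_contra hne
        exact hUz _ hw.2 ⟨φ, hφ, φ.map_target hw.1, _, hf w (hb hwb), I, hne⟩
  have hsub : M ⊆ M \ Z := by
    refine hM.subset_left_of_subset_union hYo hZo disjoint_sdiff_left (fun x hx => ?_)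
      ⟨x0, hx0, hx0, fun h => ?_⟩
    · by_cases h : x ∈ Z
      · exact Or.inr h
      · exact Or.inl ⟨hx, h⟩
    · rw [hZ] at h
      obtain ⟨U, -, hxU, -, hUz⟩ := h
      exact hUz _ hxU hnz
  intro x hx
  rw [_root_.mem_closure_iff]
  intro U hU hxU
  by_contra hcon
  apply (hsub hx).2
  rw [hZ]
  refine ⟨U ∩ M, hU.inter hd.isOpen, ⟨hxU, hx⟩, inter_subset_right, fun y hy hynz => hcon ?_⟩
  exact ⟨y, hy.1, hy.2, hynz⟩

end Pool.Agent.Helper91.CX
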